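import Pool.Agent.Zk89.BT.Frac

/-!
# Lacunary sequences of lengths
-/

set_option autoImplicit false
set_option linter.unusedSectionVars false

open Finset Filter Topology

noncomputable section

namespace Pool.Agent.Zk89.BT

/-- a lacunary sequence of lengths -/
structure Lc (N : ℕ → ℕ) (lam : ℝ) : Prop where
  one_lt : 1 < lam
  pos : ∀ t, 1 ≤ N t
  mono : Monotone N
  le : ∀ t, (N t : ℝ) ≤ lam ^ t
  ge : ∀ t, lam ^ t ≤ 2 * N t

theorem Lc.floor {lam : ℝ} (h : 1 < lam) : Lc (fun t => ⌊lam ^ t⌋₊) lam := by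
  have h0 : ∀ t : ℕ, 1 ≤ lam ^ t := fun t => one_le_pow₀ h.le
  refine ⟨h, fun t => ?_, ?_, fun t => ?_, fun t => ?_⟩
  · exact Nat.le_floor (by simpa using h0 t)
  · intro s t hst
    exact Nat.floor_le_floor (pow_le_pow_right₀ h.le hst)
  · exact Nat.floor_le (by linarith [h0 t])
  · have h1 : (1 : ℝ) ≤ (⌊lam ^ t⌋₊ : ℝ) := by
      have : 1 ≤ ⌊lam ^ t⌋₊ := Nat.le_floor (by simpa using h0 t)
      exact_mod_cast this
    have h2 := Nat.lt_floor_add_one (lam ^ t)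
    show lam ^ t ≤ 2 * (⌊lam ^ t⌋₊ : ℝ)
    linarith

theorem QQ_le (s : ℕ) : QQ s ≤ 8 ^ (4 ^ s) := by
  unfold QQ
  have h1 : (2 ^ s).factorial ≤ (2 ^ s) ^ (2 ^ s) := Nat.factorial_le_pow _
  have h2 : 4 ^ s * (2 ^ s).factorial ≤ 2 ^ (2 * s) * 2 ^ (s * 2 ^ s) := by
    refine Nat.mul_le_mul (by rw [pow_mul]; norm_num) (h1.trans (by rw [← pow_mul]))
  refine h2.trans ?_
  rw [← pow_add, show (8 : ℕ) = 2 ^ 3 by norm_num, ← pow_mul]
  refine Nat.pow_le_pow_right (by norm_num) ?_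
  have h3 : s ≤ 2 ^ s := Nat.lt_two_pow_self.le
  have h4 : (4 : ℕ) ^ s = 2 ^ s * 2 ^ s := by rw [← mul_pow]; norm_num
  have h5 : 1 ≤ 2 ^ s := Nat.one_le_two_pow
  nlinarith

theorem asym {N : ℕ → ℕ} {lam : ℝ} (h : Lc N lam) (K : ℝ) (k : ℕ) :
    ∃ t₀ : ℕ, 1 ≤ t₀ ∧ ∀ t ≥ t₀, ∀ s : ℕ, 8 ^ s ≤ t → K * (t : ℝ) ^ k * QQ s ≤ √(N t) := by
  have hlog : 0 < Real.log lam := Real.log_pos h.one_lt
  set c := Real.log lam / 2 with hc
  have hc0 : 0 < c := by positivity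
  -- polynomial against exponential
  have h1 : Tendsto (fun t : ℕ => |K| * (4 / c) ^ k * (((c / 4 * (t : ℝ)) ^ k) *
      Real.exp (-(c / 4 * (t : ℝ))))) atTop (𝓝 0) := by
    have h2 : Tendsto (fun t : ℕ => c / 4 * (t : ℝ)) atTop atTop :=
      tendsto_natCast_atTop_atTop.const_mul_atTop (by positivity)
    have h3 := (Real.tendsto_pow_mul_exp_neg_atTop_nhds_zero k).comp h2
    simpa using h3.const_mul (|K| * (4 / c) ^ k)
  have h4 : Tendsto (fun t : ℕ => Real.exp (c / 2 * (t : ℝ))) atTop atTop :=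
    Real.tendsto_exp_atTop.comp
      (tendsto_natCast_atTop_atTop.const_mul_atTop (by positivity))
  obtain ⟨t₁, ht₁⟩ := eventually_atTop.1 ((tendsto_order.1 h1).2 1 one_pos)
  obtain ⟨t₂, ht₂⟩ := eventually_atTop.1 (h4.eventually_ge_atTop 2)
  obtain ⟨t₃, ht₃⟩ := exists_nat_gt ((12 / c) ^ 3)
  refine ⟨max (max t₁ t₂) (max t₃ 1), le_trans (le_max_right _ _) (le_max_right _ _), ?_⟩
  intro t ht s hs
  have e1 : t₁ ≤ t := le_trans (le_trans (le_max_left _ _) (le_max_left _ _)) ht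
  have e2 : t₂ ≤ t := le_trans (le_trans (le_max_right _ _) (le_max_left _ _)) ht
  have e3 : t₃ ≤ t := le_trans (le_trans (le_max_left _ _) (le_max_right _ _)) ht
  have e4 : 1 ≤ t := le_trans (le_trans (le_max_right _ _) (le_max_right _ _)) ht
  have ht0 : (0 : ℝ) < t := by exact_mod_cast e4
  have h5 := ht₁ t e1
  have h6 := ht₂ t e2
  -- the modulus
  have h7 : (4 : ℝ) ^ s ≤ c / 12 * t := by
    by_contra hcon
    push Not at hcon
    have h8 : ((4 : ℝ) ^ s) ^ 3 ≤ (t : ℝ) ^ 2 := by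
      have h9 : ((4 : ℝ) ^ s) ^ 3 = ((8 : ℝ) ^ s) ^ 2 := by
        rw [← pow_mul, ← pow_mul, mul_comm s 3, mul_comm s 2, pow_mul, pow_mul]
        norm_num
      rw [h9]
      have h10 : (8 : ℝ) ^ s ≤ t := by exact_mod_cast hs
      gcongr
    have h9 : (c / 12 * (t : ℝ)) ^ 3 < (t : ℝ) ^ 2 :=
      lt_of_lt_of_le (pow_lt_pow_left₀ hcon (by positivity) (by norm_num)) h8
    have h10 : (t : ℝ) < (12 / c) ^ 3 := by
      have h11 : (c / 12) ^ 3 * (t : ℝ) < 1 := by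
        have h12 : (c / 12 * (t : ℝ)) ^ 3 = ((c / 12) ^ 3 * t) * t ^ 2 := by ring
        rw [h12] at h9
        have h13 : (0 : ℝ) < (t : ℝ) ^ 2 := by positivity
        by_contra hcon2
        push Not at hcon2
        nlinarith
      have h14 : (12 / c) ^ 3 * (c / 12) ^ 3 = 1 := by
        rw [← mul_pow]
        have : 12 / c * (c / 12) = 1 := by field_simp
        rw [this, one_pow]
      have h15 : 0 < (12 / c) ^ 3 := by positivity
      calc (t : ℝ) = (12 / c) ^ 3 * ((c / 12) ^ 3 * t) := by rw [← mul_assoc, h14, one_mul]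
        _ < (12 / c) ^ 3 * 1 := by gcongr
        _ = (12 / c) ^ 3 := mul_one _
    have h16 : (t₃ : ℝ) ≤ t := by exact_mod_cast e3
    linarith
  have h8 : (QQ s : ℝ) ≤ Real.exp (c / 4 * t) := by
    have h9 : (QQ s : ℝ) ≤ (8 : ℝ) ^ (4 ^ s) := by exact_mod_cast QQ_le s
    have h10 : (8 : ℝ) ≤ Real.exp 3 := by
      have h11 : (2.7182818283 : ℝ) < Real.exp 1 := Real.exp_one_gt_d9
      have h12 : Real.exp 3 = Real.exp 1 ^ 3 := by rw [← Real.exp_nat_mul]; norm_num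
      rw [h12]
      have h13 : (2 : ℝ) ≤ Real.exp 1 := by linarith
      calc (8 : ℝ) = 2 ^ 3 := by norm_num
        _ ≤ Real.exp 1 ^ 3 := by gcongr
    calc (QQ s : ℝ) ≤ (8 : ℝ) ^ (4 ^ s) := h9
      _ ≤ (Real.exp 3) ^ (4 ^ s) := by gcongr
      _ = Real.exp (3 * (4 : ℝ) ^ s) := by
        rw [← Real.exp_nat_mul]; congr 1; push_cast; ring
      _ ≤ Real.exp (c / 4 * t) := by
        apply Real.exp_le_exp.2
        linarith
  have h9 : |K| * (t : ℝ) ^ k ≤ Real.exp (c / 4 * t) := by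
    have h10 : |K| * (4 / c) ^ k * (((c / 4 * (t : ℝ)) ^ k) * Real.exp (-(c / 4 * (t : ℝ)))) =
        |K| * (t : ℝ) ^ k * Real.exp (-(c / 4 * (t : ℝ))) := by
      have h11 : (4 / c) ^ k * (c / 4 * (t : ℝ)) ^ k = (t : ℝ) ^ k := by
        rw [← mul_pow]
        congr 1
        field_simp
      rw [← h11]
      ring
    rw [h10, Real.exp_neg, ← div_eq_mul_inv, div_lt_one (Real.exp_pos _)] at h5
    exact h5.le
  have h10 : K * (t : ℝ) ^ k * QQ s ≤ Real.exp (c / 2 * t) := by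
    calc K * (t : ℝ) ^ k * QQ s ≤ |K| * (t : ℝ) ^ k * QQ s := by
          gcongr
          exact le_abs_self K
      _ ≤ Real.exp (c / 4 * t) * Real.exp (c / 4 * t) := by gcongr
      _ = Real.exp (c / 2 * t) := by rw [← Real.exp_add]; congr 1; ring
  refine h10.trans (Real.le_sqrt_of_sq_le ?_)
  have h11 : lam ^ t = Real.exp (c / 2 * t) ^ 4 := by
    rw [← Real.exp_nat_mul]
    have h12 : ((4 : ℕ) : ℝ) * (c / 2 * t) = t * Real.log lam := by rw [hc]; push_cast; ring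
    rw [h12, Real.exp_nat_mul, Real.exp_log (by linarith [h.one_lt])]
  have h12 := h.ge t
  rw [h11] at h12
  have h13 : (2 : ℝ) * Real.exp (c / 2 * t) ^ 2 ≤ Real.exp (c / 2 * t) ^ 4 := by
    have h14 : (4 : ℝ) ≤ Real.exp (c / 2 * t) ^ 2 := by nlinarith
    nlinarith [sq_nonneg (Real.exp (c / 2 * t) ^ 2)]
  linarith

/-- the profile -/
def psi (x : ℝ) : ℝ := 2 * x / (1 + x ^ 2)

theorem psi_nonneg {x : ℝ} (hx : 0 ≤ x) : 0 ≤ psi x := by unfold psi; positivity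

theorem psi_le_one (x : ℝ) : psi x ≤ 1 := by
  unfold psi
  rw [div_le_one (by positivity)]
  nlinarith [sq_nonneg (x - 1)]

theorem le_psi {x : ℝ} (h0 : 0 ≤ x) (h1 : x ≤ 1) : x ≤ psi x := by
  unfold psi
  rw [le_div_iff₀ (by positivity)]
  have : x ^ 2 ≤ 1 := by nlinarith
  nlinarith

theorem inv_le_psi {x : ℝ} (h1 : 1 ≤ x) : 1 / x ≤ psi x := by
  unfold psi
  rw [div_le_div_iff₀ (by linarith) (by positivity)]
  nlinarith

theorem psi_sum {κ : ℝ} (hκ : 1 < κ) {b : ℝ} (hb : 0 ≤ b) (n : ℕ) :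
    ∑ t ∈ range n, psi (κ ^ t * b) ≤ 4 * κ / (κ - 1) := by
  set φ : ℝ → ℝ := fun x => x / (1 + x) with hφ
  have hκ1 : 0 < κ - 1 := by linarith
  have h1 : ∀ t : ℕ, psi (κ ^ t * b) ≤ 4 * κ / (κ - 1) *
      (φ (κ ^ (t + 1) * b) - φ (κ ^ t * b)) := by
    intro t
    set x := κ ^ t * b with hx
    have hx0 : 0 ≤ x := by positivity
    have e : κ ^ (t + 1) * b = κ * x := by rw [hx, pow_succ]; ring
    rw [e]
    have h2 : φ (κ * x) - φ x = (κ - 1) * x / ((1 + κ * x) * (1 + x)) := by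
      simp only [hφ]
      have h3 : (1 + κ * x) ≠ 0 := by positivity
      have h4 : (1 + x) ≠ 0 := by positivity
      field_simp
      ring
    rw [h2, div_mul_div_comm]
    unfold psi
    rw [div_le_div_iff₀ (by positivity) (by positivity)]
    have h3 : (1 + κ * x) * (1 + x) ≤ 2 * κ * (1 + x ^ 2) := by
      nlinarith [mul_nonneg hx0 hκ1.le, sq_nonneg (x - 1), mul_nonneg hκ1.le (sq_nonneg (x - 1))]
    calc 2 * x * ((κ - 1) * ((1 + κ * x) * (1 + x))) =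
        2 * x * (κ - 1) * ((1 + κ * x) * (1 + x)) := by ring
      _ ≤ 2 * x * (κ - 1) * (2 * κ * (1 + x ^ 2)) := by gcongr
      _ = 4 * κ * ((κ - 1) * x) * (1 + x ^ 2) := by ring
  refine (sum_le_sum fun t _ => h1 t).trans ?_
  rw [← mul_sum, Finset.sum_range_sub (fun t => φ (κ ^ t * b)) n]
  have h2 : φ (κ ^ n * b) ≤ 1 := by
    simp only [hφ]
    have : 0 ≤ κ ^ n * b := by positivity
    rw [div_le_one (by linarith)]
    linarith
  have h3 : 0 ≤ φ (κ ^ 0 * b) := by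
    simp only [hφ]
    positivity
  calc 4 * κ / (κ - 1) * (φ (κ ^ n * b) - φ (κ ^ 0 * b)) ≤ 4 * κ / (κ - 1) * 1 := by
        gcongr
        linarith
    _ = _ := mul_one _

theorem sum_inv_sq {t₀ : ℕ} (h0 : 1 ≤ t₀) (S : Finset ℕ) (hS : ∀ t ∈ S, t₀ ≤ t) :
    ∑ t ∈ S, (1 / (t : ℝ)) ^ 2 ≤ 2 / (t₀ : ℝ) := by
  obtain ⟨n, hn⟩ : ∃ n, ∀ t ∈ S, t < n := ⟨S.sup id + 1, fun t ht =>
    Nat.lt_succ_of_le (le_sup (f := id) ht)⟩
  have h1 : ∑ t ∈ S, (1 / (t : ℝ)) ^ 2 ≤ ∑ t ∈ Ioo (t₀ - 1) n, (1 / (t : ℝ)) ^ 2 :=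
    sum_le_sum_of_subset_of_nonneg (fun t ht => by
      rw [mem_Ioo]
      have := hS t ht
      exact ⟨by omega, hn t ht⟩) fun _ _ _ => by positivity
  refine h1.trans ?_
  have h2 := sum_Ioo_inv_sq_le (α := ℝ) (t₀ - 1) n
  have h3 : ((t₀ - 1 : ℕ) : ℝ) + 1 = t₀ := by
    have : t₀ - 1 + 1 = t₀ := by omega
    exact_mod_cast this
  rw [h3] at h2
  refine le_trans (le_of_eq ?_) h2
  refine sum_congr rfl fun t _ => ?_
  rw [one_div, inv_pow]

end Pool.Agent.Zk89.BT
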