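import Pool.Agent.Zk89.BT.Good
import Pool.Agent.Zk89.QM.Linf

/-!
# Products of powers with polynomial exponents in separate variables
-/

set_option autoImplicit false
set_option linter.unusedSectionVars false

open Filter Topology MeasureTheory ProbabilityTheory Polynomial

noncomputable section

namespace Pool.Agent.Zk89.BT

open Pool.Agent.Zk89.QM
open Pool.Agent.Helper28.LCN (TorsionFree)

/-- The sequences `b_j ∏_l h_jl ^ (P_jl (m_l))` lie in one class. -/
theorem exists_cls_poly {G : Type} [Group G] [Group.IsNilpotent G] (htf : TorsionFree G) {n k : ℕ}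
    (b : Fin n → G) (h : Fin n → Fin k → G) (P : Fin n → Fin k → ℤ[X]) :
    ∃ 𝒬 : PCls G, ∀ j, 𝒬.P k (fun m => b j *
      (List.ofFn fun l : Fin k => h j l ^ ((P j l).eval ((m l : ℕ) : ℤ))).prod) := by
  choose D hD using fun (j : Fin n) (l : Fin k) =>
    poly_slices (Polynomial.aeval (MvPolynomial.X l) (P j l) : MvPolynomial (Fin k) ℤ)
  set δ := ∑ j, ∑ l, D j l + 1 with hδ
  have hδ0 : 0 < δ := by omega
  refine ⟨nilCls G htf δ hδ0, fun j => ?_⟩
  show PolMap G δ k fun m => b j *
    (List.ofFn fun l : Fin k => h j l ^ ((P j l).eval ((m l : ℕ) : ℤ))).prod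
  refine PolMap.mul hδ0 (PolMap.const δ k (b j))
    (list_mem hδ0 (fun (l : Fin k) (m : Fin k → ℕ) => h j l ^ ((P j l).eval ((m l : ℕ) : ℤ)))
      fun l => ?_)
  have h1 := pow_mem (δ := δ) (k := k) (h j l)
    (P := (Polynomial.aeval (MvPolynomial.X l) (P j l) : MvPolynomial (Fin k) ℤ))
    (fun i m => DegLE_mono (by
      have h1 : D j l ≤ ∑ l, D j l :=
        Finset.single_le_sum (f := D j) (fun _ _ => Nat.zero_le _) (Finset.mem_univ l)
      have h2 : ∑ l, D j l ≤ ∑ j, ∑ l, D j l :=
        Finset.single_le_sum (f := fun j => ∑ l, D j l) (fun _ _ => Nat.zero_le _)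
          (Finset.mem_univ j)
      omega) (hD j l i m))
  have h2 : ∀ m : Fin k → ℕ, MvPolynomial.eval (fun l => ((m l : ℕ) : ℤ))
      (Polynomial.aeval (MvPolynomial.X l) (P j l) : MvPolynomial (Fin k) ℤ) =
      (P j l).eval ((m l : ℕ) : ℤ) := by
    intro m
    rw [← MvPolynomial.coe_aeval_eq_eval, RingHom.coe_coe, ← Polynomial.aeval_algHom_apply,
      MvPolynomial.aeval_X]
    rfl
  simpa only [h2] using h1

end Pool.Agent.Zk89.BT
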