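import Pool.Agent.Zk89.BT.Err

/-!
# Comparison with finitely many modulated averages
-/

set_option autoImplicit false
set_option linter.unusedSectionVars false

open Finset Filter Topology

noncomputable section

namespace Pool.Agent.Zk89.BT

open Pool.Agent.Helper602.MK (ee)
open Pool.Agent.Helper602.MK.N_J5b (ee_add ee_zero norm_ee ee_add_int)

variable {p : ℕ → ℕ}

/-- the pairs `(q, a)`, `q ≤ 2 ^ s₀`, `0 ≤ a < q`, `(a, q) = 1` -/
def F0 (s₀ : ℕ) : Finset (ℕ × ℕ) :=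
  ((Icc 1 (2 ^ s₀)) ×ˢ (range (2 ^ s₀))).filter fun x => x.2 < x.1 ∧ Nat.Coprime x.2 x.1

theorem mem_F0 {s₀ : ℕ} {x : ℕ × ℕ} :
    x ∈ F0 s₀ ↔ 1 ≤ x.1 ∧ x.1 ≤ 2 ^ s₀ ∧ x.2 < x.1 ∧ Nat.Coprime x.2 x.1 := by
  unfold F0
  rw [mem_filter, mem_product, mem_Icc, mem_range]
  constructor
  · rintro ⟨⟨⟨h1, h2⟩, -⟩, h4, h5⟩
    exact ⟨h1, h2, h4, h5⟩
  · rintro ⟨h1, h2, h4, h5⟩
    exact ⟨⟨⟨h1, h2⟩, by omega⟩, h4, h5⟩

theorem card_F0 (s₀ : ℕ) : (F0 s₀).card ≤ 4 ^ s₀ := by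
  unfold F0
  refine (card_filter_le _ _).trans ?_
  rw [card_product, Nat.card_Icc, card_range]
  simp only [Nat.add_sub_cancel]
  rw [← mul_pow]
  norm_num

/-- the multiplier of the modulated averages -/
def bm (p : ℕ → ℕ) (X s₀ : ℕ) (θ : ℝ) : ℂ :=
  ∑ x ∈ F0 s₀, GS p x.1 x.2 * DK X (θ - (x.2 : ℝ) / x.1)

theorem GS_add {q : ℕ} (hq : 1 ≤ q) (a n : ℤ) : GS p q (a + n * q) = GS p q a := by
  have hq0 : (q : ℝ) ≠ 0 := by
    have : q ≠ 0 := by omega
    exact_mod_cast this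
  unfold GS
  congr 1
  refine sum_congr rfl fun r _ => ?_
  have h1 : (p r : ℝ) * (((a + n * q : ℤ) : ℝ) / q) = p r * ((a : ℝ) / q) +
      ((p r * n : ℤ) : ℝ) := by
    push_cast
    field_simp
  rw [h1, ee_add_int]

/-- the gap between fractions -/
theorem gap {s₀ q q' : ℕ} {a a' : ℤ} {θ : ℝ} (hq : 1 ≤ q) (hq' : 1 ≤ q') (h1 : q ≤ 2 ^ s₀)
    (h2 : q' ≤ 2 ^ s₀) (hne : a * q' ≠ a' * q) (h : |θ - a / q| ≤ 1 / (8 * QQ s₀)) :
    1 / (8 * (QQ s₀ : ℝ)) ≤ |θ - a' / q'| := by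
  have h3 := frac_far hq hq' hne
  have hq0 : (0 : ℝ) < q := by exact_mod_cast hq
  have hq'0 : (0 : ℝ) < q' := by exact_mod_cast hq'
  have hQ : (0 : ℝ) < QQ s₀ := by exact_mod_cast QQ_pos s₀
  have h4 : (q : ℝ) * q' ≤ QQ s₀ := by
    have e1 : q * q' ≤ QQ s₀ := by
      calc q * q' ≤ 2 ^ s₀ * 2 ^ s₀ := Nat.mul_le_mul h1 h2
        _ = 4 ^ s₀ := by rw [← mul_pow]; norm_num
        _ ≤ QQ s₀ := QQ_ge s₀
    exact_mod_cast e1
  have h5 : 1 / (QQ s₀ : ℝ) ≤ 1 / ((q : ℝ) * q') := by gcongr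
  have h6 : |(a : ℝ) / q - a' / q'| ≤ |θ - a / q| + |θ - a' / q'| := by
    have e : (a : ℝ) / q - a' / q' = (θ - a' / q') - (θ - a / q) := by ring
    rw [e]
    refine (abs_sub _ _).trans ?_
    linarith
  have h7 : 1 / (8 * (QQ s₀ : ℝ)) = 1 / (QQ s₀ : ℝ) / 8 := by field_simp
  have h8 : 0 < 1 / (QQ s₀ : ℝ) := by positivity
  rw [h7] at h ⊢
  linarith

theorem clog_le {s₀ q : ℕ} (h : q ≤ 2 ^ s₀) : Nat.clog 2 q ≤ s₀ := Nat.clog_le_of_le_pow h

/-- **Comparison of the multipliers.** -/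
theorem cmp (p : ℕ → ℕ) (s₀ : ℕ) : ∃ C : ℝ, 0 ≤ C ∧ ∀ (X : ℕ) (θ : ℝ), 2 * QQ s₀ ≤ X →
    ‖bm p X s₀ θ - ∑ s ∈ range (s₀ + 1), gam p s (rI s) θ * DK (X / QQ s) (QQ s * θ)‖ ≤
      C / √X := by
  classical
  set Q := QQ s₀ with hQdef
  have hQ : (0 : ℝ) < Q := by exact_mod_cast QQ_pos s₀
  have hQ1 : (1 : ℝ) ≤ Q := by exact_mod_cast QQ_pos s₀
  refine ⟨12 * Q + (4 ^ s₀ + (s₀ + 1) * 2) * (8 * Q), by positivity, fun X θ hX => ?_⟩
  have hX0 : 0 < X := lt_of_lt_of_le (by have := QQ_pos s₀; omega) hX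
  have hX' : (0 : ℝ) < X := by exact_mod_cast hX0
  have hX1 : (1 : ℝ) ≤ X := by exact_mod_cast hX0
  set R := √(X : ℝ) with hR
  have hR0 : 0 < R := Real.sqrt_pos.2 hX'
  have hRR : R * R = X := Real.mul_self_sqrt hX'.le
  have hR1 : 1 ≤ R := by rw [hR]; exact Real.one_le_sqrt.2 hX1
  have hRX : R ≤ X := by rw [← hRR]; nlinarith
  set δ : ℝ := 1 / (8 * Q) with hδ
  have hδ0 : 0 < δ := by positivity
  have hXs : ∀ s ≤ s₀, 2 * QQ s ≤ X := fun s hs =>
    (Nat.mul_le_mul_left 2 (QQ_mono hs)).trans hX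
  have hδr : ∀ s ≤ s₀, δ ≤ rI s := by
    intro s hs
    unfold rI
    rw [hδ]
    have h1 : (QQ s : ℝ) ≤ Q := by exact_mod_cast QQ_mono hs
    have h2 : (0 : ℝ) < QQ s := by exact_mod_cast QQ_pos s
    have h3 : 4 * (QQ s : ℝ) ≤ 8 * Q := by linarith
    gcongr
  have hsmall : 1 / (X * δ) ≤ 8 * Q / R := by
    rw [hδ]
    have e : 1 / ((X : ℝ) * (1 / (8 * Q))) = 8 * Q / X := by field_simp
    rw [e]
    gcongr
  have hsmall2 : 2 / (X * δ) ≤ 2 * (8 * Q / R) := by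
    have e : 2 / (X * δ) = 2 * (1 / (X * δ)) := by ring
    rw [e]
    linarith
  -- the far terms
  have hB : ∀ x ∈ F0 s₀, (∀ n : ℤ, δ ≤ |θ - ((x.2 : ℤ) + n * x.1 : ℤ) / (x.1 : ℝ)|) →
      ‖GS p x.1 x.2 * DK X (θ - (x.2 : ℝ) / x.1)‖ ≤ 8 * Q / R := by
    intro x hx hfar
    rw [norm_mul]
    have h1 := DK_far hX0 (θ - (x.2 : ℝ) / x.1) δ hδ0 fun n => by
      have h2 := hfar n
      have hx0 : (x.1 : ℝ) ≠ 0 := by
        have := (mem_F0.1 hx).1
        have : x.1 ≠ 0 := by omega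
        exact_mod_cast this
      have e : θ - (x.2 : ℝ) / x.1 - n = θ - ((x.2 : ℤ) + n * x.1 : ℤ) / (x.1 : ℝ) := by
        push_cast
        field_simp
        ring
      rw [e]
      exact h2
    have h2 := GS_norm_le (p := p) x.1 x.2
    calc _ ≤ 1 * (1 / (X * δ)) := by gcongr
      _ ≤ 8 * Q / R := by rw [one_mul]; exact hsmall
  have hcop : ∀ x ∈ F0 s₀, ∀ n : ℤ, IsCoprime ((x.2 : ℤ) + n * x.1) (x.1 : ℤ) := by
    intro x hx n
    have h1 : IsCoprime (x.2 : ℤ) (x.1 : ℤ) := Nat.isCoprime_iff_coprime.2 (mem_F0.1 hx).2.2.2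
    exact h1.add_mul_right_left n
  by_cases hcase : ∃ s₁ ≤ s₀, ∃ (a : ℤ) (q : ℕ), Fr s₁ δ θ a q
  · obtain ⟨s₁, hs₁, a, q, hF⟩ := hcase
    have hq1 : 1 ≤ q := hF.1
    have hqs : q ≤ 2 ^ s₀ := hF.le.trans (Nat.pow_le_pow_right (by norm_num) hs₁)
    have hqz : (0 : ℤ) < q := by exact_mod_cast hq1
    -- the residue
    set a₀ : ℕ := (a % q).toNat with ha₀
    have ha₀' : (a₀ : ℤ) = a % q := Int.toNat_of_nonneg (Int.emod_nonneg _ hqz.ne')
    have ha₀q : a₀ < q := by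
      have := Int.emod_lt_of_pos a hqz
      rw [← ha₀'] at this
      exact_mod_cast this
    have haq : a = a₀ + (a / q) * q := by
      rw [ha₀']
      have := Int.emod_add_mul_ediv a q
      linarith [mul_comm (q : ℤ) (a / q)]
    have hcop0 : IsCoprime (a₀ : ℤ) (q : ℤ) := by
      have h1 : IsCoprime ((a₀ : ℤ) + (a / q) * q) (q : ℤ) := haq ▸ hF.2.2.1
      exact (IsCoprime.add_mul_right_left_iff).1 h1
    have hmem : (q, a₀) ∈ F0 s₀ := mem_F0.2 ⟨hq1, hqs, ha₀q,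
      Nat.isCoprime_iff_coprime.1 hcop0⟩
    have hmem1 : s₁ ∈ range (s₀ + 1) := mem_range.2 (by omega)
    set β := θ - a / q with hβ
    have hβδ : |β| ≤ δ := hF.2.2.2
    have hFI : Fr s₁ (rI s₁) θ a q := hF.mono (hδr s₁ hs₁)
    -- special terms
    have hsp1 : GS p q a₀ * DK X (θ - (a₀ : ℝ) / q) = GS p q a * DK X β := by
      have h1 : GS p q a = GS p q a₀ := by
        conv_lhs => rw [haq]
        exact GS_add hq1 _ _
      have hq0 : (q : ℝ) ≠ 0 := by exact_mod_cast (show q ≠ 0 by omega)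
      have h2 : θ - (a₀ : ℝ) / q = β + ((a / q : ℤ) : ℝ) := by
        have h3 : (a : ℝ) = a₀ + ((a / q : ℤ) : ℝ) * q := by exact_mod_cast haq
        rw [hβ, h3]
        field_simp
        ring
      rw [h1, h2, DK_add_int]
    have hsp2 : gam p s₁ (rI s₁) θ * DK (X / QQ s₁) (QQ s₁ * θ) =
        GS p q a * DK (X / QQ s₁) (QQ s₁ * β) := by
      rw [gam_eq hFI (rI_le s₁), DK_int _ _ q hq1 (dvd_QQ hq1 hF.le) a θ]
    have hmain : ‖GS p q a * DK X β - GS p q a * DK (X / QQ s₁) (QQ s₁ * β)‖ ≤ 12 * Q / R := by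
      have hG := GS_norm_le (p := p) q a
      have hQ1' : (QQ s₁ : ℝ) ≤ Q := by exact_mod_cast QQ_mono hs₁
      rcases le_total |β| (1 / R) with h1 | h1
      · rw [← mul_sub, norm_mul]
        have h2 := DK_cmp (QQ_pos s₁) (X := X) (by have := hXs s₁ hs₁; omega) β
        have hpi := Real.pi_le_four
        have hQ0 : (0 : ℝ) ≤ QQ s₁ := Nat.cast_nonneg _
        calc _ ≤ 1 * (2 * Real.pi * (QQ s₁ * |β|) + 2 * (QQ s₁ / X)) := by gcongr
          _ ≤ 1 * (2 * 4 * (Q * (1 / R)) + 2 * (Q / R)) := by gcongr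
          _ = 10 * Q / R := by ring
          _ ≤ 12 * Q / R := by gcongr; norm_num
      · have hβ0 : β ≠ 0 := by
          rintro h0
          rw [h0, abs_zero] at h1
          have : 0 < 1 / R := by positivity
          linarith
        have hβh : |β| ≤ 1 / 2 := by
          refine hβδ.trans ?_
          rw [hδ, div_le_div_iff₀ (by positivity) (by norm_num)]
          linarith
        have hXβ : R ≤ X * |β| := by
          calc R = X * (1 / R) := by rw [← hRR]; field_simp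
            _ ≤ X * |β| := by gcongr
        have h2 := DK_far' hX0 hβ0 hβh
        have h3 : 1 / (X * |β|) ≤ 1 / R := by gcongr
        have h4 := far_term (p := p) (hXs s₁ hs₁) (δ := 1 / R) (θ := θ) (by positivity)
          (fun a' q' hF' => by
            obtain ⟨e1, e2⟩ := hF'.unique' hFI (rI_le s₁)
            rw [e1, e2]
            exact h1)
        rw [hsp2] at h4
        have h5 : 2 / (X * (1 / R)) = 2 / R := by
          rw [← hRR]
          field_simp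
        rw [h5] at h4
        refine (norm_sub_le _ _).trans ?_
        rw [norm_mul]
        calc ‖GS p q a‖ * ‖DK X β‖ + ‖GS p q a * DK (X / QQ s₁) (QQ s₁ * β)‖ ≤
            1 * (1 / R) + 2 / R := by
              refine add_le_add ?_ h4
              have := h2.trans h3
              gcongr
          _ = 3 * 1 / R := by ring
          _ ≤ 12 * Q / R := by gcongr; norm_num
    rw [bm, ← add_sum_erase _ _ hmem, ← add_sum_erase (range (s₀ + 1)) _ hmem1]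
    simp only
    rw [show ((a₀ : ℕ) : ℤ) = (a₀ : ℤ) from rfl, hsp1, hsp2]
    have h1 : ‖∑ x ∈ (F0 s₀).erase (q, a₀), GS p x.1 x.2 * DK X (θ - (x.2 : ℝ) / x.1)‖ ≤
        ((4 ^ s₀ : ℕ) : ℝ) * (8 * Q / R) := by
      refine sum_small _ _ (4 ^ s₀) ((card_erase_le).trans (card_F0 s₀)) (by positivity)
        fun x hx => ?_
      have hx' := mem_of_mem_erase hx
      have hx2 := mem_F0.1 hx'
      refine hB x hx' fun n => ?_
      refine gap hq1 hx2.1 hqs hx2.2.1 (fun he => ?_) hβδ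
      obtain ⟨e1, e2⟩ := frac_eq hq1 hx2.1 hF.2.2.1 (hcop x hx' n) he
      apply ne_of_mem_erase hx
      have e3 : (x.2 : ℤ) = a₀ := by
        rw [ha₀', e1, e2, Int.add_mul_emod_self_right]
        exact (Int.emod_eq_of_lt (by positivity) (by exact_mod_cast hx2.2.2.1)).symm
      have e4 : x.2 = a₀ := by exact_mod_cast e3
      rw [e2, ← e4]
    have h2 : ‖∑ s ∈ (range (s₀ + 1)).erase s₁,
        gam p s (rI s) θ * DK (X / QQ s) (QQ s * θ)‖ ≤ ((s₀ + 1 : ℕ) : ℝ) * (2 * (8 * Q / R)) := by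
      refine sum_small _ _ (s₀ + 1) ((card_erase_le).trans (by rw [card_range])) (by positivity)
        fun s hs => ?_
      have hs' := mem_range.1 (mem_of_mem_erase hs)
      refine (far_term (hXs s (by omega)) hδ0 fun a' q' hF' => ?_).trans hsmall2
      have hq's : q' ≤ 2 ^ s₀ := hF'.le.trans (Nat.pow_le_pow_right (by norm_num) (by omega))
      refine gap hq1 hF'.1 hqs hq's (fun he => ?_) hβδ
      obtain ⟨e1, e2⟩ := frac_eq hq1 hF'.1 hF.2.2.1 hF'.2.2.1 he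
      apply ne_of_mem_erase hs
      rw [← hF'.2.1, ← hF.2.1, e2]
    set S1 := ∑ x ∈ (F0 s₀).erase (q, a₀), GS p x.1 x.2 * DK X (θ - (x.2 : ℝ) / x.1) with hS1
    set S2 := ∑ s ∈ (range (s₀ + 1)).erase s₁,
      gam p s (rI s) θ * DK (X / QQ s) (QQ s * θ) with hS2
    have e3 : GS p q a * DK X β + S1 - (GS p q a * DK (X / QQ s₁) (QQ s₁ * β) + S2) =
        (GS p q a * DK X β - GS p q a * DK (X / QQ s₁) (QQ s₁ * β)) + S1 - S2 := by ring
    rw [e3]
    refine (norm_sub_le _ _).trans ?_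
    have h3 := norm_add_le (GS p q a * DK X β - GS p q a * DK (X / QQ s₁) (QQ s₁ * β)) S1
    have e4 : (12 * Q + (4 ^ s₀ + (s₀ + 1) * 2) * (8 * Q)) / R =
        12 * Q / R + ((4 ^ s₀ : ℕ) : ℝ) * (8 * Q / R) +
        ((s₀ + 1 : ℕ) : ℝ) * (2 * (8 * Q / R)) := by
      push_cast
      ring
    rw [e4]
    linarith
  · push Not at hcase
    have h1 : ‖bm p X s₀ θ‖ ≤ ((4 ^ s₀ : ℕ) : ℝ) * (8 * Q / R) := by
      refine sum_small _ _ (4 ^ s₀) (card_F0 s₀) (by positivity) fun x hx => ?_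
      have hx2 := mem_F0.1 hx
      refine hB x hx fun n => ?_
      by_contra hcon
      exact hcase (Nat.clog 2 x.1) (clog_le hx2.2.1) _ x.1
        ⟨hx2.1, rfl, hcop x hx n, (not_le.1 hcon).le⟩
    have h2 : ‖∑ s ∈ range (s₀ + 1),
        gam p s (rI s) θ * DK (X / QQ s) (QQ s * θ)‖ ≤ ((s₀ + 1 : ℕ) : ℝ) * (2 * (8 * Q / R)) := by
      refine sum_small _ _ (s₀ + 1) (by rw [card_range]) (by positivity) fun s hs => ?_
      have hs' := mem_range.1 hs
      refine (far_term (hXs s (by omega)) hδ0 fun a' q' hF' => ?_).trans hsmall2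
      by_contra hcon
      exact hcase s (by omega) a' q' ⟨hF'.1, hF'.2.1, hF'.2.2.1, (not_le.1 hcon).le⟩
    refine (norm_sub_le _ _).trans ?_
    have e4 : (12 * Q + (4 ^ s₀ + (s₀ + 1) * 2) * (8 * Q)) / R =
        12 * Q / R + ((4 ^ s₀ : ℕ) : ℝ) * (8 * Q / R) +
        ((s₀ + 1 : ℕ) : ℝ) * (2 * (8 * Q / R)) := by
      push_cast
      ring
    rw [e4]
    have : 0 ≤ 12 * (Q : ℝ) / R := by positivity
    linarith

end Pool.Agent.Zk89.BT
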