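import Pool.Agent.Zk89.BT.Tr
import Pool.Agent.Zk89.QM.Clos

/-!
# Almost everywhere convergence along lacunary lengths
-/

set_option autoImplicit false
set_option linter.unusedSectionVars false

open Finset Filter Topology MeasureTheory
open scoped ENNReal

noncomputable section

namespace Pool.Agent.Zk89.BT

open Pool.Agent.Helper602.MK (ee)
open Pool.Agent.Helper602.MK.N_J5b (ee_add ee_zero norm_ee ee_add_int)

/-- averages against a periodic sequence -/
theorem per_conv {q : ℕ} (hq : 1 ≤ q) {e c : ℕ → ℂ} (he : ∀ n, ‖e n‖ ≤ 1)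
    (hper : ∀ n, e (n + q) = e n) {C : ℝ} (hc : ∀ n, ‖c n‖ ≤ C)
    (h : ∀ r < q, ∃ l, Tendsto (fun L : ℕ => (L : ℂ)⁻¹ * ∑ k ∈ range L, c (k * q + r)) atTop
      (𝓝 l)) :
    ∃ l, Tendsto (fun X : ℕ => (X : ℂ)⁻¹ * ∑ y ∈ range X, e y * c y) atTop (𝓝 l) := by
  have hq0 : (q : ℂ) ≠ 0 := by exact_mod_cast (show q ≠ 0 by omega)
  have hC0 : 0 ≤ C := (norm_nonneg _).trans (hc 0)
  choose! l hl using h
  refine ⟨∑ r ∈ range q, e r * ((q : ℂ)⁻¹ * l r), ?_⟩
  have hdiv : Tendsto (fun X : ℕ => X / q) atTop atTop :=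
    Nat.tendsto_div_const_atTop (by omega)
  have hper' : ∀ k r, e (k * q + r) = e r := by
    intro k r
    induction k with
    | zero => simp
    | succ k ih => rw [show (k + 1) * q + r = (k * q + r) + q by ring, hper, ih]
  -- the ratio
  have hratio : Tendsto (fun X : ℕ => ((X / q : ℕ) : ℂ) * (X : ℂ)⁻¹) atTop (𝓝 ((q : ℂ)⁻¹)) := by
    have h1 : Tendsto (fun X : ℕ => ((X % q : ℕ) : ℂ) * (X : ℂ)⁻¹) atTop (𝓝 0) := by
      rw [tendsto_zero_iff_norm_tendsto_zero]
      refine squeeze_zero (fun X => norm_nonneg _) (fun X => ?_)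
        (tendsto_const_div_atTop_nhds_zero_nat (q : ℝ))
      rw [norm_mul, norm_inv, Complex.norm_natCast, Complex.norm_natCast, ← div_eq_mul_inv]
      have : ((X % q : ℕ) : ℝ) ≤ q := by exact_mod_cast (Nat.mod_lt X hq).le
      gcongr
    have h2 : Tendsto (fun X : ℕ => (q : ℂ)⁻¹ * (1 - ((X % q : ℕ) : ℂ) * (X : ℂ)⁻¹)) atTop
        (𝓝 ((q : ℂ)⁻¹ * (1 - 0))) := (tendsto_const_nhds.sub h1).const_mul _
    rw [sub_zero, mul_one] at h2
    refine h2.congr' ?_
    filter_upwards [eventually_ge_atTop 1] with X hX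
    have hX0 : (X : ℂ) ≠ 0 := by exact_mod_cast (show X ≠ 0 by omega)
    have h3 : (X : ℂ) = ((X / q : ℕ) : ℂ) * q + ((X % q : ℕ) : ℂ) := by
      have := Nat.div_add_mod X q
      have h4 : ((q * (X / q) + X % q : ℕ) : ℂ) = X := by rw [this]
      rw [← h4]
      push_cast
      ring
    have h4 : ((X / q : ℕ) : ℂ) = (q : ℂ)⁻¹ * (X - ((X % q : ℕ) : ℂ)) := by
      rw [eq_inv_mul_iff_mul_eq₀ hq0]
      linear_combination -h3
    rw [h4]
    field_simp
  have hmain : Tendsto (fun X : ℕ => ∑ r ∈ range q, e r * ((((X / q : ℕ) : ℂ) * (X : ℂ)⁻¹) *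
      (((X / q : ℕ) : ℂ)⁻¹ * ∑ k ∈ range (X / q), c (k * q + r)))) atTop
      (𝓝 (∑ r ∈ range q, e r * ((q : ℂ)⁻¹ * l r))) := by
    refine tendsto_finsetSum _ fun r hr => ?_
    exact (hratio.mul ((hl r (mem_range.1 hr)).comp hdiv)).const_mul _
  have hrest : Tendsto (fun X : ℕ => (X : ℂ)⁻¹ * ∑ j ∈ range (X % q),
      e ((X / q) * q + j) * c ((X / q) * q + j)) atTop (𝓝 0) := by
    rw [tendsto_zero_iff_norm_tendsto_zero]
    refine squeeze_zero (fun X => norm_nonneg _) (fun X => ?_)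
      (tendsto_const_div_atTop_nhds_zero_nat (q * C : ℝ))
    rw [norm_mul, norm_inv, Complex.norm_natCast, div_eq_inv_mul]
    refine mul_le_mul_of_nonneg_left ?_ (by positivity)
    have h1 : ∀ j ∈ range (X % q), ‖e ((X / q) * q + j) * c ((X / q) * q + j)‖ ≤ C := by
      intro j _
      rw [norm_mul]
      calc _ ≤ 1 * C := mul_le_mul (he _) (hc _) (norm_nonneg _) zero_le_one
        _ = C := one_mul _
    refine (norm_sum_le _ _).trans ((sum_le_sum h1).trans ?_)
    rw [sum_const, card_range, nsmul_eq_mul]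
    have : ((X % q : ℕ) : ℝ) ≤ q := by exact_mod_cast (Nat.mod_lt X hq).le
    gcongr
  have htot := hmain.add hrest
  rw [add_zero] at htot
  refine htot.congr' ?_
  filter_upwards [eventually_ge_atTop q] with X hX
  have hX0 : (X : ℂ) ≠ 0 := by exact_mod_cast (show X ≠ 0 by omega)
  have hL0 : ((X / q : ℕ) : ℂ) ≠ 0 := by
    have : 0 < X / q := Nat.div_pos hX hq
    exact_mod_cast this.ne'
  have h1 : ∑ y ∈ range X, e y * c y = ∑ k ∈ range (X / q), ∑ r ∈ range q,
      e (k * q + r) * c (k * q + r) + ∑ j ∈ range (X % q),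
      e ((X / q) * q + j) * c ((X / q) * q + j) := by
    have h2 : (X / q) * q + X % q = X := by rw [mul_comm]; exact Nat.div_add_mod X q
    conv_lhs => rw [← h2]
    rw [sum_range_add, sum_blocks (X / q) q (fun y => e y * c y)]
  rw [h1, mul_add]
  congr 1
  rw [sum_comm, mul_sum]
  refine sum_congr rfl fun r _ => ?_
  simp only [hper']
  rw [← mul_sum]
  field_simp

variable {X : Type*} [MeasurableSpace X] {μ : Measure X} [IsProbabilityMeasure μ]

/-- rotation averages -/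
theorem rot_conv {T : X → X} (hT : MeasurePreserving T μ μ) {H : X → ℝ} (hH : Measurable H)
    (hb : ∀ x, |H x| ≤ 1) {q : ℕ} (hq : 1 ≤ q) (a : ℕ) :
    ∀ᵐ x ∂μ, ∃ l : ℂ, Tendsto (fun X : ℕ => (X : ℂ)⁻¹ * ∑ y ∈ range X,
      ee (-(y * ((a : ℝ) / q))) * ((H (T^[y] x) : ℝ) : ℂ)) atTop (𝓝 l) := by
  have h1 : ∀ᵐ x ∂μ, ∀ r : ℕ, ∃ l : ℝ, Tendsto (fun L : ℕ => (L : ℝ)⁻¹ *
      ∑ k ∈ range L, H (T^[r] ((T^[q])^[k] x))) atTop (𝓝 l) := by
    rw [ae_all_iff]
    intro r
    have h2 := Pool.Agent.H165R3.BPE.birkhoff (hT.iterate q) (fun x => H (T^[r] x))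
      (hH.comp (hT.iterate r).measurable) 1 (fun x => hb _)
    filter_upwards [h2] with x hx
    exact ⟨_, hx⟩
  filter_upwards [h1] with x hx
  refine per_conv hq (e := fun y => ee (-(y * ((a : ℝ) / q))))
    (c := fun y => ((H (T^[y] x) : ℝ) : ℂ)) (C := 1) (fun n => (norm_ee _).le) (fun n => ?_)
    (fun n => ?_) (fun r _ => ?_)
  · have hq0 : (q : ℝ) ≠ 0 := by exact_mod_cast (show q ≠ 0 by omega)
    have e1 : -(((n + q : ℕ) : ℝ) * ((a : ℝ) / q)) = -(n * ((a : ℝ) / q)) + ((-a : ℤ) : ℝ) := by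
      push_cast
      field_simp
      ring
    rw [e1, ee_add_int]
  · rw [Complex.norm_real, Real.norm_eq_abs]
    exact hb _
  · obtain ⟨l, hl⟩ := hx r
    refine ⟨(l : ℂ), ?_⟩
    have h3 := (Complex.continuous_ofReal.tendsto l).comp hl
    refine h3.congr fun L => ?_
    simp only [Function.comp_apply]
    push_cast
    congr 1
    refine sum_congr rfl fun k _ => ?_
    rw [← Function.iterate_mul, ← Function.iterate_add_apply, mul_comm q k, add_comm r]

variable {p : ℕ → ℕ} {d A : ℕ} {N : ℕ → ℕ} {lam : ℝ}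

theorem Lc.tendsto (hN : Lc N lam) : Tendsto N atTop atTop := by
  refine tendsto_natCast_atTop_iff (R := ℝ).1 ?_
  refine tendsto_atTop_mono (f := fun t : ℕ => lam ^ t / 2) (fun t => ?_) ?_
  · have := hN.ge t
    linarith
  · exact (tendsto_pow_atTop_atTop_of_one_lt hN.one_lt).atTop_div_const (by norm_num)

theorem PS.tendsto (h : PS p d A) : Tendsto p atTop atTop := h.strictMono.tendsto_atTop

/-- **Convergence along a lacunary sequence of lengths.** -/
theorem conv_lac (h : PS p d A) (hN : Lc N lam) {T : X → X} (hT : MeasurePreserving T μ μ)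
    {H : X → ℝ} (hH : Measurable H) (hb : ∀ x, |H x| ≤ 1) :
    ∀ᵐ x ∂μ, ∃ l, Tendsto (fun t => AA p (N t) (fun j => ((H (T^[j] x) : ℝ) : ℂ))) atTop
      (𝓝 l) := by
  set f : X → ℂ := fun x => ((H x : ℝ) : ℂ) with hf
  have hfm : Measurable f := Complex.measurable_ofReal.comp hH
  have hfb : ∀ x, ‖f x‖ ≤ 1 := fun x => by
    rw [hf]
    simp only [Complex.norm_real, Real.norm_eq_abs]
    exact hb x
  choose s₀ t₀ hmain using fun i : ℕ => main_ineq h hN (ε := (1 / 2 : ℝ) ^ i) (by positivity)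
  choose g hgm hg hgi using fun i : ℕ => trans_all (μ := μ) h hN (ε := (1 / 2 : ℝ) ^ i)
    (by positivity) (hmain i) hT hfm hfb
  -- the majorants tend to zero
  have h1 : ∑' i, ∫⁻ x, g i x ∂μ ≠ ⊤ := by
    refine ne_top_of_le_ne_top ?_ (ENNReal.tsum_le_tsum hgi)
    have hs : Summable fun i : ℕ => 2 * ((1 / 2 : ℝ) ^ i) ^ 2 := by
      have : Summable fun i : ℕ => 2 * (1 / 4 : ℝ) ^ i :=
        (summable_geometric_of_lt_one (by norm_num) (by norm_num)).mul_left 2
      refine this.congr fun i => ?_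
      rw [← pow_mul, mul_comm i 2, pow_mul]
      norm_num
    exact hs.tsum_ofReal_ne_top
  rw [← lintegral_tsum fun i => (hgm i).aemeasurable] at h1
  have h2 := ae_lt_top' (AEMeasurable.tsum fun i => (hgm i).aemeasurable) h1
  -- the modulated averages converge
  have h3 : ∀ᵐ x ∂μ, ∀ y : ℕ × ℕ, 1 ≤ y.1 → ∃ l : ℂ, Tendsto (fun X : ℕ => (X : ℂ)⁻¹ *
      ∑ z ∈ range X, ee (-(z * ((y.2 : ℝ) / y.1))) * ((H (T^[z] x) : ℝ) : ℂ)) atTop (𝓝 l) := by
    rw [ae_all_iff]
    intro y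
    by_cases hy : 1 ≤ y.1
    · filter_upwards [rot_conv hT hH hb hy y.2] with x hx _
      exact hx
    · exact Eventually.of_forall fun x h => absurd h hy
  filter_upwards [h2, h3] with x hx1 hx2
  have hX : Tendsto (fun t => p (N t)) atTop atTop := h.tendsto.comp hN.tendsto
  have hBconv : ∀ i, ∃ l : ℂ, Tendsto (fun t => BB p (p (N t)) (s₀ i)
      (fun j => f (T^[j] x))) atTop (𝓝 l) := by
    intro i
    choose! l hl using hx2
    refine ⟨∑ y ∈ F0 (s₀ i), GS p y.1 y.2 * l y, ?_⟩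
    unfold BB
    refine tendsto_finsetSum _ fun y hy => ?_
    exact ((hl y (mem_F0.1 hy).1).comp hX).const_mul _
  choose L hL using hBconv
  have hg0 : Tendsto (fun i => g i x) atTop (𝓝 0) := by
    have h4 := ENNReal.tendsto_cofinite_zero_of_tsum_ne_top hx1.ne
    rwa [Nat.cofinite_eq_atTop] at h4
  have hgfin : ∀ i, g i x ≠ ⊤ := fun i => ne_top_of_le_ne_top hx1.ne (ENNReal.le_tsum i)
  have hb0 : Tendsto (fun i => √(g i x).toReal) atTop (𝓝 0) := by
    have h4 : Tendsto (fun i => (g i x).toReal) atTop (𝓝 0) := by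
      rw [← ENNReal.toReal_zero]
      exact (ENNReal.tendsto_toReal ENNReal.zero_ne_top).comp hg0
    have h5 := (Real.continuous_sqrt.tendsto 0).comp h4
    rwa [Real.sqrt_zero] at h5
  obtain ⟨l, hl, -⟩ := Pool.Agent.Zk89.QM.lim_closeF (𝓕 := atTop)
    (fun t => AA p (N t) (fun j => f (T^[j] x)))
    (fun i t => BB p (p (N t)) (s₀ i) (fun j => f (T^[j] x))) L
    (fun i _ => √(g i x).toReal) (fun i => √(g i x).toReal) hL (fun i => by
      filter_upwards [eventually_ge_atTop (t₀ i)] with t ht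
      have h4 := hg i x t ht
      refine Real.le_sqrt_of_sq_le ?_
      have h5 : ‖DD p N (s₀ i) T f t x‖ ^ 2 = (‖DD p N (s₀ i) T f t x‖ₑ ^ 2).toReal := by
        rw [ENNReal.toReal_pow, toReal_enorm]
      show ‖DD p N (s₀ i) T f t x‖ ^ 2 ≤ _
      rw [h5]
      exact ENNReal.toReal_mono (hgfin i) h4) (fun i => tendsto_const_nhds) hb0
  exact ⟨l, hl⟩

end Pool.Agent.Zk89.BT
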