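import Pool.Agent.Zk89.BT.Conv

/-!
# From weighted averages along lacunary lengths to ordinary averages
-/

set_option autoImplicit false
set_option linter.unusedSectionVars false

open Finset Filter Topology MeasureTheory
open scoped ENNReal

noncomputable section

namespace Pool.Agent.Zk89.BT

variable {p : ℕ → ℕ} {d A : ℕ}

/-- comparison of two weighted averages -/
theorem AA_sub (h : PS p d A) {c : ℕ → ℂ} (hc : ∀ n, ‖c n‖ ≤ 1) {K N : ℕ} (hK : 1 ≤ K)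
    (hKN : K ≤ N) : ‖AA p N c - AA p K c‖ ≤ 2 * ((p N - p K : ℝ) / p N) := by
  have hpK : (0 : ℝ) < p K := by exact_mod_cast h.pos hK
  have hpN : (0 : ℝ) < p N := by exact_mod_cast h.pos (hK.trans hKN)
  have hpKc : (p K : ℂ) ≠ 0 := by exact_mod_cast (h.pos hK).ne'
  have hpNc : (p N : ℂ) ≠ 0 := by exact_mod_cast (h.pos (hK.trans hKN)).ne'
  have hmono : (p K : ℝ) ≤ p N := by exact_mod_cast h.strictMono.monotone hKN
  set S := ∑ n ∈ range K, (wt p n : ℂ) * c (p n) with hS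
  have hSn : ‖S‖ ≤ p K := by
    refine (norm_sum_le _ _).trans ?_
    have h1 : ∀ n ∈ range K, ‖(wt p n : ℂ) * c (p n)‖ ≤ wt p n := by
      intro n _
      rw [norm_mul, Complex.norm_natCast]
      calc _ ≤ (wt p n : ℝ) * 1 := by
            have := hc (p n)
            gcongr
        _ = _ := mul_one _
    refine (sum_le_sum h1).trans (le_of_eq ?_)
    rw [← Nat.cast_sum, h.sum_wt]
  have hR : ‖∑ n ∈ Ico K N, (wt p n : ℂ) * c (p n)‖ ≤ p N - p K := by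
    refine (norm_sum_le _ _).trans ?_
    have h1 : ∀ n ∈ Ico K N, ‖(wt p n : ℂ) * c (p n)‖ ≤ wt p n := by
      intro n _
      rw [norm_mul, Complex.norm_natCast]
      calc _ ≤ (wt p n : ℝ) * 1 := by
            have := hc (p n)
            gcongr
        _ = _ := mul_one _
    refine (sum_le_sum h1).trans (le_of_eq ?_)
    have h2 := sum_range_add_sum_Ico (fun n => (wt p n : ℝ)) hKN
    rw [← Nat.cast_sum, ← Nat.cast_sum, ← Nat.cast_sum, h.sum_wt, h.sum_wt] at h2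
    rw [← Nat.cast_sum]
    linarith
  have e : AA p N c - AA p K c = ((p N : ℂ)⁻¹ - (p K : ℂ)⁻¹) * S +
      (p N : ℂ)⁻¹ * ∑ n ∈ Ico K N, (wt p n : ℂ) * c (p n) := by
    unfold AA
    rw [← sum_range_add_sum_Ico _ hKN, ← hS]
    ring
  rw [e]
  refine (norm_add_le _ _).trans ?_
  have h1 : ‖(p N : ℂ)⁻¹ - (p K : ℂ)⁻¹‖ = (p N - p K : ℝ) / (p N * p K) := by
    have e2 : (p N : ℂ)⁻¹ - (p K : ℂ)⁻¹ = -(((p N - p K : ℝ) / (p N * p K) : ℝ) : ℂ) := by
      push_cast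
      field_simp
      ring
    rw [e2, norm_neg, Complex.norm_real, Real.norm_eq_abs, abs_of_nonneg]
    have : (0 : ℝ) ≤ p N - p K := by linarith
    positivity
  rw [norm_mul, norm_mul, h1, norm_inv, Complex.norm_natCast]
  have h0 : (0 : ℝ) ≤ p N - p K := by linarith
  have h2 : (p N - p K : ℝ) / (p N * p K) * ‖S‖ ≤ (p N - p K : ℝ) / p N := by
    calc _ ≤ (p N - p K : ℝ) / (p N * p K) * p K := by gcongr
      _ = _ := by field_simp
  have h3 : (p N : ℝ)⁻¹ * ‖∑ n ∈ Ico K N, (wt p n : ℂ) * c (p n)‖ ≤ (p N - p K : ℝ) / p N := by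
    rw [div_eq_inv_mul]
    gcongr
  linarith

theorem ratio_bound (h : PS p d A) {K N : ℕ} (hK : 1 ≤ K) (hKN : K ≤ N) :
    (p N - p K : ℝ) / p N ≤ A ^ 2 * (1 - K / N) := by
  have hN1 : 1 ≤ N := hK.trans hKN
  have hpN : (0 : ℝ) < p N := by exact_mod_cast h.pos hN1
  have hN0 : (0 : ℝ) < N := by exact_mod_cast hN1
  have hA : (1 : ℝ) ≤ A := by exact_mod_cast h.A_pos
  have h1 : (p N : ℝ) - p K ≤ (N - K) * wt p (N - 1) := by
    have h2 := sum_range_add_sum_Ico (fun n => (wt p n : ℝ)) hKN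
    rw [← Nat.cast_sum, ← Nat.cast_sum, ← Nat.cast_sum, h.sum_wt, h.sum_wt] at h2
    have h3 : ∀ n ∈ Ico K N, wt p n ≤ wt p (N - 1) := by
      intro n hn
      have := (mem_Ico.1 hn).2
      exact h.mono (by omega)
    have h4 : ((∑ n ∈ Ico K N, wt p n : ℕ) : ℝ) ≤ (N - K) * wt p (N - 1) := by
      have h5 := sum_le_sum h3
      rw [sum_const, Nat.card_Ico, smul_eq_mul] at h5
      have h6 : ((∑ n ∈ Ico K N, wt p n : ℕ) : ℝ) ≤ ((N - K : ℕ) : ℝ) * wt p (N - 1) := by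
        exact_mod_cast h5
      rwa [Nat.cast_sub hKN] at h6
    linarith
  have hlow := h.low' N
  have hup := h.up' hN1
  have hNd : (N : ℝ) ^ d = N * (N : ℝ) ^ (d - 1) := by
    rw [← pow_succ', Nat.sub_add_cancel h.d_pos]
  have hKN' : (K : ℝ) ≤ N := by exact_mod_cast hKN
  have hNK : (0 : ℝ) ≤ N - K := by linarith
  rw [div_le_iff₀ hpN]
  have h2 : (A : ℝ) ^ 2 * (1 - K / N) * p N = (N - K) * (A * (A * p N) / N) := by
    field_simp
  rw [h2]
  refine h1.trans (mul_le_mul_of_nonneg_left ?_ hNK)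
  rw [le_div_iff₀ hN0]
  calc (wt p (N - 1) : ℝ) * N ≤ (A * (N : ℝ) ^ (d - 1)) * N := by gcongr
    _ = A * (N : ℝ) ^ d := by rw [hNd]; ring
    _ ≤ A * (A * p N) := by gcongr

/-- **All lengths.** -/
theorem conv_all_len (h : PS p d A) {c : ℕ → ℂ} (hc : ∀ n, ‖c n‖ ≤ 1)
    (hlac : ∀ i : ℕ, ∃ l, Tendsto (fun t : ℕ => AA p ⌊(1 + 1 / ((i : ℝ) + 1)) ^ t⌋₊ c) atTop
      (𝓝 l)) : ∃ l, Tendsto (fun N => AA p N c) atTop (𝓝 l) := by
  choose L hL using hlac
  set lam : ℕ → ℝ := fun i => 1 + 1 / ((i : ℝ) + 1) with hlam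
  have hlam1 : ∀ i, 1 < lam i := by
    intro i
    rw [hlam]
    have : (0 : ℝ) < 1 / ((i : ℝ) + 1) := by positivity
    linarith
  -- the index
  let τ : ℕ → ℕ → ℕ := fun i N => ⌊Real.logb (lam i) N⌋₊
  have hτ1 : ∀ i N, 1 ≤ N → lam i ^ (τ i N) ≤ (N : ℝ) ∧ (N : ℝ) < lam i ^ (τ i N + 1) := by
    intro i N hN
    have hN0 : (0 : ℝ) < N := by exact_mod_cast hN
    have hN1 : (1 : ℝ) ≤ N := by exact_mod_cast hN
    have h0 : 0 ≤ Real.logb (lam i) N := Real.logb_nonneg (hlam1 i) hN1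
    have h1 := Nat.floor_le h0
    have h2 := Nat.lt_floor_add_one (Real.logb (lam i) N)
    have hl0 : 0 < lam i := by linarith [hlam1 i]
    constructor
    · rw [← Real.rpow_natCast]
      exact (Real.le_logb_iff_rpow_le (hlam1 i) hN0).1 h1
    · rw [← Real.rpow_natCast]
      refine (Real.logb_lt_iff_lt_rpow (hlam1 i) hN0).1 ?_
      push_cast
      exact h2
  have hτ2 : ∀ i, Tendsto (τ i) atTop atTop := by
    intro i
    exact tendsto_nat_floor_atTop.comp ((Real.tendsto_logb_atTop (hlam1 i)).comp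
      tendsto_natCast_atTop_atTop)
  have hb0 : Tendsto (fun i : ℕ => 4 * (A : ℝ) ^ 2 * (1 / ((i : ℝ) + 1))) atTop (𝓝 0) := by
    have := tendsto_one_div_add_atTop_nhds_zero_nat (𝕜 := ℝ)
    simpa using this.const_mul (4 * (A : ℝ) ^ 2)
  obtain ⟨l, hl, -⟩ := Pool.Agent.Zk89.QM.lim_closeF (𝓕 := atTop) (fun N => AA p N c)
    (fun i N => AA p ⌊(lam i) ^ (τ i N)⌋₊ c) L
    (fun i _ => 4 * (A : ℝ) ^ 2 * (1 / ((i : ℝ) + 1)))
    (fun i => 4 * (A : ℝ) ^ 2 * (1 / ((i : ℝ) + 1)))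
    (fun i => (hL i).comp (hτ2 i)) (fun i => by
      have hl0 : 0 < lam i := by linarith [hlam1 i]
      have h1 : Tendsto (fun N => lam i ^ (τ i N + 1)) atTop atTop :=
        (tendsto_pow_atTop_atTop_of_one_lt (hlam1 i)).comp
          ((tendsto_add_atTop_nat 1).comp (hτ2 i))
      filter_upwards [eventually_ge_atTop 1, h1.eventually_ge_atTop ((i : ℝ) + 1)] with N hN hN2
      obtain ⟨h2, h3⟩ := hτ1 i N hN
      set K := ⌊lam i ^ (τ i N)⌋₊ with hK
      have hp1 : 1 ≤ lam i ^ (τ i N) := one_le_pow₀ (hlam1 i).le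
      have hK1 : 1 ≤ K := Nat.le_floor (by simpa using hp1)
      have hKN : K ≤ N := by
        have h4 : (K : ℝ) ≤ N := (Nat.floor_le (by linarith)).trans h2
        exact_mod_cast h4
      have h5 := AA_sub h hc hK1 hKN
      have h6 := ratio_bound h hK1 hKN
      have hN0 : (0 : ℝ) < N := by exact_mod_cast hN
      have h7 : (1 : ℝ) - K / N ≤ 2 * (1 / ((i : ℝ) + 1)) := by
        have h8 : lam i ^ (τ i N) - 1 ≤ K := by
          have := Nat.lt_floor_add_one (lam i ^ (τ i N))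
          linarith
        have hi0 : (0 : ℝ) < (i : ℝ) + 1 := by positivity
        -- `K / N ≥ (lam^τ - 1) / lam^(τ+1)`
        have h9 : (lam i ^ (τ i N) - 1) / lam i ^ (τ i N + 1) ≤ K / N := by
          rw [div_le_div_iff₀ (by positivity) hN0]
          calc (lam i ^ (τ i N) - 1) * N ≤ (lam i ^ (τ i N) - 1) * lam i ^ (τ i N + 1) := by
                have : 0 ≤ lam i ^ (τ i N) - 1 := by linarith
                gcongr
            _ ≤ K * lam i ^ (τ i N + 1) := by gcongr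
        have h10 : (lam i ^ (τ i N) - 1) / lam i ^ (τ i N + 1) =
            1 / lam i - 1 / lam i ^ (τ i N + 1) := by
          rw [pow_succ]
          field_simp
        have h11 : 1 / lam i ^ (τ i N + 1) ≤ 1 / ((i : ℝ) + 1) := by gcongr
        have h12 : 1 - 1 / lam i ≤ 1 / ((i : ℝ) + 1) := by
          have h13 : 1 - 1 / lam i = (lam i - 1) / lam i := by field_simp
          rw [h13]
          have h14 : lam i - 1 = 1 / ((i : ℝ) + 1) := by rw [hlam]; ring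
          rw [h14]
          exact div_le_self (by positivity) (hlam1 i).le
        rw [h10] at h9
        linarith
      calc ‖AA p N c - AA p K c‖ ≤ 2 * ((p N - p K : ℝ) / p N) := h5
        _ ≤ 2 * ((A : ℝ) ^ 2 * (2 * (1 / ((i : ℝ) + 1)))) := by
          have : (A : ℝ) ^ 2 * (1 - K / N) ≤ A ^ 2 * (2 * (1 / ((i : ℝ) + 1))) := by gcongr
          linarith
        _ = _ := by ring) (fun i => tendsto_const_nhds) hb0
  exact ⟨l, hl⟩

/-- **Ordinary averages.** -/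
theorem unweight (h : PS p d A) {c : ℕ → ℂ} {l : ℂ}
    (hW : Tendsto (fun N => AA p N c) atTop (𝓝 l)) :
    Tendsto (fun N : ℕ => (N : ℂ)⁻¹ * ∑ n ∈ range N, c (p n)) atTop (𝓝 l) := by
  have hw0 : ∀ n, (0 : ℝ) < wt p n := fun n => by exact_mod_cast h.wt_pos n
  -- the differences
  set V : ℕ → ℂ := fun N => ∑ n ∈ range N, (wt p n : ℂ) * (c (p n) - l) with hV
  have hVo : ∀ η : ℝ, 0 < η → ∃ K : ℝ, 0 ≤ K ∧ ∀ N, ‖V N‖ ≤ η * p N + K := by
    intro η hη
    rw [Metric.tendsto_atTop] at hW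
    obtain ⟨N₀, hN₀⟩ := hW η hη
    refine ⟨∑ N ∈ range (N₀ + 1), ‖V N‖, sum_nonneg fun _ _ => norm_nonneg _, fun N => ?_⟩
    have hK0 : 0 ≤ ∑ N ∈ range (N₀ + 1), ‖V N‖ := sum_nonneg fun _ _ => norm_nonneg _
    rcases le_or_gt N N₀ with h1 | h1
    · have h2 : ‖V N‖ ≤ ∑ N ∈ range (N₀ + 1), ‖V N‖ :=
        single_le_sum (f := fun N => ‖V N‖) (fun _ _ => norm_nonneg _)
          (mem_range.2 (by omega))
      have : 0 ≤ η * p N := by positivity
      linarith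
    · have h2 := (hN₀ N h1.le).le
      rw [dist_eq_norm] at h2
      have hpc : (p N : ℂ) ≠ 0 := by exact_mod_cast (h.pos (show 1 ≤ N by omega)).ne'
      have h3 : V N = p N * (AA p N c - l) := by
        rw [hV]
        simp only [mul_sub, sum_sub_distrib]
        unfold AA
        rw [mul_inv_cancel_left₀ hpc, ← sum_mul, ← Nat.cast_sum, h.sum_wt]
      rw [h3, norm_mul, Complex.norm_natCast]
      have : (p N : ℝ) * ‖AA p N c - l‖ ≤ p N * η := by gcongr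
      linarith
  -- summation by parts
  have hparts : ∀ N, 1 ≤ N → ∀ (η K : ℝ), 0 ≤ K → 0 < η → (∀ N, ‖V N‖ ≤ η * p N + K) →
      ‖∑ n ∈ range N, (c (p n) - l)‖ ≤ η * N + K := by
    intro N hN η K hK hη hVK
    have h1 : ∑ n ∈ range N, (c (p n) - l) =
        ∑ n ∈ range N, ((wt p n : ℂ)⁻¹) * ((wt p n : ℂ) * (c (p n) - l)) := by
      refine sum_congr rfl fun n _ => ?_
      have : (wt p n : ℂ) ≠ 0 := by
        have := h.wt_pos n
        exact_mod_cast (show wt p n ≠ 0 by omega)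
      rw [inv_mul_cancel_left₀ this]
    have h2 := Finset.sum_range_by_parts (fun n => ((wt p n : ℂ)⁻¹))
      (fun n => (wt p n : ℂ) * (c (p n) - l)) N
    have h3 := Finset.sum_range_by_parts (fun n => ((wt p n : ℝ)⁻¹))
      (fun n => (wt p n : ℝ) * 1) N
    simp only [smul_eq_mul] at h2 h3
    rw [h1, h2]
    have h4 : ∑ n ∈ range N, ((wt p n : ℝ)⁻¹) * ((wt p n : ℝ) * 1) = N := by
      have : ∀ n ∈ range N, ((wt p n : ℝ)⁻¹) * ((wt p n : ℝ) * 1) = 1 := by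
        intro n _
        rw [inv_mul_cancel_left₀ (hw0 n).ne']
      rw [sum_congr rfl this]
      simp
    have h5 : ∀ i, ∑ n ∈ range i, (wt p n : ℝ) * 1 = p i := by
      intro i
      simp only [mul_one]
      rw [← Nat.cast_sum, h.sum_wt]
    rw [h4] at h3
    simp only [h5] at h3
    have h6 : ∀ n, ((wt p (n + 1) : ℝ)⁻¹ - (wt p n : ℝ)⁻¹) ≤ 0 := by
      intro n
      have : (wt p n : ℝ) ≤ wt p (n + 1) := by exact_mod_cast h.mono (Nat.le_succ n)
      have := inv_anti₀ (hw0 n) this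
      linarith
    refine (norm_sub_le _ _).trans ?_
    have h7 : ‖(wt p (N - 1) : ℂ)⁻¹ * V N‖ ≤ (wt p (N - 1) : ℝ)⁻¹ * (η * p N + K) := by
      rw [norm_mul, norm_inv, Complex.norm_natCast]
      have := hVK N
      have := hw0 (N - 1)
      gcongr
    have h8 : ‖∑ n ∈ range (N - 1), ((wt p (n + 1) : ℂ)⁻¹ - (wt p n : ℂ)⁻¹) * V (n + 1)‖ ≤
        ∑ n ∈ range (N - 1), -((wt p (n + 1) : ℝ)⁻¹ - (wt p n : ℝ)⁻¹) * (η * p (n + 1) + K) := by
      refine (norm_sum_le _ _).trans (sum_le_sum fun n _ => ?_)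
      rw [norm_mul]
      have e1 : ‖(wt p (n + 1) : ℂ)⁻¹ - (wt p n : ℂ)⁻¹‖ =
          -((wt p (n + 1) : ℝ)⁻¹ - (wt p n : ℝ)⁻¹) := by
        have e2 : (wt p (n + 1) : ℂ)⁻¹ - (wt p n : ℂ)⁻¹ =
            (((wt p (n + 1) : ℝ)⁻¹ - (wt p n : ℝ)⁻¹ : ℝ) : ℂ) := by push_cast; rfl
        rw [e2, Complex.norm_real, Real.norm_eq_abs, abs_of_nonpos (h6 n)]
      rw [e1]
      exact mul_le_mul_of_nonneg_left (hVK (n + 1)) (by linarith [h6 n])
    have h9 : ∑ n ∈ range (N - 1), -((wt p (n + 1) : ℝ)⁻¹ - (wt p n : ℝ)⁻¹) *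
        (η * p (n + 1) + K) = -(η * ∑ n ∈ range (N - 1), ((wt p (n + 1) : ℝ)⁻¹ -
        (wt p n : ℝ)⁻¹) * p (n + 1)) -
        K * ∑ n ∈ range (N - 1), ((wt p (n + 1) : ℝ)⁻¹ - (wt p n : ℝ)⁻¹) := by
      rw [mul_sum, mul_sum, ← sum_neg_distrib, ← sum_sub_distrib]
      refine sum_congr rfl fun n _ => by ring
    have h10 : ∑ n ∈ range (N - 1), ((wt p (n + 1) : ℝ)⁻¹ - (wt p n : ℝ)⁻¹) =
        (wt p (N - 1) : ℝ)⁻¹ - (wt p 0 : ℝ)⁻¹ :=
      Finset.sum_range_sub (fun n => (wt p n : ℝ)⁻¹) (N - 1)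
    have h11 : (wt p 0 : ℝ)⁻¹ ≤ 1 := by
      have : (1 : ℝ) ≤ wt p 0 := by exact_mod_cast h.wt_pos 0
      exact inv_le_one_of_one_le₀ this
    rw [h9, h10] at h8
    have h12 : K * (wt p 0 : ℝ)⁻¹ ≤ K := by
      calc K * (wt p 0 : ℝ)⁻¹ ≤ K * 1 := by gcongr
        _ = K := mul_one _
    have h13 : η * (N : ℝ) = η * ((wt p (N - 1) : ℝ)⁻¹ * p N) -
        η * ∑ n ∈ range (N - 1), ((wt p (n + 1) : ℝ)⁻¹ - (wt p n : ℝ)⁻¹) * p (n + 1) := by
      rw [← mul_sub]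
      congr 1
    have h14 : (wt p (N - 1) : ℝ)⁻¹ * (η * p N + K) = η * ((wt p (N - 1) : ℝ)⁻¹ * p N) +
        K * (wt p (N - 1) : ℝ)⁻¹ := by ring
    rw [h14] at h7
    nlinarith
  -- conclusion
  rw [Metric.tendsto_atTop]
  intro ε hε
  obtain ⟨K, hK0, hK⟩ := hVo (ε / 2) (by positivity)
  obtain ⟨N₀, hN₀⟩ := exists_nat_gt (2 * K / ε)
  refine ⟨max N₀ 1, fun N hN => ?_⟩
  have hN1 : 1 ≤ N := le_trans (le_max_right _ _) hN
  have hN2 : N₀ ≤ N := le_trans (le_max_left _ _) hN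
  have hN0 : (0 : ℝ) < N := by exact_mod_cast hN1
  have hNc : (N : ℂ) ≠ 0 := by exact_mod_cast (show N ≠ 0 by omega)
  rw [dist_eq_norm]
  have h1 : (N : ℂ)⁻¹ * ∑ n ∈ range N, c (p n) - l =
      (N : ℂ)⁻¹ * ∑ n ∈ range N, (c (p n) - l) := by
    rw [sum_sub_distrib, sum_const, card_range, nsmul_eq_mul, mul_sub,
      inv_mul_cancel_left₀ hNc]
  rw [h1, norm_mul, norm_inv, Complex.norm_natCast, inv_mul_lt_iff₀ hN0]
  refine lt_of_le_of_lt (hparts N hN1 (ε / 2) K hK0 (by positivity) hK) ?_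
  have h2 : 2 * K / ε < N := lt_of_lt_of_le hN₀ (by exact_mod_cast hN2)
  rw [div_lt_iff₀ hε] at h2
  linarith

variable {X : Type*} [MeasurableSpace X] {μ : Measure X} [IsProbabilityMeasure μ]

/-- **Bourgain's theorem**, bounded functions, polynomial sequences. -/
theorem bourgain_ps (h : PS p d A) {T : X → X} (hT : MeasurePreserving T μ μ)
    {H : X → ℝ} (hH : Measurable H) (hb : ∀ x, |H x| ≤ 1) :
    ∀ᵐ x ∂μ, ∃ l : ℝ, Tendsto (fun N : ℕ => (N : ℝ)⁻¹ * ∑ n ∈ range N, H (T^[p n] x)) atTop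
      (𝓝 l) := by
  have h1 : ∀ᵐ x ∂μ, ∀ i : ℕ, ∃ l, Tendsto (fun t : ℕ =>
      AA p ⌊(1 + 1 / ((i : ℝ) + 1)) ^ t⌋₊ (fun j => ((H (T^[j] x) : ℝ) : ℂ))) atTop (𝓝 l) := by
    rw [ae_all_iff]
    intro i
    exact conv_lac h (Lc.floor (lam := 1 + 1 / ((i : ℝ) + 1)) (by
      have : (0 : ℝ) < 1 / ((i : ℝ) + 1) := by positivity
      linarith)) hT hH hb
  filter_upwards [h1] with x hx
  obtain ⟨l, hl⟩ := conv_all_len h (c := fun j => ((H (T^[j] x) : ℝ) : ℂ)) (fun n => by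
    rw [Complex.norm_real, Real.norm_eq_abs]
    exact hb _) hx
  have h2 := unweight h hl
  refine ⟨l.re, ?_⟩
  have h3 := (Complex.continuous_re.tendsto l).comp h2
  refine h3.congr fun N => ?_
  simp only [Function.comp_apply]
  have e : ((N : ℂ)⁻¹ * ∑ n ∈ range N, ((H (T^[p n] x) : ℝ) : ℂ)) =
      (((N : ℝ)⁻¹ * ∑ n ∈ range N, H (T^[p n] x) : ℝ) : ℂ) := by
    push_cast
    rfl
  rw [e, Complex.ofReal_re]

end Pool.Agent.Zk89.BT
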