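import Pool.Agent.Zk89.BT.Max

/-!
# Dominated families and the Rademacher-Menshov inequality
-/

set_option autoImplicit false
set_option linter.unusedSectionVars false

open Finset

noncomputable section

namespace Pool.Agent.Zk89.BT

variable {X : Type*} [Fintype X] {ι : Type*}

theorem mink {a b : X → ℝ} {α β : ℝ} (hα : 0 ≤ α) (hβ : 0 ≤ β) (ha : ∑ x, a x ^ 2 ≤ α ^ 2)
    (hb : ∑ x, b x ^ 2 ≤ β ^ 2) : ∑ x, (a x + b x) ^ 2 ≤ (α + β) ^ 2 := by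
  have h1 : (∑ x, a x * b x) ^ 2 ≤ (∑ x, a x ^ 2) * ∑ x, b x ^ 2 :=
    sum_mul_sq_le_sq_mul_sq univ a b
  have hb0 : 0 ≤ ∑ x, b x ^ 2 := sum_nonneg fun _ _ => sq_nonneg _
  have h2 : (∑ x, a x * b x) ^ 2 ≤ (α * β) ^ 2 := by
    refine h1.trans ?_
    rw [mul_pow]
    exact mul_le_mul ha hb hb0 (sq_nonneg _)
  have h3 : ∑ x, a x * b x ≤ α * β := le_of_sq_le_sq h2 (mul_nonneg hα hβ)
  have e : ∑ x, (a x + b x) ^ 2 = ∑ x, a x ^ 2 + 2 * ∑ x, a x * b x + ∑ x, b x ^ 2 := by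
    rw [mul_sum, ← sum_add_distrib, ← sum_add_distrib]
    refine sum_congr rfl fun x _ => by ring
  rw [e]
  nlinarith

/-- the functions `F i`, `i ∈ S`, are dominated by one function of `L²` norm at most `C` -/
def Dom (S : Set ι) (F : ι → X → ℂ) (C : ℝ) : Prop :=
  ∃ h : X → ℝ, (∀ x, 0 ≤ h x) ∧ (∀ i ∈ S, ∀ x, ‖F i x‖ ≤ h x) ∧ ∑ x, h x ^ 2 ≤ C ^ 2

theorem Dom.mono {S : Set ι} {F : ι → X → ℂ} {C D : ℝ} (h : Dom S F C) (hC : 0 ≤ C)
    (hCD : C ≤ D) : Dom S F D := by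
  obtain ⟨g, h1, h2, h3⟩ := h
  exact ⟨g, h1, h2, h3.trans (pow_le_pow_left₀ hC hCD 2)⟩

theorem Dom.of_le {S : Set ι} {F G : ι → X → ℂ} {C : ℝ} (h : Dom S F C)
    (hFG : ∀ i ∈ S, ∀ x, ‖G i x‖ ≤ ‖F i x‖) : Dom S G C := by
  obtain ⟨g, h1, h2, h3⟩ := h
  exact ⟨g, h1, fun i hi x => (hFG i hi x).trans (h2 i hi x), h3⟩

theorem Dom.subset {S S' : Set ι} {F : ι → X → ℂ} {C : ℝ} (h : Dom S F C) (hS : S' ⊆ S) :
    Dom S' F C := by
  obtain ⟨g, h1, h2, h3⟩ := h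
  exact ⟨g, h1, fun i hi x => h2 i (hS hi) x, h3⟩

theorem Dom.congr {S : Set ι} {F G : ι → X → ℂ} {C : ℝ} (h : Dom S F C)
    (hFG : ∀ i ∈ S, ∀ x, G i x = F i x) : Dom S G C :=
  h.of_le fun i hi x => by rw [hFG i hi x]

theorem Dom.add {S : Set ι} {F G : ι → X → ℂ} {C D : ℝ} (hF : Dom S F C) (hG : Dom S G D)
    (hC : 0 ≤ C) (hD : 0 ≤ D) : Dom S (fun i x => F i x + G i x) (C + D) := by
  obtain ⟨f, h1, h2, h3⟩ := hF
  obtain ⟨g, h4, h5, h6⟩ := hG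
  exact ⟨fun x => f x + g x, fun x => add_nonneg (h1 x) (h4 x), fun i hi x =>
    (norm_add_le _ _).trans (add_le_add (h2 i hi x) (h5 i hi x)), mink hC hD h3 h6⟩

theorem Dom.sub {S : Set ι} {F G : ι → X → ℂ} {C D : ℝ} (hF : Dom S F C) (hG : Dom S G D)
    (hC : 0 ≤ C) (hD : 0 ≤ D) : Dom S (fun i x => F i x - G i x) (C + D) := by
  have h1 : Dom S (fun i x => - G i x) D := hG.of_le fun i _ x => by rw [norm_neg]
  exact (hF.add h1 hC hD).congr fun i _ x => by rw [sub_eq_add_neg]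

theorem Dom.zero {S : Set ι} : Dom S (fun (_ : ι) (_ : X) => (0 : ℂ)) 0 :=
  ⟨fun _ => 0, fun _ => le_rfl, fun i _ x => by simp, by simp⟩

theorem Dom.sum {S : Set ι} {κ : Type*} (J : Finset κ) (F : κ → ι → X → ℂ) (C : κ → ℝ)
    (h : ∀ s ∈ J, Dom S (F s) (C s)) (hC : ∀ s ∈ J, 0 ≤ C s) :
    Dom S (fun i x => ∑ s ∈ J, F s i x) (∑ s ∈ J, C s) := by
  classical
  induction J using Finset.induction_on with
  | empty => simpa using Dom.zero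
  | insert s J hs ih =>
    rw [sum_insert hs]
    refine ((h s (mem_insert_self s J)).add (ih (fun t ht => h t (mem_insert_of_mem ht))
      fun t ht => hC t (mem_insert_of_mem ht)) (hC s (mem_insert_self s J))
      (sum_nonneg fun t ht => hC t (mem_insert_of_mem ht))).congr fun i _ x => ?_
    rw [sum_insert hs]

theorem Dom.of_sq (S : Finset ι) {F : ι → X → ℂ} {C : ℝ}
    (h : ∑ i ∈ S, ∑ x, ‖F i x‖ ^ 2 ≤ C ^ 2) : Dom (S : Set ι) F C := by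
  refine ⟨fun x => √(∑ i ∈ S, ‖F i x‖ ^ 2), fun x => Real.sqrt_nonneg _, ?_, ?_⟩
  · intro i hi x
    refine Real.le_sqrt_of_sq_le ?_
    exact single_le_sum (f := fun i => ‖F i x‖ ^ 2) (fun _ _ => sq_nonneg _) hi
  · refine le_trans (le_of_eq ?_) h
    rw [sum_comm]
    refine sum_congr rfl fun x _ => ?_
    rw [Real.sq_sqrt (sum_nonneg fun _ _ => sq_nonneg _)]

/-- **The Rademacher-Menshov inequality.** -/
theorem rm (b : ℕ → X → ℂ) (horth : ∀ s n : ℕ, ∑ x, ‖∑ i ∈ Ico s (s + n), b i x‖ ^ 2 ≤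
      ∑ i ∈ Ico s (s + n), ∑ x, ‖b i x‖ ^ 2) (u : ℕ) : ∀ s : ℕ,
    ∃ h : X → ℝ, (∀ x, 0 ≤ h x) ∧
      (∀ n ≤ 2 ^ u, ∀ x, ‖∑ i ∈ Ico s (s + n), b i x‖ ≤ h x) ∧
      ∑ x, h x ^ 2 ≤ ((u : ℝ) + 1) ^ 2 * ∑ i ∈ Ico s (s + 2 ^ u), ∑ x, ‖b i x‖ ^ 2 := by
  induction u with
  | zero =>
    intro s
    refine ⟨fun x => ‖b s x‖, fun x => norm_nonneg _, ?_, ?_⟩
    · intro n hn x
      have h1 : n = 0 ∨ n = 1 := by
        rw [pow_zero] at hn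
        omega
      rcases h1 with h1 | h1
      · subst h1
        simp
      · subst h1
        simp
    · simp
  | succ u ih =>
    intro s
    obtain ⟨h₁, h1, h2, h3⟩ := ih s
    obtain ⟨h₂, h4, h5, h6⟩ := ih (s + 2 ^ u)
    have e2 : (2 : ℕ) ^ (u + 1) = 2 ^ u + 2 ^ u := by rw [pow_succ]; ring
    set W₁ := ∑ i ∈ Ico s (s + 2 ^ u), ∑ x, ‖b i x‖ ^ 2 with hW₁
    set W₂ := ∑ i ∈ Ico (s + 2 ^ u) (s + 2 ^ u + 2 ^ u), ∑ x, ‖b i x‖ ^ 2 with hW₂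
    have hW₁0 : 0 ≤ W₁ := sum_nonneg fun _ _ => sum_nonneg fun _ _ => sq_nonneg _
    have hW₂0 : 0 ≤ W₂ := sum_nonneg fun _ _ => sum_nonneg fun _ _ => sq_nonneg _
    have eW : ∑ i ∈ Ico s (s + 2 ^ (u + 1)), ∑ x, ‖b i x‖ ^ 2 = W₁ + W₂ := by
      rw [e2, ← add_assoc, hW₁, hW₂]
      exact (sum_Ico_consecutive _ (Nat.le_add_right _ _) (Nat.le_add_right _ _)).symm
    rw [eW]
    set r := √(W₁ + W₂) with hr
    have hr0 : 0 ≤ r := Real.sqrt_nonneg _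
    have hr2 : r ^ 2 = W₁ + W₂ := Real.sq_sqrt (by positivity)
    refine ⟨fun x => √(h₁ x ^ 2 + h₂ x ^ 2) + ‖∑ i ∈ Ico s (s + 2 ^ u), b i x‖,
      fun x => by positivity, ?_, ?_⟩
    · intro n hn x
      rcases le_total n (2 ^ u) with h7 | h7
      · refine (h2 n h7 x).trans ?_
        have h8 : h₁ x ≤ √(h₁ x ^ 2 + h₂ x ^ 2) :=
          Real.le_sqrt_of_sq_le (by nlinarith [sq_nonneg (h₂ x)])
        linarith [norm_nonneg (∑ i ∈ Ico s (s + 2 ^ u), b i x)]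
      · obtain ⟨n', rfl⟩ := Nat.exists_eq_add_of_le h7
        have h9 : ∑ i ∈ Ico s (s + (2 ^ u + n')), b i x = ∑ i ∈ Ico s (s + 2 ^ u), b i x +
            ∑ i ∈ Ico (s + 2 ^ u) (s + 2 ^ u + n'), b i x := by
          rw [← add_assoc]
          exact (sum_Ico_consecutive _ (Nat.le_add_right _ _) (Nat.le_add_right _ _)).symm
        rw [h9]
        refine (norm_add_le _ _).trans ?_
        have h8 : h₂ x ≤ √(h₁ x ^ 2 + h₂ x ^ 2) :=
          Real.le_sqrt_of_sq_le (by nlinarith [sq_nonneg (h₁ x)])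
        have h10 := h5 n' (by omega) x
        linarith
    · have h7 : ∑ x, (√(h₁ x ^ 2 + h₂ x ^ 2)) ^ 2 ≤ (((u : ℝ) + 1) * r) ^ 2 := by
        have e3 : ∑ x, (√(h₁ x ^ 2 + h₂ x ^ 2)) ^ 2 = ∑ x, h₁ x ^ 2 + ∑ x, h₂ x ^ 2 := by
          rw [← sum_add_distrib]
          refine sum_congr rfl fun x _ => Real.sq_sqrt (by positivity)
        rw [e3, mul_pow, hr2, mul_add]
        exact add_le_add h3 h6
      have h8 : ∑ x, ‖∑ i ∈ Ico s (s + 2 ^ u), b i x‖ ^ 2 ≤ r ^ 2 := by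
        rw [hr2]
        exact (horth s (2 ^ u)).trans (by linarith)
      have h9 := mink (by positivity) hr0 h7 h8
      refine h9.trans (le_of_eq ?_)
      rw [← hr2]
      push_cast
      ring

end Pool.Agent.Zk89.BT
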