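import Pool.Agent.Zk89.BT.Lev

/-!
# The decomposition of the weighted exponential sum
-/

set_option autoImplicit false
set_option linter.unusedSectionVars false

open Finset Filter Topology

noncomputable section

namespace Pool.Agent.Zk89.BT

open Pool.Agent.Helper602.MK (ee)
open Pool.Agent.Helper602.MK.N_J5b (ee_add ee_zero norm_ee)

variable {p : ℕ → ℕ} {d A : ℕ} {N : ℕ → ℕ} {lam : ℝ}

theorem DK_int (L Q q : ℕ) (hq : 1 ≤ q) (hqQ : q ∣ Q) (a : ℤ) (θ : ℝ) :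
    DK L (Q * θ) = DK L (Q * (θ - a / q)) := by
  obtain ⟨c, rfl⟩ := hqQ
  have hq0 : (q : ℝ) ≠ 0 := by
    have : q ≠ 0 := by omega
    exact_mod_cast this
  have h1 : ((q * c : ℕ) : ℝ) * θ = ((q * c : ℕ) : ℝ) * (θ - a / q) + ((c * a : ℤ) : ℝ) := by
    push_cast
    field_simp
    ring
  rw [h1, DK_add_int]

theorem sum_small {ι : Type*} (S : Finset ι) (F : ι → ℂ) {ε : ℝ} (K : ℕ) (hK : S.card ≤ K)
    (hε : 0 ≤ ε) (h : ∀ s ∈ S, ‖F s‖ ≤ ε) : ‖∑ s ∈ S, F s‖ ≤ (K : ℝ) * ε := by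
  refine (norm_sum_le _ _).trans ((sum_le_sum h).trans ?_)
  rw [sum_const, nsmul_eq_mul]
  have : (S.card : ℝ) ≤ K := by exact_mod_cast hK
  gcongr

theorem gam_norm_one (s : ℕ) (r θ : ℝ) : ‖gam p s r θ‖ ≤ 1 := by
  unfold gam
  split_ifs with h
  · exact GS_norm_le _ _
  · simp

/-- The term of level `s`, far from the fraction. -/
theorem far_term {X s : ℕ} (hX : 2 * QQ s ≤ X) {δ θ : ℝ} (hδ : 0 < δ)
    (h : ∀ (a : ℤ) (q : ℕ), Fr s (rI s) θ a q → δ ≤ |θ - a / q|) :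
    ‖gam p s (rI s) θ * DK (X / QQ s) (QQ s * θ)‖ ≤ 2 / (X * δ) := by
  have hQ : 0 < QQ s := QQ_pos s
  have hX0 : 0 < X := by omega
  have hX' : (0 : ℝ) < X := by exact_mod_cast hX0
  by_cases hex : ∃ x : ℤ × ℕ, Fr s (rI s) θ x.1 x.2
  · obtain ⟨⟨a, q⟩, hx⟩ := hex
    simp only at hx
    have h1 := h a q hx
    rw [norm_mul, DK_int _ _ q hx.1 (dvd_QQ hx.1 hx.le) a θ]
    set β := θ - a / q with hβ
    have hβ0 : 0 < |β| := lt_of_lt_of_le hδ h1
    have hQ' : (0 : ℝ) < QQ s := by exact_mod_cast hQ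
    have hne : (QQ s : ℝ) * β ≠ 0 := mul_ne_zero hQ'.ne' (abs_pos.1 hβ0)
    have habs : |(QQ s : ℝ) * β| = QQ s * |β| := by rw [abs_mul, Nat.abs_cast]
    have hle : |(QQ s : ℝ) * β| ≤ 1 / 2 := by
      rw [habs]
      have h2 := hx.2.2.2
      unfold rI at h2
      rw [← hβ, le_div_iff₀ (by positivity)] at h2
      nlinarith
    have hL : 0 < X / QQ s := Nat.div_pos (by omega) hQ
    have h3 := DK_far' hL hne hle
    rw [habs] at h3
    have h4 : (X : ℝ) / 2 ≤ (X / QQ s : ℕ) * QQ s := by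
      have h5 : X < (X / QQ s) * QQ s + QQ s := by
        have := Nat.lt_div_mul_add (a := X) hQ
        exact this
      have h6 : X ≤ 2 * ((X / QQ s) * QQ s) := by omega
      have h7 : (X : ℝ) ≤ 2 * ((X / QQ s : ℕ) * QQ s) := by exact_mod_cast h6
      linarith
    have h5 : 1 / (((X / QQ s : ℕ) : ℝ) * (QQ s * |β|)) ≤ 2 / (X * δ) := by
      have h6 : (0 : ℝ) < ((X / QQ s : ℕ) : ℝ) := by exact_mod_cast hL
      rw [div_le_div_iff₀ (by positivity) (by positivity), one_mul]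
      calc (X : ℝ) * δ ≤ X * |β| := by gcongr
        _ = 2 * (X / 2 * |β|) := by ring
        _ ≤ 2 * (((X / QQ s : ℕ) * QQ s) * |β|) := by gcongr
        _ = _ := by ring
    have h6 := gam_norm_one (p := p) s (rI s) θ
    calc ‖gam p s (rI s) θ‖ * ‖DK (X / QQ s) (QQ s * β)‖ ≤
        1 * (1 / (((X / QQ s : ℕ) : ℝ) * (QQ s * |β|))) := by gcongr
      _ ≤ 2 / (X * δ) := by rw [one_mul]; exact h5
  · rw [gam_zero hex, zero_mul, norm_zero]
    positivity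

theorem clog_pow_le {n : ℕ} (hn : 1 ≤ n) : 2 ^ (Nat.clog 2 n) ≤ 2 * n := by
  rcases Nat.lt_or_ge 1 n with h1 | h1
  · have h2 := Nat.pow_pred_clog_lt_self (b := 2) (by norm_num) h1
    have h3 : 0 < Nat.clog 2 n := Nat.clog_pos (by norm_num) (by omega)
    have h4 : 2 ^ (Nat.clog 2 n) = 2 * 2 ^ (Nat.clog 2 n - 1) := by
      rw [← pow_succ', Nat.sub_add_cancel h3]
    rw [h4]
    have : 2 ^ (Nat.clog 2 n).pred < n := h2
    have e : (Nat.clog 2 n).pred = Nat.clog 2 n - 1 := rfl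
    rw [e] at this
    omega
  · have h2 : n = 1 := by omega
    subst h2
    simp

theorem clog_le_self' (n : ℕ) : Nat.clog 2 n ≤ n :=
  Nat.clog_le_of_le_pow Nat.lt_two_pow_self.le

/-- the radius of the major arcs -/
def rho (N : ℕ → ℕ) (d t : ℕ) : ℝ := √(N t) / (N t : ℝ) ^ d

/-- the highest level -/
def SL (C m t : ℕ) : ℕ := Nat.clog 2 (C * t ^ m)

open Classical in
/-- the term of level `s` -/
def tm (p : ℕ → ℕ) (N : ℕ → ℕ) (d t s : ℕ) (θ : ℝ) : ℂ :=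
  if 8 ^ s ≤ t then gam p s (rI s) θ * DK (p (N t) / QQ s) (QQ s * θ)
  else if ∃ x : ℤ × ℕ, Fr s (rho N d t) θ x.1 x.2 then wa p (N t) θ else 0

/-- everything that is needed at the time `t` -/
structure Big (p : ℕ → ℕ) (N : ℕ → ℕ) (d A C m t : ℕ) : Prop where
  t_pos : 1 ≤ t
  C_pos : 1 ≤ C
  big : ∀ s, 8 ^ s ≤ t →
    400 * (A : ℝ) ^ 2 * ((C * t ^ m : ℕ) : ℝ) ^ 2 * (t : ℝ) ^ 2 * QQ s ≤ √(N t)

section facts

variable {C m t : ℕ}

theorem Big.n_pos (hb : Big p N d A C m t) : 1 ≤ C * t ^ m :=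
  Nat.one_le_iff_ne_zero.2 (by
    have h1 := hb.t_pos
    have h2 := hb.C_pos
    positivity)

theorem QQ_zero : QQ 0 = 1 := by simp [QQ]

theorem Big.big0 (hb : Big p N d A C m t) :
    400 * (A : ℝ) ^ 2 * ((C * t ^ m : ℕ) : ℝ) ^ 2 * (t : ℝ) ^ 2 ≤ √(N t) := by
  have h1 := hb.big 0 (by simpa using hb.t_pos)
  rwa [QQ_zero, Nat.cast_one, mul_one] at h1

/-- the basic consequences, `R = √N`, `n = C t ^ m` -/
theorem Big.facts (h : PS p d A) (hb : Big p N d A C m t) (hN : Lc N lam) :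
    0 < √(N t : ℝ) ∧ 1 / (N t : ℝ) ≤ 1 / √(N t : ℝ) ∧
    rho N d t * (N t : ℝ) ^ (d - 1) = 1 / √(N t : ℝ) ∧ rho N d t ≤ 1 / √(N t : ℝ) ∧
    √(N t : ℝ) / A ≤ p (N t) * rho N d t ∧ √(N t : ℝ) ≤ p (N t) ∧ 0 < rho N d t := by
  have hA : (1 : ℝ) ≤ A := by exact_mod_cast h.A_pos
  have hn : (1 : ℝ) ≤ ((C * t ^ m : ℕ) : ℝ) := by exact_mod_cast hb.n_pos
  have ht : (1 : ℝ) ≤ (t : ℝ) := by exact_mod_cast hb.t_pos
  have hbig := hb.big0
  set R := √(N t : ℝ) with hR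
  have hRA : (A : ℝ) ≤ R := by
    refine le_trans ?_ hbig
    have h1 : (1 : ℝ) ≤ ((C * t ^ m : ℕ) : ℝ) ^ 2 := one_le_pow₀ hn
    have h2 : (1 : ℝ) ≤ (t : ℝ) ^ 2 := one_le_pow₀ ht
    have h3 : (A : ℝ) ≤ 400 * (A : ℝ) ^ 2 := by nlinarith
    calc (A : ℝ) ≤ 400 * (A : ℝ) ^ 2 * 1 * 1 := by linarith
      _ ≤ 400 * (A : ℝ) ^ 2 * ((C * t ^ m : ℕ) : ℝ) ^ 2 * (t : ℝ) ^ 2 := by gcongr
  have hR1 : 1 ≤ R := hA.trans hRA
  have hR0 : 0 < R := by linarith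
  have hNR : (N t : ℝ) = R ^ 2 := by rw [hR, Real.sq_sqrt (Nat.cast_nonneg _)]
  have hN1 : (1 : ℝ) ≤ N t := by exact_mod_cast hN.pos t
  have hN0 : (0 : ℝ) < N t := by linarith
  have hNd : (N t : ℝ) ^ d = N t * (N t : ℝ) ^ (d - 1) := by
    rw [← pow_succ', Nat.sub_add_cancel h.d_pos]
  have hNd1 : (N t : ℝ) ≤ (N t : ℝ) ^ d := le_self_pow₀ hN1 (by have := h.d_pos; omega)
  have hNd0 : (0 : ℝ) < (N t : ℝ) ^ d := by positivity
  have hNd1' : (0 : ℝ) < (N t : ℝ) ^ (d - 1) := by positivity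
  have hlow := h.low' (N t)
  have hrho : rho N d t = R / (N t : ℝ) ^ d := rfl
  refine ⟨hR0, ?_, ?_, ?_, ?_, ?_, ?_⟩
  · rw [hNR]
    have : R ≤ R ^ 2 := by nlinarith
    gcongr
  · rw [hrho, hNd, div_mul_eq_mul_div, mul_div_mul_right _ _ hNd1'.ne', hNR]
    field_simp
  · rw [hrho, div_le_div_iff₀ hNd0 hR0, one_mul]
    calc R * R = N t := by rw [hNR]; ring
      _ ≤ (N t : ℝ) ^ d := hNd1
  · rw [hrho, div_le_iff₀ (by linarith)]
    rw [mul_comm (p (N t) : ℝ), div_mul_eq_mul_div, div_mul_eq_mul_div, le_div_iff₀ hNd0]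
    calc R * (N t : ℝ) ^ d ≤ R * (A * p (N t)) := by gcongr
      _ = R * p (N t) * A := by ring
  · have h1 : R * R ≤ R * p (N t) := by
      calc R * R = N t := by rw [hNR]; ring
        _ ≤ (N t : ℝ) ^ d := hNd1
        _ ≤ A * p (N t) := hlow
        _ ≤ R * p (N t) := by gcongr
    exact le_of_mul_le_mul_left h1 hR0
  · rw [hrho]
    positivity

/-- consequences for the levels of the first kind -/
theorem Big.facts2 (h : PS p d A) (hb : Big p N d A C m t) (hN : Lc N lam) {s : ℕ}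
    (hs : 8 ^ s ≤ t) : 2 * QQ s ≤ p (N t) ∧ rho N d t ≤ rI s ∧
      400 * (QQ s : ℝ) ≤ √(N t : ℝ) / (t : ℝ) ^ 2 := by
  have hA : (1 : ℝ) ≤ A := by exact_mod_cast h.A_pos
  have hn : (1 : ℝ) ≤ ((C * t ^ m : ℕ) : ℝ) := by exact_mod_cast hb.n_pos
  have ht : (1 : ℝ) ≤ (t : ℝ) := by exact_mod_cast hb.t_pos
  have hQ : (1 : ℝ) ≤ QQ s := by exact_mod_cast QQ_pos s
  obtain ⟨h1, -, -, h4, -, h6, -⟩ := hb.facts h hN
  have hbig := hb.big s hs
  set R := √(N t : ℝ) with hR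
  have h7 : 400 * (QQ s : ℝ) * (t : ℝ) ^ 2 ≤ R := by
    refine le_trans ?_ hbig
    have e1 : (1 : ℝ) ≤ ((C * t ^ m : ℕ) : ℝ) ^ 2 := one_le_pow₀ hn
    have e2 : (1 : ℝ) ≤ (A : ℝ) ^ 2 := one_le_pow₀ hA
    calc 400 * (QQ s : ℝ) * (t : ℝ) ^ 2 = 400 * 1 * 1 * (t : ℝ) ^ 2 * QQ s := by ring
      _ ≤ 400 * (A : ℝ) ^ 2 * ((C * t ^ m : ℕ) : ℝ) ^ 2 * (t : ℝ) ^ 2 * QQ s := by gcongr
  have h8 : 400 * (QQ s : ℝ) ≤ R := by
    have : 1 ≤ (t : ℝ) ^ 2 := one_le_pow₀ ht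
    nlinarith
  refine ⟨?_, ?_, ?_⟩
  · have h9 : (2 * QQ s : ℝ) ≤ p (N t) := by linarith
    exact_mod_cast h9
  · refine h4.trans ?_
    unfold rI
    have : 4 * (QQ s : ℝ) ≤ R := by linarith
    gcongr
  · rw [le_div_iff₀ (by positivity)]
    exact h7

/-- consequences for all levels -/
theorem Big.facts3 (h : PS p d A) (hb : Big p N d A C m t) (hN : Lc N lam) {s : ℕ}
    (hs : s ≤ SL C m t) : (2 : ℝ) ^ s ≤ 2 * ((C * t ^ m : ℕ) : ℝ) ∧
      rho N d t ≤ 1 / (4 * 4 ^ s) := by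
  have hA : (1 : ℝ) ≤ A := by exact_mod_cast h.A_pos
  have hn : (1 : ℝ) ≤ ((C * t ^ m : ℕ) : ℝ) := by exact_mod_cast hb.n_pos
  have ht : (1 : ℝ) ≤ (t : ℝ) := by exact_mod_cast hb.t_pos
  obtain ⟨h1, -, -, h4, -, h6, -⟩ := hb.facts h hN
  have hbig := hb.big0
  set R := √(N t : ℝ) with hR
  set n := ((C * t ^ m : ℕ) : ℝ) with hn'
  have h5 : (2 : ℝ) ^ s ≤ 2 * n := by
    have e1 : 2 ^ s ≤ 2 * (C * t ^ m) :=
      (Nat.pow_le_pow_right (by norm_num) hs).trans (clog_pow_le hb.n_pos)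
    rw [hn']
    exact_mod_cast e1
  refine ⟨h5, h4.trans ?_⟩
  have h7 : (4 : ℝ) ^ s ≤ 4 * n ^ 2 := by
    have e1 : (4 : ℝ) ^ s = (2 ^ s) ^ 2 := by rw [← pow_mul, mul_comm, pow_mul]; norm_num
    rw [e1]
    calc ((2 : ℝ) ^ s) ^ 2 ≤ (2 * n) ^ 2 := by gcongr
      _ = 4 * n ^ 2 := by ring
  have h8 : 16 * n ^ 2 ≤ R := by
    refine le_trans ?_ hbig
    have e1 : 1 ≤ (t : ℝ) ^ 2 := one_le_pow₀ ht
    have e2 : (1 : ℝ) ≤ (A : ℝ) ^ 2 := one_le_pow₀ hA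
    calc 16 * n ^ 2 ≤ 400 * 1 * n ^ 2 * 1 := by nlinarith [sq_nonneg n]
      _ ≤ 400 * (A : ℝ) ^ 2 * n ^ 2 * (t : ℝ) ^ 2 := by gcongr
  have h9 : 4 * (4 : ℝ) ^ s ≤ R := by linarith
  gcongr

/-- uniqueness of the fraction at distance `ρ_t` -/
theorem Big.unique (h : PS p d A) (hb : Big p N d A C m t) (hN : Lc N lam) {s s' : ℕ}
    (hs : s ≤ SL C m t) (hs' : s' ≤ SL C m t) {θ : ℝ} {a a' : ℤ} {q q' : ℕ}
    (h1 : Fr s (rho N d t) θ a q) (h2 : Fr s' (rho N d t) θ a' q') : s = s' := by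
  obtain ⟨e1, e2⟩ := hb.facts3 h hN hs
  obtain ⟨e3, e4⟩ := hb.facts3 h hN hs'
  obtain ⟨-, -, -, -, -, -, h0⟩ := hb.facts h hN
  have h3 : a = a' ∧ q = q' := by
    refine h1.unique h2 ?_
    have hq : (q : ℝ) ≤ 2 ^ s := by exact_mod_cast h1.le
    have hq' : (q' : ℝ) ≤ 2 ^ s' := by exact_mod_cast h2.le
    have f1 : rho N d t * (2 ^ s * 2 ^ s) ≤ 1 / 4 := by
      have e5 : (2 : ℝ) ^ s * 2 ^ s = 4 ^ s := by rw [← mul_pow]; norm_num
      rw [e5]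
      have e6 : (0 : ℝ) < 4 ^ s := by positivity
      calc rho N d t * 4 ^ s ≤ 1 / (4 * 4 ^ s) * 4 ^ s := by gcongr
        _ = 1 / 4 := by field_simp
    have f2 : rho N d t * (2 ^ s' * 2 ^ s') ≤ 1 / 4 := by
      have e5 : (2 : ℝ) ^ s' * 2 ^ s' = 4 ^ s' := by rw [← mul_pow]; norm_num
      rw [e5]
      have e6 : (0 : ℝ) < 4 ^ s' := by positivity
      calc rho N d t * 4 ^ s' ≤ 1 / (4 * 4 ^ s') * 4 ^ s' := by gcongr
        _ = 1 / 4 := by field_simp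
    have f3 : (q : ℝ) * q' ≤ (2 ^ s * 2 ^ s + 2 ^ s' * 2 ^ s') / 2 := by
      calc (q : ℝ) * q' ≤ 2 ^ s * 2 ^ s' := by gcongr
        _ ≤ _ := by nlinarith [sq_nonneg ((2 : ℝ) ^ s - 2 ^ s')]
    calc (rho N d t + rho N d t) * ((q : ℝ) * q') ≤
        (rho N d t + rho N d t) * ((2 ^ s * 2 ^ s + 2 ^ s' * 2 ^ s') / 2) := by gcongr
      _ = rho N d t * (2 ^ s * 2 ^ s) + rho N d t * (2 ^ s' * 2 ^ s') := by ring
      _ ≤ 1 / 4 + 1 / 4 := add_le_add f1 f2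
      _ < 1 := by norm_num
  rw [← h1.2.1, ← h2.2.1, h3.2]

end facts

/-- reduction of a fraction -/
theorem reduce (a : ℤ) {q : ℕ} (hq : 1 ≤ q) : ∃ (a' : ℤ) (q' : ℕ), 1 ≤ q' ∧ q' ≤ q ∧
    IsCoprime a' (q' : ℤ) ∧ (a : ℝ) / q = a' / q' := by
  have hg : 0 < Int.gcd a q := Int.gcd_pos_of_ne_zero_right a (by
    have : q ≠ 0 := by omega
    exact_mod_cast this)
  obtain ⟨g, a', b', hg0, hcop, ha, hb⟩ := Int.exists_gcd_one' hg
  have hqpos : (0 : ℤ) < q := by exact_mod_cast hq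
  have hg0' : (0 : ℤ) < g := by exact_mod_cast hg0
  have hb0 : 0 < b' := by
    by_contra hcon
    push Not at hcon
    nlinarith
  obtain ⟨q', rfl⟩ := Int.eq_ofNat_of_zero_le hb0.le
  have hq' : 1 ≤ q' := by exact_mod_cast hb0
  refine ⟨a', q', hq', ?_, Int.isCoprime_iff_gcd_eq_one.2 hcop, ?_⟩
  · have h1 : q = q' * g := by exact_mod_cast hb
    rw [h1]
    exact Nat.le_mul_of_pos_right _ hg0
  · rw [show (a : ℝ) = a' * g by rw [ha]; push_cast; ring,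
      show (q : ℝ) = q' * g by exact_mod_cast hb]
    have : (g : ℝ) ≠ 0 := by exact_mod_cast hg0.ne'
    rw [mul_div_mul_right _ _ this]

/-- **The decomposition.** -/
theorem err (h : PS p d A) (hN : Lc N lam) {C m t : ℕ} (hb : Big p N d A C m t)
    (hmin : ∀ (N : ℕ) (u θ : ℝ), 1 ≤ N → 1 ≤ u → 1 ≤ u * ‖wa p N θ‖ →
      ∃ q : ℕ, 1 ≤ q ∧ (q : ℝ) ≤ C * u ^ m ∧ ∃ a : ℤ, |θ - a / q| ≤ C * u ^ m / (N : ℝ) ^ d)
    (θ : ℝ) : ‖wa p (N t) θ - ∑ s ∈ range (SL C m t + 1), tm p N d t s θ‖ ≤ 3 / t := by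
  classical
  have hA : (1 : ℝ) ≤ A := by exact_mod_cast h.A_pos
  have hn : (1 : ℝ) ≤ ((C * t ^ m : ℕ) : ℝ) := by exact_mod_cast hb.n_pos
  have ht : (1 : ℝ) ≤ (t : ℝ) := by exact_mod_cast hb.t_pos
  obtain ⟨hR0, f1, f2, f3, f4, f5, hρ0⟩ := hb.facts h hN
  have hbig := hb.big0
  set R := √(N t : ℝ) with hR
  set n := ((C * t ^ m : ℕ) : ℝ) with hn'
  set ρ := rho N d t with hρ
  have ht0 : (0 : ℝ) < t := by linarith
  have hnn : n ≤ n ^ 2 := by nlinarith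
  have htt : (t : ℝ) ≤ (t : ℝ) ^ 2 := by nlinarith
  have hAA : (A : ℝ) ≤ (A : ℝ) ^ 2 := by nlinarith
  -- `400 A² n t ≤ R`
  have hb1 : 400 * (A : ℝ) ^ 2 * n * t ≤ R := by
    refine le_trans ?_ hbig
    gcongr
  -- small terms
  have hfar : ∀ s ≤ SL C m t, (∀ (a : ℤ) (q : ℕ), ¬ Fr s ρ θ a q) →
      ‖tm p N d t s θ‖ ≤ 2 * A / R := by
    intro s _ hs2
    unfold tm
    split_ifs with h1 h2
    · have h3 := far_term (p := p) (hb.facts2 h hN h1).1 hρ0 (θ := θ) (fun a q hF => by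
        by_contra hcon
        exact hs2 a q ⟨hF.1, hF.2.1, hF.2.2.1, (not_le.1 hcon).le⟩)
      refine h3.trans ?_
      have h4 : 0 < (p (N t) : ℝ) * ρ := lt_of_lt_of_le (by positivity) f4
      rw [div_le_div_iff₀ h4 hR0]
      rw [div_le_iff₀ (by linarith)] at f4
      linarith
    · obtain ⟨x, hx⟩ := h2
      exact absurd hx (hs2 x.1 x.2)
    · rw [norm_zero]
      positivity
  have hcount : ((SL C m t + 1 : ℕ) : ℝ) * (2 * A / R) ≤ 1 / t := by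
    have h1 : ((SL C m t + 1 : ℕ) : ℝ) ≤ 2 * n := by
      have h2 : SL C m t + 1 ≤ C * t ^ m + 1 := Nat.succ_le_succ (clog_le_self' _)
      have h3 : ((SL C m t + 1 : ℕ) : ℝ) ≤ n + 1 := by rw [hn']; exact_mod_cast h2
      linarith
    calc ((SL C m t + 1 : ℕ) : ℝ) * (2 * A / R) ≤ (2 * n) * (2 * A / R) := by gcongr
      _ ≤ 1 / t := by
        rw [← mul_div_assoc, div_le_div_iff₀ hR0 ht0]
        have : 0 ≤ (A : ℝ) * n * t := by positivity
        nlinarith [mul_le_mul_of_nonneg_right hAA (by positivity : 0 ≤ n * (t : ℝ))]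
  by_cases hA' : ∃ s₀ ≤ SL C m t, ∃ (a : ℤ) (q : ℕ), Fr s₀ ρ θ a q
  · obtain ⟨s₀, hs₀, a, q, hF⟩ := hA'
    have hmem : s₀ ∈ range (SL C m t + 1) := mem_range.2 (by omega)
    rw [← add_sum_erase _ _ hmem]
    have h1 : ‖∑ s ∈ (range (SL C m t + 1)).erase s₀, tm p N d t s θ‖ ≤ 1 / t := by
      refine (sum_small _ _ (SL C m t + 1) ((card_erase_le).trans (by rw [card_range]))
        (by positivity) fun s hs => ?_).trans hcount
      have hs' := mem_range.1 (mem_of_mem_erase hs)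
      refine hfar s (by omega) fun a' q' hF' => ?_
      exact (ne_of_mem_erase hs) (hb.unique h hN (by omega) hs₀ hF' hF)
    have h2 : ‖wa p (N t) θ - tm p N d t s₀ θ‖ ≤ 2 / t := by
      unfold tm
      split_ifs with h3 h4
      · obtain ⟨g1, g2, g3⟩ := hb.facts2 h hN h3
        have hFI : Fr s₀ (rI s₀) θ a q := hF.mono g2
        rw [gam_eq hFI (rI_le s₀)]
        rw [DK_int _ _ q hF.1 (dvd_QQ hF.1 hF.le) a θ]
        set β := θ - a / q with hβ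
        have hβρ : |β| ≤ ρ := hF.2.2.2
        have e1 : θ = (a : ℝ) / q + β := by rw [hβ]; ring
        have h5 := major h (hN.pos t) hF.1 a β
        rw [← e1] at h5
        have h6 := DK_cmp (QQ_pos s₀) (X := p (N t)) (by omega) β
        have e2 : wa p (N t) θ - GS p q a * DK (p (N t) / QQ s₀) (QQ s₀ * β) =
            (wa p (N t) θ - GS p q a * DK (p (N t)) β) +
            GS p q a * (DK (p (N t)) β - DK (p (N t) / QQ s₀) (QQ s₀ * β)) := by ring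
        rw [e2]
        have hq : (q : ℝ) ≤ 2 * n := by
          have h7 : (q : ℝ) ≤ 2 ^ s₀ := by exact_mod_cast hF.le
          exact h7.trans (hb.facts3 h hN hs₀).1
        have hN1 : 1 / (N t : ℝ) + |β| * (N t : ℝ) ^ (d - 1) ≤ 2 / R := by
          have h8 : |β| * (N t : ℝ) ^ (d - 1) ≤ 1 / R := by
            rw [← f2]
            gcongr
          calc _ ≤ 1 / R + 1 / R := add_le_add f1 h8
            _ = 2 / R := by ring
        have h9 : 40 * (A : ℝ) ^ 2 * q * (1 / (N t : ℝ) + |β| * (N t : ℝ) ^ (d - 1)) ≤ 1 / t := by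
          calc _ ≤ 40 * (A : ℝ) ^ 2 * (2 * n) * (2 / R) := by gcongr
            _ ≤ 1 / t := by
              rw [← mul_div_assoc, div_le_div_iff₀ hR0 ht0]
              have : 0 ≤ (A : ℝ) ^ 2 * n * t := by positivity
              linarith
        have hX0 : (0 : ℝ) < p (N t) := lt_of_lt_of_le hR0 f5
        have h10 : ‖DK (p (N t)) β - DK (p (N t) / QQ s₀) (QQ s₀ * β)‖ ≤ 1 / t := by
          refine h6.trans ?_
          have hQ0 : (0 : ℝ) ≤ QQ s₀ := Nat.cast_nonneg _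
          have := Real.pi_le_four
          have hβR : |β| ≤ 1 / R := hβρ.trans f3
          calc 2 * Real.pi * (QQ s₀ * |β|) + 2 * (QQ s₀ / p (N t)) ≤
              2 * 4 * (QQ s₀ * (1 / R)) + 2 * (QQ s₀ / R) := by gcongr
            _ = 10 * QQ s₀ / R := by ring
            _ ≤ 1 / t := by
              rw [div_le_div_iff₀ hR0 ht0]
              rw [le_div_iff₀ (by positivity)] at g3
              nlinarith
        refine (norm_add_le _ _).trans ?_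
        rw [norm_mul]
        have h11 := GS_norm_le (p := p) q a
        calc _ ≤ 1 / (t : ℝ) + 1 * (1 / t) := by
              refine add_le_add (h5.trans h9) ?_
              gcongr
          _ = 2 / t := by ring
      · rw [sub_self, norm_zero]
        positivity
      · exact absurd ⟨(a, q), hF⟩ h4
    calc _ = ‖(wa p (N t) θ - tm p N d t s₀ θ) -
          ∑ s ∈ (range (SL C m t + 1)).erase s₀, tm p N d t s θ‖ := by congr 1; ring
      _ ≤ 2 / t + 1 / t := (norm_sub_le _ _).trans (add_le_add h2 h1)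
      _ = 3 / t := by ring
  · push Not at hA'
    have h1 : ‖∑ s ∈ range (SL C m t + 1), tm p N d t s θ‖ ≤ 1 / t := by
      refine (sum_small _ _ (SL C m t + 1) (by rw [card_range])
        (by positivity) fun s hs => ?_).trans hcount
      have hs' := mem_range.1 hs
      exact hfar s (by omega) (hA' s (by omega))
    have h2 : ‖wa p (N t) θ‖ ≤ 1 / t := by
      by_contra hcon
      push Not at hcon
      have h3 : 1 ≤ (t : ℝ) * ‖wa p (N t) θ‖ := by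
        rw [div_lt_iff₀ ht0] at hcon
        linarith
      obtain ⟨q, hq1, hq2, a, ha⟩ := hmin (N t) t θ (hN.pos t) ht h3
      obtain ⟨a', q', hq'1, hq'2, hcop, heq⟩ := reduce a hq1
      have e1 : ((C : ℝ) * (t : ℝ) ^ m) = n := by rw [hn']; push_cast; ring
      rw [e1] at hq2 ha
      rw [heq] at ha
      have h4 : Fr (Nat.clog 2 q') ρ θ a' q' := by
        refine ⟨hq'1, rfl, hcop, ha.trans ?_⟩
        rw [hρ]
        unfold rho
        have h5 : n ≤ R := by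
          refine le_trans ?_ hb1
          have : (1 : ℝ) ≤ (A : ℝ) ^ 2 := one_le_pow₀ hA
          calc n ≤ 400 * 1 * n * 1 := by linarith
            _ ≤ 400 * (A : ℝ) ^ 2 * n * t := by gcongr
        gcongr
      have h5 : Nat.clog 2 q' ≤ SL C m t := by
        unfold SL
        refine Nat.clog_mono_right 2 (hq'2.trans ?_)
        have : (q : ℝ) ≤ ((C * t ^ m : ℕ) : ℝ) := hq2
        exact_mod_cast this
      exact hA' _ h5 a' q' h4
    calc _ ≤ 1 / (t : ℝ) + 1 / t := (norm_sub_le _ _).trans (add_le_add h2 h1)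
      _ ≤ 3 / t := by
        have : 0 ≤ 1 / (t : ℝ) := by positivity
        have e : 3 / (t : ℝ) = 1 / t + 1 / t + 1 / t := by ring
        linarith

end Pool.Agent.Zk89.BT
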