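import Pool.Agent.Zk89.BT.Dom
import Pool.Agent.H276R2.Th.Lib1
import Pool.Agent.H373R2.NB.Weyl

/-!
# Fourier multipliers on a finite cyclic group
-/

set_option autoImplicit false
set_option linter.unusedSectionVars false

open Finset

noncomputable section

namespace Pool.Agent.Zk89.BT

open Pool.Agent.H276R2.Th (ch fc fc_inv fc_sum_ch fc_add fc_sub fc_mul ch_add)
open Pool.Agent.Helper602.MK (ee)
open Pool.Agent.Helper602.MK.N_J5b (ee_add ee_zero ee_conj norm_ee ee_int ee_nat_mul)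

variable {M : ℕ} [NeZero M] {ι : Type*}

/-- the frequency -/
def th (k : ZMod M) : ℝ := (k.val : ℝ) / M

/-- the `L²` norm -/
def nrm (f : ZMod M → ℂ) : ℝ := √(∑ x, ‖f x‖ ^ 2)

theorem nrm_nonneg (f : ZMod M → ℂ) : 0 ≤ nrm f := Real.sqrt_nonneg _

theorem nrm_sq (f : ZMod M → ℂ) : nrm f ^ 2 = ∑ x, ‖f x‖ ^ 2 :=
  Real.sq_sqrt (sum_nonneg fun _ _ => sq_nonneg _)

theorem ch_nat (k : ZMod M) (j : ℕ) : ch M (k * (j : ZMod M)) = ee (j * th k) := by
  have h1 : k * (j : ZMod M) = ((k.val * j : ℕ) : ZMod M) := by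
    push_cast
    rw [ZMod.natCast_zmod_val]
  have h2 : ch M ((k.val * j : ℕ) : ZMod M) = Complex.exp (2 * Real.pi * Complex.I *
      ((k.val * j : ℕ) : ℂ) / M) := by
    have := ZMod.stdAddChar_coe (N := M) ((k.val * j : ℕ) : ℤ)
    push_cast at this ⊢
    unfold ch
    exact this
  rw [h1, h2]
  unfold ee th
  congr 1
  push_cast
  ring

/-- the multiplier operator -/
def ml (m f : ZMod M → ℂ) (x : ZMod M) : ℂ := ∑ k, m k * fc f k * ch M (k * x)

theorem fc_ml (m f : ZMod M → ℂ) (k : ZMod M) : fc (ml m f) k = m k * fc f k := by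
  unfold ml
  exact fc_sum_ch (fun k => m k * fc f k) k

theorem ml_one (f : ZMod M → ℂ) (x : ZMod M) : ml (fun _ => 1) f x = f x := by
  unfold ml
  simp only [one_mul]
  exact fc_inv f x

theorem ml_mul (m m' f : ZMod M → ℂ) (x : ZMod M) :
    ml m (ml m' f) x = ml (fun k => m k * m' k) f x := by
  unfold ml
  refine sum_congr rfl fun k _ => ?_
  rw [show fc (fun x => ∑ k, m' k * fc f k * ch M (k * x)) k = m' k * fc f k from fc_ml m' f k]
  ring

theorem ml_add (m m' f : ZMod M → ℂ) (x : ZMod M) :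
    ml (fun k => m k + m' k) f x = ml m f x + ml m' f x := by
  unfold ml
  rw [← sum_add_distrib]
  refine sum_congr rfl fun k _ => by ring

theorem ml_sub (m m' f : ZMod M → ℂ) (x : ZMod M) :
    ml (fun k => m k - m' k) f x = ml m f x - ml m' f x := by
  unfold ml
  rw [← sum_sub_distrib]
  refine sum_congr rfl fun k _ => by ring

theorem ml_smul (c : ℂ) (m f : ZMod M → ℂ) (x : ZMod M) :
    ml (fun k => c * m k) f x = c * ml m f x := by
  unfold ml
  rw [mul_sum]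
  refine sum_congr rfl fun k _ => by ring

theorem ml_sum (J : Finset ι) (m : ι → ZMod M → ℂ) (f : ZMod M → ℂ) (x : ZMod M) :
    ml (fun k => ∑ i ∈ J, m i k) f x = ∑ i ∈ J, ml (m i) f x := by
  unfold ml
  rw [sum_comm]
  refine sum_congr rfl fun k _ => ?_
  rw [sum_mul, sum_mul]

theorem ml_shift (f : ZMod M → ℂ) (j : ℕ) (x : ZMod M) :
    f (x + j) = ml (fun k => ee (j * th k)) f x := by
  unfold ml
  rw [← fc_inv f (x + j)]
  refine sum_congr rfl fun k _ => ?_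
  rw [mul_add, ch_add, ch_nat]
  ring

theorem ml_norm (m f : ZMod M → ℂ) :
    ∑ x, ‖ml m f x‖ ^ 2 = M * ∑ k, ‖m k‖ ^ 2 * ‖fc f k‖ ^ 2 := by
  rw [Pool.Agent.H276R2.Th.parseval]
  congr 1
  refine sum_congr rfl fun k _ => ?_
  rw [fc_ml, norm_mul, mul_pow]

theorem ml_sq_sum (S : Finset ι) (m : ι → ZMod M → ℂ) (f : ZMod M → ℂ) {C : ℝ}
    (h : ∀ k, ∑ i ∈ S, ‖m i k‖ ^ 2 ≤ C ^ 2) :
    ∑ i ∈ S, ∑ x, ‖ml (m i) f x‖ ^ 2 ≤ (C * nrm f) ^ 2 := by
  have h1 : ∑ i ∈ S, ∑ x, ‖ml (m i) f x‖ ^ 2 =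
      M * ∑ k, (∑ i ∈ S, ‖m i k‖ ^ 2) * ‖fc f k‖ ^ 2 := by
    simp only [ml_norm]
    rw [← mul_sum, sum_comm]
    congr 1
    refine sum_congr rfl fun k _ => ?_
    rw [sum_mul]
  rw [h1, mul_pow, nrm_sq, Pool.Agent.H276R2.Th.parseval, mul_left_comm]
  refine mul_le_mul_of_nonneg_left ?_ (Nat.cast_nonneg _)
  rw [mul_sum]
  exact sum_le_sum fun k _ => mul_le_mul_of_nonneg_right (h k) (sq_nonneg _)

theorem ml_bound (m f : ZMod M → ℂ) {C : ℝ} (hC : 0 ≤ C) (h : ∀ k, ‖m k‖ ≤ C) :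
    ∑ x, ‖ml m f x‖ ^ 2 ≤ (C * nrm f) ^ 2 := by
  have h1 := ml_sq_sum ({()} : Finset Unit) (fun _ => m) f (C := C) (fun k => by
    rw [sum_singleton]
    exact pow_le_pow_left₀ (norm_nonneg _) (h k) 2)
  rwa [sum_singleton] at h1

theorem nrm_ml (m f : ZMod M → ℂ) {C : ℝ} (hC : 0 ≤ C) (h : ∀ k, ‖m k‖ ≤ C) :
    nrm (ml m f) ≤ C * nrm f := by
  unfold nrm
  refine Real.sqrt_le_iff.2 ⟨mul_nonneg hC (Real.sqrt_nonneg _), ?_⟩
  exact ml_bound m f hC h

theorem dom_sq (S : Finset ι) (m : ι → ZMod M → ℂ) (f : ZMod M → ℂ) {C : ℝ}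
    (h : ∀ k, ∑ i ∈ S, ‖m i k‖ ^ 2 ≤ C ^ 2) :
    Dom (S : Set ι) (fun i => ml (m i) f) (C * nrm f) :=
  Dom.of_sq S (ml_sq_sum S m f h)

/-- **Rademacher-Menshov for nested projections.** -/
theorem dom_rm (g f : ZMod M → ℂ) {C : ℝ} (hC : 0 ≤ C) (hg : ∀ k, ‖g k‖ ≤ C)
    (Ω : ℕ → ZMod M → Prop) [∀ t k, Decidable (Ω t k)] (hΩ : ∀ t k, Ω (t + 1) k → Ω t k)
    (u : ℕ) :
    Dom {t : ℕ | t ≤ 2 ^ u} (fun t => ml (fun k => if Ω t k then g k else 0) f)
      (C * (u + 2) * nrm f) := by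
  let d : ℕ → ZMod M → ℝ := fun i k => (if Ω i k then 1 else 0) - (if Ω (i + 1) k then 1 else 0)
  have hd : ∀ i k, d i k = 0 ∨ d i k = 1 := by
    intro i k
    simp only [d]
    by_cases h1 : Ω i k
    · by_cases h2 : Ω (i + 1) k
      · left; simp [h1, h2]
      · right; simp [h1, h2]
    · have h2 : ¬ Ω (i + 1) k := fun h => h1 (hΩ i k h)
      left; simp [h1, h2]
  have hds : ∀ s n k, ∑ i ∈ Ico s (s + n), d i k =
      (if Ω s k then 1 else 0) - (if Ω (s + n) k then 1 else 0) := by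
    intro s n k
    induction n with
    | zero => simp
    | succ n ih =>
      rw [← add_assoc, sum_Ico_succ_top (by omega), ih]
      simp only [d]
      ring
  have hnest : ∀ s n k, Ω (s + n) k → Ω s k := by
    intro s n
    induction n with
    | zero => intro k h; exact h
    | succ n ih => intro k h; exact ih k (hΩ _ k h)
  have hds1 : ∀ s n k, (∑ i ∈ Ico s (s + n), d i k) ^ 2 = ∑ i ∈ Ico s (s + n), d i k := by
    intro s n k
    rw [hds]
    by_cases h1 : Ω s k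
    · by_cases h2 : Ω (s + n) k
      · simp [h1, h2]
      · simp [h1, h2]
    · have h2 : ¬ Ω (s + n) k := fun h => h1 (hnest s n k h)
      simp [h1, h2]
  have hd2 : ∀ i k, d i k ^ 2 = d i k := by
    intro i k
    rcases hd i k with h | h <;> rw [h] <;> norm_num
  let b : ℕ → ZMod M → ℂ := fun i => ml (fun k => (d i k : ℂ) * g k) f
  have hbsum : ∀ s n x, ∑ i ∈ Ico s (s + n), b i x =
      ml (fun k => ((∑ i ∈ Ico s (s + n), d i k : ℝ) : ℂ) * g k) f x := by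
    intro s n x
    rw [← ml_sum]
    congr 1
    funext k
    push_cast
    rw [sum_mul]
  have horth : ∀ s n : ℕ, ∑ x, ‖∑ i ∈ Ico s (s + n), b i x‖ ^ 2 =
      ∑ i ∈ Ico s (s + n), ∑ x, ‖b i x‖ ^ 2 := by
    intro s n
    simp only [hbsum, b, ml_norm]
    rw [← mul_sum, sum_comm]
    congr 1
    refine sum_congr rfl fun k _ => ?_
    rw [← sum_mul]
    congr 1
    rw [norm_mul, mul_pow, Complex.norm_real, Real.norm_eq_abs, sq_abs, hds1, sum_mul]
    refine sum_congr rfl fun i _ => ?_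
    rw [norm_mul, mul_pow, Complex.norm_real, Real.norm_eq_abs, sq_abs, hd2]
  obtain ⟨h, h1, h2, h3⟩ := rm b (fun s n => (horth s n).le) u 0
  have h4 : Dom {t : ℕ | t ≤ 2 ^ u} (fun t x => ∑ i ∈ Ico 0 (0 + t), b i x)
      ((u + 1) * (C * nrm f)) := by
    refine ⟨h, h1, fun t ht x => h2 t ht x, h3.trans ?_⟩
    rw [mul_pow]
    refine mul_le_mul_of_nonneg_left ?_ (sq_nonneg _)
    rw [← horth]
    simp only [hbsum]
    refine ml_bound _ f hC fun k => ?_
    rw [norm_mul, Complex.norm_real, Real.norm_eq_abs, hds]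
    have h5 : |(if Ω 0 k then (1 : ℝ) else 0) - (if Ω (0 + 2 ^ u) k then 1 else 0)| ≤ 1 := by
      split_ifs <;> norm_num
    calc _ ≤ 1 * ‖g k‖ := mul_le_mul_of_nonneg_right h5 (norm_nonneg _)
      _ ≤ C := by rw [one_mul]; exact hg k
  have h5 : Dom {t : ℕ | t ≤ 2 ^ u}
      (fun (_ : ℕ) => ml (fun k => if Ω 0 k then g k else 0) f) (C * nrm f) := by
    refine ⟨fun x => ‖ml (fun k => if Ω 0 k then g k else 0) f x‖, fun x => norm_nonneg _,
      fun _ _ x => le_rfl, ml_bound _ f hC fun k => ?_⟩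
    split_ifs
    · exact hg k
    · simpa using hC
  have h6 := h5.sub h4 (mul_nonneg hC (nrm_nonneg f))
    (mul_nonneg (by positivity) (mul_nonneg hC (nrm_nonneg f)))
  have h7 : C * nrm f + (u + 1) * (C * nrm f) = C * (u + 2) * nrm f := by ring
  rw [h7] at h6
  refine h6.congr fun t _ x => ?_
  rw [hbsum, ← ml_sub]
  congr 1
  funext k
  rw [hds]
  by_cases h8 : Ω 0 k
  · by_cases h9 : Ω t k
    · simp [h8, h9]
    · simp [h8, h9]
  · have h9 : ¬ Ω t k := by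
      intro h
      apply h8
      apply hnest 0 t k
      rwa [zero_add]
    simp [h8, h9]

end Pool.Agent.Zk89.BT
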