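import Pool.Agent.Zk89.BT.Seq

/-!
# Fractions of a given level
-/

set_option autoImplicit false
set_option linter.unusedSectionVars false

open Finset

noncomputable section

namespace Pool.Agent.Zk89.BT

open Pool.Agent.Helper602.MK (ee)

/-- `a / q` is a reduced fraction of level `s` at distance at most `r` from `θ` -/
def Fr (s : ℕ) (r θ : ℝ) (a : ℤ) (q : ℕ) : Prop :=
  1 ≤ q ∧ Nat.clog 2 q = s ∧ IsCoprime a (q : ℤ) ∧ |θ - a / q| ≤ r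

theorem Fr.mono {s : ℕ} {r r' θ : ℝ} {a : ℤ} {q : ℕ} (h : Fr s r θ a q) (hr : r ≤ r') :
    Fr s r' θ a q := ⟨h.1, h.2.1, h.2.2.1, h.2.2.2.trans hr⟩

theorem Fr.le {s : ℕ} {r θ : ℝ} {a : ℤ} {q : ℕ} (h : Fr s r θ a q) : q ≤ 2 ^ s := by
  rw [← h.2.1]
  exact Nat.le_pow_clog (by norm_num) q

theorem Fr.ge {s : ℕ} {r θ : ℝ} {a : ℤ} {q : ℕ} (h : Fr s r θ a q) : 2 ^ s ≤ 2 * q := by
  rcases Nat.eq_zero_or_pos s with h0 | h0
  · subst h0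
    have := h.1
    omega
  · have h1 : 2 ^ (s - 1) < q := by
      rw [← h.2.1]
      refine Nat.pow_pred_clog_lt_self (by norm_num) ?_
      by_contra hcon
      have h2 : q = 1 := by
        have := h.1
        omega
      rw [h2] at h
      have := h.2.1
      rw [Nat.clog_one_right] at this
      omega
    have h2 : 2 ^ s = 2 * 2 ^ (s - 1) := by
      rw [← pow_succ', Nat.sub_add_cancel h0]
    omega

theorem frac_eq {a a' : ℤ} {q q' : ℕ} (hq : 1 ≤ q) (_hq' : 1 ≤ q') (h : IsCoprime a (q : ℤ))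
    (h' : IsCoprime a' (q' : ℤ)) (he : a * q' = a' * q) : a = a' ∧ q = q' := by
  have h1 : (q : ℤ) ∣ q' := (h.symm).dvd_of_dvd_mul_left ⟨a', by rw [he]; ring⟩
  have h2 : (q' : ℤ) ∣ q := (h'.symm).dvd_of_dvd_mul_left ⟨a, by rw [← he]; ring⟩
  have h3 : q = q' := Nat.dvd_antisymm (by exact_mod_cast h1) (by exact_mod_cast h2)
  refine ⟨?_, h3⟩
  subst h3
  have h4 : (q : ℤ) ≠ 0 := by
    have : q ≠ 0 := by omega
    exact_mod_cast this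
  exact mul_right_cancel₀ h4 he

/-- distinct fractions are far apart -/
theorem frac_far {a a' : ℤ} {q q' : ℕ} (hq : 1 ≤ q) (hq' : 1 ≤ q') (he : a * q' ≠ a' * q) :
    1 / ((q : ℝ) * q') ≤ |(a : ℝ) / q - a' / q'| := by
  have hq0 : (0 : ℝ) < q := by exact_mod_cast hq
  have hq'0 : (0 : ℝ) < q' := by exact_mod_cast hq'
  have h3 : (1 : ℝ) ≤ |(a : ℝ) * q' - a' * q| := by
    have h5 := Int.one_le_abs (sub_ne_zero.2 he)
    exact_mod_cast h5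
  have h4 : |(a : ℝ) / q - a' / q'| = |(a : ℝ) * q' - a' * q| / (q * q') := by
    rw [div_sub_div _ _ hq0.ne' hq'0.ne', abs_div, abs_of_pos (mul_pos hq0 hq'0),
      mul_comm (q : ℝ) (a' : ℝ)]
  rw [h4]
  gcongr

theorem Fr.unique {s s' : ℕ} {r r' θ : ℝ} {a a' : ℤ} {q q' : ℕ} (h : Fr s r θ a q)
    (h' : Fr s' r' θ a' q') (hr : (r + r') * (q * q') < 1) : a = a' ∧ q = q' := by
  refine frac_eq h.1 h'.1 h.2.2.1 h'.2.2.1 ?_
  by_contra hne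
  have h1 := frac_far h.1 h'.1 hne
  have h2 : |(a : ℝ) / q - a' / q'| ≤ r + r' := by
    have e : (a : ℝ) / q - a' / q' = (θ - a' / q') - (θ - a / q) := by ring
    rw [e]
    refine (abs_sub _ _).trans ?_
    linarith [h.2.2.2, h'.2.2.2]
  have hq0 : (0 : ℝ) < q := by exact_mod_cast h.1
  have hq'0 : (0 : ℝ) < q' := by exact_mod_cast h'.1
  have h3 := h1.trans h2
  rw [div_le_iff₀ (mul_pos hq0 hq'0)] at h3
  linarith

/-- uniqueness at the same level -/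
theorem Fr.unique' {s : ℕ} {r θ : ℝ} {a a' : ℤ} {q q' : ℕ} (h : Fr s r θ a q)
    (h' : Fr s r θ a' q') (hr : r ≤ 1 / (4 * 4 ^ s)) : a = a' ∧ q = q' := by
  refine h.unique h' ?_
  have h1 : (q : ℝ) ≤ 2 ^ s := by exact_mod_cast h.le
  have h2 : (q' : ℝ) ≤ 2 ^ s := by exact_mod_cast h'.le
  have h4 : (4 : ℝ) ^ s = 2 ^ s * 2 ^ s := by rw [← mul_pow]; norm_num
  have h5 : (0 : ℝ) < 4 ^ s := by positivity
  calc (r + r) * ((q : ℝ) * q') ≤ (1 / (4 * 4 ^ s) + 1 / (4 * 4 ^ s)) * (2 ^ s * 2 ^ s) := by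
        gcongr
    _ = 1 / 2 := by rw [← h4]; field_simp; norm_num
    _ < 1 := by norm_num

open Classical in
/-- the Gauss sum of the fraction of level `s` close to `θ` -/
def gam (p : ℕ → ℕ) (s : ℕ) (r θ : ℝ) : ℂ :=
  if h : ∃ x : ℤ × ℕ, Fr s r θ x.1 x.2 then GS p h.choose.2 h.choose.1 else 0

theorem gam_eq {p : ℕ → ℕ} {s : ℕ} {r θ : ℝ} {a : ℤ} {q : ℕ} (h : Fr s r θ a q)
    (hr : r ≤ 1 / (4 * 4 ^ s)) : gam p s r θ = GS p q a := by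
  unfold gam
  have h0 : ∃ x : ℤ × ℕ, Fr s r θ x.1 x.2 := ⟨(a, q), h⟩
  rw [dif_pos h0]
  obtain ⟨h1, h2⟩ := h0.choose_spec.unique' h hr
  rw [h1, h2]

theorem gam_zero {p : ℕ → ℕ} {s : ℕ} {r θ : ℝ} (h : ¬ ∃ x : ℤ × ℕ, Fr s r θ x.1 x.2) :
    gam p s r θ = 0 := by
  unfold gam
  rw [dif_neg h]

/-- the moduli -/
def QQ (s : ℕ) : ℕ := 4 ^ s * (2 ^ s).factorial

theorem QQ_pos (s : ℕ) : 0 < QQ s := by unfold QQ; positivity

theorem dvd_QQ {s q : ℕ} (hq : 1 ≤ q) (h : q ≤ 2 ^ s) : q ∣ QQ s :=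
  dvd_mul_of_dvd_right (Nat.dvd_factorial hq h) _

theorem QQ_ge (s : ℕ) : 4 ^ s ≤ QQ s := Nat.le_mul_of_pos_right _ (Nat.factorial_pos _)

theorem QQ_mono {s s' : ℕ} (h : s ≤ s') : QQ s ≤ QQ s' := by
  unfold QQ
  exact Nat.mul_le_mul (Nat.pow_le_pow_right (by norm_num) h)
    (Nat.factorial_le (Nat.pow_le_pow_right (by norm_num) h))

/-- the radius of level `s` -/
def rI (s : ℕ) : ℝ := 1 / (4 * QQ s)

theorem rI_pos (s : ℕ) : 0 < rI s := by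
  have : (0 : ℝ) < QQ s := by exact_mod_cast QQ_pos s
  unfold rI
  positivity

theorem rI_le (s : ℕ) : rI s ≤ 1 / (4 * 4 ^ s) := by
  unfold rI
  have h1 : ((4 : ℝ) ^ s) ≤ QQ s := by exact_mod_cast QQ_ge s
  have h2 : (0 : ℝ) < 4 ^ s := by positivity
  gcongr

variable {p : ℕ → ℕ} {d A : ℕ}

/-- Geometric decay of the Gauss sums in the level. -/
theorem gauss_level (h : PS p d A) : ∃ (C κ : ℝ), 1 ≤ C ∧ 1 / 2 ≤ κ ∧ κ < 1 ∧
    ∀ (s : ℕ) (r θ : ℝ) (a : ℤ) (q : ℕ), Fr s r θ a q → ‖GS p q a‖ ≤ C * κ ^ s := by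
  obtain ⟨C, m, hC, hm, hG⟩ := gauss h
  have hC1 : (1 : ℝ) ≤ C := by exact_mod_cast hC
  have hm0 : (0 : ℝ) < m := by exact_mod_cast hm
  set κ : ℝ := (1 / 2 : ℝ) ^ ((m : ℝ)⁻¹) with hκ
  have hκ0 : 0 < κ := by rw [hκ]; positivity
  have hκm : κ ^ m = 1 / 2 := by
    rw [hκ, ← Real.rpow_natCast, ← Real.rpow_mul (by norm_num), inv_mul_cancel₀ hm0.ne',
      Real.rpow_one]
  have hκ1 : κ < 1 := by
    rw [hκ]
    exact Real.rpow_lt_one (by norm_num) (by norm_num) (by positivity)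
  have hκ2 : 1 / 2 ≤ κ := by
    rw [← hκm]
    calc κ ^ m ≤ κ ^ 1 := pow_le_pow_of_le_one hκ0.le hκ1.le hm
      _ = κ := pow_one _
  refine ⟨2 * C, κ, by linarith, hκ2, hκ1, fun s r θ a q hF => ?_⟩
  have h1 := hG q a hF.1 hF.2.2.1
  have h2 : (2 : ℝ) ^ s ≤ 2 * q := by exact_mod_cast hF.ge
  have h3 : ‖GS p q a‖ ^ m ≤ (2 * C * κ ^ s) ^ m := by
    have h4 : (2 * C * κ ^ s) ^ m = (2 * (C : ℝ)) ^ m * (1 / 2) ^ s := by
      rw [mul_pow, ← pow_mul, mul_comm s m, pow_mul, hκm]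
    rw [h4]
    have h5 : 2 * (C : ℝ) ≤ (2 * (C : ℝ)) ^ m := le_self_pow₀ (by linarith) (by omega)
    have h6 : (2 : ℝ) ^ s * ‖GS p q a‖ ^ m ≤ 2 * C := by
      calc (2 : ℝ) ^ s * ‖GS p q a‖ ^ m ≤ (2 * q) * ‖GS p q a‖ ^ m := by gcongr
        _ = 2 * (q * ‖GS p q a‖ ^ m) := by ring
        _ ≤ 2 * C := by linarith
    have h7 : ‖GS p q a‖ ^ m ≤ 2 * C * (1 / 2) ^ s := by
      rw [one_div, inv_pow, ← div_eq_mul_inv, le_div_iff₀ (by positivity), mul_comm]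
      exact h6
    refine h7.trans ?_
    gcongr
  exact le_of_pow_le_pow_left₀ (by omega) (by positivity) h3

theorem gam_norm {C κ : ℝ} (hC : 0 ≤ C) (hκ : 0 ≤ κ)
    (hG : ∀ (s : ℕ) (r θ : ℝ) (a : ℤ) (q : ℕ), Fr s r θ a q → ‖GS p q a‖ ≤ C * κ ^ s)
    (s : ℕ) (r θ : ℝ) : ‖gam p s r θ‖ ≤ C * κ ^ s := by
  unfold gam
  split_ifs with h
  · exact hG s r θ _ _ h.choose_spec
  · rw [norm_zero]; positivity

end Pool.Agent.Zk89.BT
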