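import Pool.Agent.Zk89.BT.Poly
import Pool.Agent.W761.Box.Dz
import Pool.Agent.Zk89.QM.Clos

/-!
# Single functions: polynomial sequences and products of one-parameter sequences
-/

set_option autoImplicit false
set_option linter.unusedSectionVars false

open Filter Topology MeasureTheory Polynomial

noncomputable section

namespace Pool.Agent.Zk89.BT

open Pool.Agent.W761.Box (bx bx_bound bx_nonneg bx_mono bx_abs bx_sub bx_succ bx_const_le)

variable {X : Type*} [MeasurableSpace X] {μ : Measure X} [IsProbabilityMeasure μ]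

/-- The one parameter family of maps `s n` is good for single bounded functions. -/
def G1 (μ : Measure X) (s : ℕ → X → X) : Prop :=
  ∀ H : X → ℝ, Measurable H → (∃ C : ℝ, ∀ x, |H x| ≤ C) → ∀ᵐ x ∂μ, ∃ L : ℝ,
    Tendsto (fun n : ℕ => (n : ℝ)⁻¹ * ∑ i ∈ Finset.range n, H (s i x)) atTop (𝓝 L)

/-- shifts of sequences -/
theorem shift_conv {a : ℕ → ℝ} (c : ℕ) {L : ℝ}
    (h : Tendsto (fun n : ℕ => (n : ℝ)⁻¹ * ∑ i ∈ Finset.range n, a (c + i)) atTop (𝓝 L)) :
    Tendsto (fun n : ℕ => (n : ℝ)⁻¹ * ∑ i ∈ Finset.range n, a i) atTop (𝓝 L) := by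
  rw [← tendsto_add_atTop_iff_nat c]
  have h1 : Tendsto (fun n : ℕ => (n : ℝ) / ((n + c : ℕ) : ℝ)) atTop (𝓝 1) := by
    have h2 : Tendsto (fun n : ℕ => 1 - (c : ℝ) / ((n + c : ℕ) : ℝ)) atTop (𝓝 (1 - 0)) := by
      refine tendsto_const_nhds.sub ?_
      exact (tendsto_const_div_atTop_nhds_zero_nat (c : ℝ)).comp (tendsto_add_atTop_nat c)
    rw [sub_zero] at h2
    refine h2.congr' ?_
    filter_upwards [eventually_ge_atTop 1] with n hn
    have : ((n + c : ℕ) : ℝ) ≠ 0 := by
      have : n + c ≠ 0 := by omega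
      exact_mod_cast this
    field_simp
    push_cast
    ring
  have h3 : Tendsto (fun n : ℕ => (∑ i ∈ Finset.range c, a i) / ((n + c : ℕ) : ℝ)) atTop
      (𝓝 0) := (tendsto_const_div_atTop_nhds_zero_nat _).comp (tendsto_add_atTop_nat c)
  have h4 := (h1.mul h).add h3
  rw [one_mul, add_zero] at h4
  refine h4.congr' ?_
  filter_upwards [eventually_ge_atTop 1] with n hn
  have hn0 : (n : ℝ) ≠ 0 := by
    have : n ≠ 0 := by omega
    exact_mod_cast this
  have hnc : ((n + c : ℕ) : ℝ) ≠ 0 := by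
    have : n + c ≠ 0 := by omega
    exact_mod_cast this
  have e : ∑ i ∈ Finset.range (n + c), a i = ∑ i ∈ Finset.range c, a i +
      ∑ i ∈ Finset.range n, a (c + i) := by
    rw [add_comm n c, Finset.sum_range_add]
  rw [e]
  field_simp
  ring

section group

variable {G : Type*} [Group G] {Φ : G →* Equiv.Perm X}

theorem perm_iter (Φ : G →* Equiv.Perm X) (h : G) (n : ℕ) (x : X) :
    (Φ h : X → X)^[n] x = Φ (h ^ n) x := by
  rw [map_pow, ← Equiv.Perm.coe_pow]

/-- positive leading coefficient -/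
theorem good_LP (hmp : ∀ g, MeasurePreserving (Φ g) μ μ) (h : G) (P : ℤ[X]) {d : ℕ}
    (hd : 1 ≤ d) (hP : LP d P) : G1 μ (fun n : ℕ => (Φ (h ^ (P.eval (n : ℤ))) : X → X)) := by
  obtain ⟨c, A, hPS⟩ := exists_PS P d hd hP
  intro H hH ⟨C, hC⟩
  set K : ℝ := |C| + 1 with hK
  have hK0 : 0 < K := by positivity
  set g₀ := h ^ (P.eval (c : ℤ)) with hg₀
  have h1 := bourgain_ps (μ := μ) hPS (hmp h) (H := fun x => K⁻¹ * H (Φ g₀ x))
    ((hH.comp (hmp g₀).measurable).const_mul _) (fun x => by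
      rw [abs_mul, abs_of_pos (inv_pos.2 hK0), inv_mul_le_iff₀ hK0, mul_one]
      exact (hC _).trans ((le_abs_self C).trans (by linarith)))
  filter_upwards [h1] with x hx
  obtain ⟨l, hl⟩ := hx
  refine ⟨K * l, shift_conv c ?_⟩
  refine (hl.const_mul K).congr fun n => ?_
  rw [mul_left_comm, Finset.mul_sum]
  congr 1
  refine Finset.sum_congr rfl fun i _ => ?_
  rw [mul_inv_cancel_left₀ hK0.ne', perm_iter, ← Equiv.Perm.mul_apply, ← map_mul]
  congr 3
  have hmono : P.eval (c : ℤ) ≤ P.eval ((i + c : ℕ) : ℤ) := by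
    by_contra hcon
    push Not at hcon
    have h2 : ∀ j : ℕ, i ≤ j → (P.eval ((j + c : ℕ) : ℤ) - P.eval (c : ℤ)).toNat ≥
        (P.eval ((i + c : ℕ) : ℤ) - P.eval (c : ℤ)).toNat := fun j hj =>
      hPS.strictMono.monotone hj
    rcases Nat.eq_zero_or_pos i with h0 | h0
    · subst h0
      simp at hcon
    · have h3 := hPS.pos h0
      have h4 : (P.eval ((i + c : ℕ) : ℤ) - P.eval (c : ℤ)).toNat = 0 :=
        Int.toNat_of_nonpos (by linarith)
      omega
  have h5 : (((P.eval ((i + c : ℕ) : ℤ) - P.eval (c : ℤ)).toNat : ℕ) : ℤ) =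
      P.eval ((i + c : ℕ) : ℤ) - P.eval (c : ℤ) := Int.toNat_of_nonneg (by linarith)
  rw [hg₀, ← zpow_natCast, h5, ← zpow_add]
  congr 1
  rw [add_comm c i]
  ring

/-- **Bourgain's theorem** for bounded functions. -/
theorem good_poly (hmp : ∀ g, MeasurePreserving (Φ g) μ μ) (h : G) (P : ℤ[X]) :
    G1 μ (fun n : ℕ => (Φ (h ^ (P.eval (n : ℤ))) : X → X)) := by
  rcases Nat.eq_zero_or_pos P.natDegree with h0 | h0
  · obtain ⟨c, rfl⟩ : ∃ c, P = C c := ⟨P.coeff 0, eq_C_of_natDegree_eq_zero h0⟩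
    intro H hH _
    refine Eventually.of_forall fun x => ⟨H (Φ (h ^ c) x), ?_⟩
    refine tendsto_const_nhds.congr' ?_
    filter_upwards [eventually_ge_atTop 1] with n hn
    have hn0 : (n : ℝ) ≠ 0 := by
      have : n ≠ 0 := by omega
      exact_mod_cast this
    simp only [eval_C, Finset.sum_const, Finset.card_range, nsmul_eq_mul]
    rw [inv_mul_cancel_left₀ hn0]
  · rcases lt_trichotomy P.leadingCoeff 0 with h1 | h1 | h1
    · have h2 : LP P.natDegree (-P) := by
        refine ⟨by rw [natDegree_neg], ?_⟩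
        rw [coeff_neg]
        have : P.coeff P.natDegree = P.leadingCoeff := rfl
        rw [this]
        linarith
      have h3 := good_LP (μ := μ) (Φ := Φ) hmp h⁻¹ (-P) h0 h2
      have e : (fun n : ℕ => (Φ (h⁻¹ ^ ((-P).eval (n : ℤ))) : X → X)) =
          fun n : ℕ => (Φ (h ^ (P.eval (n : ℤ))) : X → X) := by
        funext n
        rw [eval_neg, inv_zpow, zpow_neg, inv_inv]
      rwa [e] at h3
    · rw [leadingCoeff_eq_zero] at h1
      rw [h1] at h0
      simp at h0
    · exact good_LP hmp h P h0 ⟨le_rfl, h1⟩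

end group

/-! ### Products -/

/-- the orbit map of `k` one-parameter families -/
def gorb : (k : ℕ) → (Fin k → ℕ → X → X) → (Fin k → ℕ) → X → X
  | 0, _, _, x => x
  | k + 1, σ, m, x => σ 0 (m 0) (gorb k (Fin.tail σ) (Fin.tail m) x)

omit [IsProbabilityMeasure μ] in
theorem gorb_mp : ∀ (k : ℕ) (σ : Fin k → ℕ → X → X)
    (_ : ∀ j n, MeasurePreserving (σ j n) μ μ)
    (m : Fin k → ℕ), MeasurePreserving (gorb k σ m) μ μ
  | 0, _, _, _ => MeasurePreserving.id μ
  | k + 1, σ, hσ, m => by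
    have h1 := gorb_mp k (Fin.tail σ) (fun j => hσ _) (Fin.tail m)
    exact (hσ 0 (m 0)).comp h1

/-- **Products of good one-parameter families**, unrestricted boxes. -/
theorem gdz : ∀ (k : ℕ) (σ : Fin k → ℕ → X → X) (_ : ∀ j n, MeasurePreserving (σ j n) μ μ)
    (_ : ∀ j, G1 μ (σ j)) (F : X → ℝ) (_ : Measurable F) (C : ℝ) (_ : ∀ x, |F x| ≤ C),
    ∀ᵐ x ∂μ, ∃ L : ℝ, Tendsto (fun N => bx k N (fun m => F (gorb k σ m x))) atTop (𝓝 L) := by
  intro k
  induction k with
  | zero =>
    intro σ _ _ F _ C _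
    refine Eventually.of_forall fun x => ⟨F x, ?_⟩
    refine Tendsto.congr (fun N => ?_) (tendsto_const_nhds (x := F x))
    simp [bx, gorb]
  | succ k ih =>
    intro σ hσ hgood F hF C hC
    by_cases hne : Nonempty X
    swap
    · filter_upwards with x
      exact absurd ⟨x⟩ hne
    obtain ⟨x₀⟩ := hne
    have hC0 : 0 ≤ C := (abs_nonneg _).trans (hC x₀)
    have hB := hgood 0 F hF ⟨C, hC⟩
    let Fn : ℕ → X → ℝ := fun n x => (n : ℝ)⁻¹ * ∑ i ∈ Finset.range n, F (σ 0 i x)
    have hFnm : ∀ n, Measurable (Fn n) := fun n =>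
      (Finset.measurable_fun_sum _ fun i _ => hF.comp (hσ 0 i).measurable).const_mul _
    have hFnb : ∀ n x, |Fn n x| ≤ C := by
      intro n x
      show |(n : ℝ)⁻¹ * ∑ i ∈ Finset.range n, F (σ 0 i x)| ≤ C
      rw [abs_mul, abs_inv, Nat.abs_cast]
      rcases Nat.eq_zero_or_pos n with h0 | h0
      · subst h0
        simpa using hC0
      · rw [inv_mul_le_iff₀ (by exact_mod_cast h0)]
        refine (Finset.abs_sum_le_sum_abs _ _).trans ?_
        refine (Finset.sum_le_sum fun i _ => hC _).trans ?_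
        rw [Finset.sum_const, Finset.card_range, nsmul_eq_mul]
    -- the limit function
    obtain ⟨E, hEm, hE⟩ : ∃ E : X → ℝ, Measurable E ∧
        ∀ᵐ x ∂μ, Tendsto (fun n => Fn n x) atTop (𝓝 (E x)) := by
      have hEs : AEStronglyMeasurable (fun x => limUnder atTop fun n => Fn n x) μ := by
        apply aestronglyMeasurable_of_tendsto_ae atTop
          (f := Fn) (fun n => (hFnm n).aestronglyMeasurable)
        filter_upwards [hB] with x hx
        exact tendsto_nhds_limUnder hx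
      obtain ⟨E, hEm, hEE⟩ := hEs
      refine ⟨E, hEm.measurable, ?_⟩
      filter_upwards [hB, hEE] with x hx hx'
      rw [← hx']
      exact tendsto_nhds_limUnder hx
    let Fs : X → ℝ := fun x => max (-C) (min C (E x))
    have hFsm : Measurable Fs := measurable_const.max (measurable_const.min hEm)
    have hFsb : ∀ x, |Fs x| ≤ C := by
      intro x
      rw [abs_le]
      exact ⟨le_max_left _ _, max_le (by linarith) (min_le_left _ _)⟩
    have hFs : ∀ᵐ x ∂μ, Tendsto (fun n => Fn n x) atTop (𝓝 (Fs x)) := by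
      filter_upwards [hE] with x hx
      have h1 : |E x| ≤ C := by
        have := hx.abs
        exact le_of_tendsto this (Eventually.of_forall fun n => hFnb n x)
      have h2 : Fs x = E x := by
        rw [abs_le] at h1
        show max (-C) (min C (E x)) = E x
        rw [min_eq_right h1.2, max_eq_right h1.1]
      rw [h2]
      exact hx
    let G : ℕ → X → ℝ := fun K x => ⨆ n : ℕ, |Fn (K + n) x - Fs x|
    have hGb' : ∀ K x n, |Fn (K + n) x - Fs x| ≤ 2 * C := by
      intro K x n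
      refine (abs_sub _ _).trans ?_
      linarith [hFnb (K + n) x, hFsb x]
    have hGbdd : ∀ K x, BddAbove (Set.range fun n : ℕ => |Fn (K + n) x - Fs x|) := by
      intro K x
      refine ⟨2 * C, ?_⟩
      rintro _ ⟨n, rfl⟩
      exact hGb' K x n
    have hGm : ∀ K, Measurable (G K) := fun K => Measurable.iSup fun n =>
      ((hFnm _).sub hFsm).abs
    have hG0 : ∀ K x, 0 ≤ G K x := fun K x =>
      (abs_nonneg _).trans (le_ciSup (hGbdd K x) 0)
    have hGb : ∀ K x, |G K x| ≤ 2 * C := by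
      intro K x
      rw [abs_of_nonneg (hG0 K x)]
      exact ciSup_le fun n => hGb' K x n
    have hGle : ∀ K n x, K ≤ n → |Fn n x - Fs x| ≤ G K x := by
      intro K n x hn
      obtain ⟨d, rfl⟩ := Nat.exists_eq_add_of_le hn
      exact le_ciSup (hGbdd K x) d
    have hGlim : ∀ᵐ x ∂μ, Tendsto (fun K => G K x) atTop (𝓝 0) := by
      filter_upwards [hFs] with x hx
      rw [Metric.tendsto_atTop] at hx ⊢
      intro ε hε
      obtain ⟨K₀, hK₀⟩ := hx (ε / 2) (by positivity)
      refine ⟨K₀, fun K hK => ?_⟩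
      rw [Real.dist_eq, sub_zero, abs_of_nonneg (hG0 K x)]
      have : G K x ≤ ε / 2 := by
        apply ciSup_le
        intro n
        have := hK₀ (K + n) (by omega)
        rw [Real.dist_eq] at this
        exact this.le
      linarith
    have hGint : Tendsto (fun K => ∫ x, G K x ∂μ) atTop (𝓝 0) := by
      have := tendsto_integral_of_dominated_convergence (fun _ => 2 * C)
        (fun K => (hGm K).aestronglyMeasurable) (integrable_const _)
        (fun K => Eventually.of_forall fun x => by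
          rw [Real.norm_eq_abs]
          exact hGb K x) hGlim
      rwa [integral_zero] at this
    -- use the induction hypothesis
    have hτ : ∀ j n, MeasurePreserving (Fin.tail σ j n) μ μ := fun j n => hσ _ n
    have hgt : ∀ j, G1 μ (Fin.tail σ j) := fun j => hgood _
    have h1 := ih (Fin.tail σ) hτ hgt Fs hFsm C hFsb
    have h2 : ∀ᵐ x ∂μ, ∀ K, ∃ L : ℝ, Tendsto (fun N => bx k N
        (fun m => G K (gorb k (Fin.tail σ) m x))) atTop (𝓝 L) :=
      ae_all_iff.mpr fun K => ih (Fin.tail σ) hτ hgt (G K) (hGm K) (2 * C) (hGb K)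
    let γ : ℕ → X → ℝ := fun K x => limUnder atTop fun N => bx k N
        (fun m => G K (gorb k (Fin.tail σ) m x))
    have hγ : ∀ᵐ x ∂μ, ∀ K, Tendsto (fun N => bx k N
        (fun m => G K (gorb k (Fin.tail σ) m x))) atTop (𝓝 (γ K x)) := by
      filter_upwards [h2] with x hx K
      exact tendsto_nhds_limUnder (hx K)
    have hmp' : ∀ m, MeasurePreserving (gorb k (Fin.tail σ) m) μ μ := gorb_mp k _ hτ
    have hlim := fun K => Pool.Agent.Zk89.QM.int_limF (𝓕 := (atTop : Filter (Fin k → ℕ)))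
      (φ := fun m => gorb k (Fin.tail σ) m) hmp' (hGm K) (C := 2 * C) (by positivity) (hGb K)
      (hG0 K) (γ := γ K) (by
        filter_upwards [hγ] with x hx
        exact hx K)
    have hγint : ∀ K, ∫ x, γ K x ∂μ ≤ ∫ x, G K x ∂μ := fun K => (hlim K).2.2
    have hγ0 : ∀ K, 0 ≤ᵐ[μ] γ K := fun K => (hlim K).1
    have hγi : ∀ K, Integrable (γ K) μ := fun K => (hlim K).2.1
    have hsmall : ∀ ε : ℝ, 0 < ε → ∀ᵐ x ∂μ, ∃ K, γ K x < ε := by
      intro ε hε
      rw [ae_iff, ← nonpos_iff_eq_zero]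
      apply ENNReal.le_of_forall_pos_le_add
      intro δ hδ _
      rw [zero_add]
      have hδ' : (0 : ℝ) < δ := by exact_mod_cast hδ
      obtain ⟨K, hK⟩ := ((tendsto_order.mp hGint).2 (ε * δ) (by positivity)).exists
      have hmk := mul_meas_ge_le_integral_of_nonneg (hγ0 K) (hγi K) ε
      have h3 : μ.real {x | ε ≤ γ K x} ≤ δ := by
        have h4 : ε * μ.real {x | ε ≤ γ K x} ≤ ε * δ :=
          hmk.trans ((hγint K).trans hK.le)
        exact le_of_mul_le_mul_left h4 hε
      refine (measure_mono (t := {x | ε ≤ γ K x}) fun x hx => ?_).trans ?_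
      · by_contra hcon
        exact hx ⟨K, not_le.mp hcon⟩
      · have h20 : μ {x | ε ≤ γ K x} = ENNReal.ofReal (μ.real {x | ε ≤ γ K x}) := by
          rw [measureReal_def, ENNReal.ofReal_toReal (measure_ne_top _ _)]
        rw [h20]
        calc ENNReal.ofReal (μ.real {x | ε ≤ γ K x}) ≤ ENNReal.ofReal (δ : ℝ) :=
              ENNReal.ofReal_le_ofReal h3
          _ = δ := ENNReal.ofReal_coe_nnreal
    have hall : ∀ᵐ x ∂μ, ∀ i : ℕ, ∃ K, γ K x < 1 / ((i : ℝ) + 1) :=
      ae_all_iff.mpr fun i => hsmall _ (by positivity)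
    filter_upwards [h1, hγ, hall] with x hx1 hx2 hx3
    obtain ⟨L, hL⟩ := hx1
    refine ⟨L, ?_⟩
    rw [Metric.tendsto_atTop]
    intro ε hε
    obtain ⟨i, hi⟩ := exists_nat_one_div_lt (half_pos hε)
    obtain ⟨K, hK⟩ := hx3 i
    have e1 := (tendsto_order.mp (hx2 K)).2 (ε / 2) (hK.trans hi)
    obtain ⟨N₁, hN₁⟩ := eventually_atTop.mp e1
    obtain ⟨N₂, hN₂⟩ := Metric.tendsto_atTop.mp hL (ε / 2) (by positivity)
    refine ⟨Fin.cons K (N₁ ⊔ N₂), fun N hN => ?_⟩
    have hN0 : K ≤ N 0 := hN 0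
    have hNt : N₁ ⊔ N₂ ≤ Fin.tail N := fun j => hN j.succ
    have f1 := hN₁ (Fin.tail N) (le_sup_left.trans hNt)
    have f2 := hN₂ (Fin.tail N) (le_sup_right.trans hNt)
    have f3 : bx (k + 1) N (fun m => F (gorb (k + 1) σ m x)) =
        bx k (Fin.tail N) (fun m => Fn (N 0) (gorb k (Fin.tail σ) m x)) := by
      rw [bx_succ]
      congr 1
    rw [f3, Real.dist_eq]
    rw [Real.dist_eq] at f2
    have f4 : |bx k (Fin.tail N) (fun m => Fn (N 0) (gorb k (Fin.tail σ) m x)) -
        bx k (Fin.tail N) (fun m => Fs (gorb k (Fin.tail σ) m x))| < ε / 2 := by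
      rw [← bx_sub]
      refine (bx_abs.trans (bx_mono fun m => ?_)).trans_lt f1
      exact hGle K (N 0) _ hN0
    have f5 : bx k (Fin.tail N) (fun m => Fn (N 0) (gorb k (Fin.tail σ) m x)) - L =
        (bx k (Fin.tail N) (fun m => Fn (N 0) (gorb k (Fin.tail σ) m x)) -
        bx k (Fin.tail N) (fun m => Fs (gorb k (Fin.tail σ) m x))) +
        (bx k (Fin.tail N) (fun m => Fs (gorb k (Fin.tail σ) m x)) - L) := by ring
    rw [f5]
    refine (abs_add_le _ _).trans_lt ?_
    linarith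

section group2

variable {G : Type*} [Group G] {Φ : G →* Equiv.Perm X} {k : ℕ}

/-- Products of good one-parameter sequences in a group. -/
theorem good_prod (hmp : ∀ g, MeasurePreserving (Φ g) μ μ) (b : G) (w : Fin k → ℕ → G)
    (hw : ∀ l, G1 μ fun n => (Φ (w l n) : X → X)) :
    Pool.Agent.Zk89.QM.GoodF μ atTop
      (fun m : Fin k → ℕ => (Φ (b * (List.ofFn fun l => w l (m l)).prod) : X → X)) := by
  intro H hH ⟨C, hC⟩
  have h1 := gdz (μ := μ) k (fun l n => (Φ (w l n) : X → X)) (fun l n => hmp _) hw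
    (fun x => H (Φ b x)) (hH.comp (hmp b).measurable) C (fun x => hC _)
  filter_upwards [h1] with x hx
  obtain ⟨L, hL⟩ := hx
  refine ⟨L, hL.congr fun N => ?_⟩
  congr 1
  funext m
  rw [map_mul, Equiv.Perm.mul_apply]
  congr 2
  clear hL h1 hw
  induction k with
  | zero => simp [gorb]
  | succ k ih =>
    rw [List.ofFn_succ, List.prod_cons, map_mul, Equiv.Perm.mul_apply,
      ← ih (fun l n => w l.succ n) (fun l => N l.succ) (fun l => m l.succ)]
    rfl

end group2

end Pool.Agent.Zk89.BT
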