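import Pool.Agent.Zk89.BT.Cmp

/-!
# The main inequality on finite cyclic groups
-/

set_option autoImplicit false
set_option linter.unusedSectionVars false

open Finset Filter Topology

noncomputable section

namespace Pool.Agent.Zk89.BT

open Pool.Agent.Helper602.MK (ee)

variable {p : ℕ → ℕ} {d A : ℕ} {N : ℕ → ℕ} {lam : ℝ}

theorem Dom.extend {X ι : Type*} [Fintype X] {S T : Set ι} {F G : ι → X → ℂ} {C : ℝ}
    (h : Dom T F C) (h1 : ∀ i ∈ S, i ∈ T → ∀ x, G i x = F i x)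
    (h2 : ∀ i ∈ S, i ∉ T → ∀ x, G i x = 0) : Dom S G C := by
  classical
  obtain ⟨g, e1, e2, e3⟩ := h
  refine ⟨g, e1, fun i hi x => ?_, e3⟩
  by_cases hT : i ∈ T
  · rw [h1 i hi hT x]
    exact e2 i hT x
  · rw [h2 i hi hT x, norm_zero]
    exact e1 x

theorem le_clog_of_pow_le {s n : ℕ} (h : 2 ^ s ≤ n) : s ≤ Nat.clog 2 n := by
  have h1 : s ≤ Nat.log 2 n := by
    refine Nat.le_log_of_pow_le (by norm_num) h
  exact h1.trans (Nat.log_le_clog 2 n)

/-- consequences for the terms of the second kind -/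
theorem Big.facts4 {C m t : ℕ} (h : PS p d A) (hb : Big p N d A C m t) (hN : Lc N lam) {s : ℕ}
    (hs : s ≤ SL C m t) : 1 / (p (N t) : ℝ) ≤ rho N d t ∧
      ∀ (θ : ℝ) (a : ℤ) (q : ℕ), Fr s (rho N d t) θ a q →
      ‖wa p (N t) θ - GS p q a * DK (p (N t)) (θ - a / q)‖ ≤ 1 / 2 ^ s * (1 / t) := by
  have hA : (1 : ℝ) ≤ A := by exact_mod_cast h.A_pos
  have hn : (1 : ℝ) ≤ ((C * t ^ m : ℕ) : ℝ) := by exact_mod_cast hb.n_pos
  have ht : (1 : ℝ) ≤ (t : ℝ) := by exact_mod_cast hb.t_pos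
  obtain ⟨hR0, f1, f2, f3, f4, f5, hρ0⟩ := hb.facts h hN
  obtain ⟨g1, -⟩ := hb.facts3 h hN hs
  have hbig := hb.big0
  set R := √(N t : ℝ) with hR
  set n := ((C * t ^ m : ℕ) : ℝ) with hn'
  have hX0 : (0 : ℝ) < p (N t) := lt_of_lt_of_le hR0 f5
  have ht0 : (0 : ℝ) < t := by linarith
  have hnn : 1 ≤ n ^ 2 := one_le_pow₀ hn
  have htt : (t : ℝ) ≤ (t : ℝ) ^ 2 := by nlinarith
  have htt1 : 1 ≤ (t : ℝ) ^ 2 := one_le_pow₀ ht
  have hAA : (A : ℝ) ≤ (A : ℝ) ^ 2 := by nlinarith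
  constructor
  · have hRA : (A : ℝ) ≤ R := by
      refine le_trans ?_ hbig
      calc (A : ℝ) ≤ 400 * (A : ℝ) ^ 2 * 1 * 1 := by nlinarith
        _ ≤ 400 * (A : ℝ) ^ 2 * n ^ 2 * (t : ℝ) ^ 2 := by gcongr
    have h1 : (1 : ℝ) ≤ R / A := by
      rw [le_div_iff₀ (by linarith)]
      linarith
    rw [div_le_iff₀ hX0]
    linarith
  · intro θ a q hF
    have h5 := major h (hN.pos t) hF.1 a (θ - a / q)
    rw [show (a : ℝ) / q + (θ - a / q) = θ by ring] at h5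
    refine h5.trans ?_
    have hq : (q : ℝ) ≤ 2 ^ s := by exact_mod_cast hF.le
    have h8 : |θ - a / q| * (N t : ℝ) ^ (d - 1) ≤ 1 / R := by
      rw [← f2]
      have := hF.2.2.2
      gcongr
    have h9 : 1 / (N t : ℝ) + |θ - a / q| * (N t : ℝ) ^ (d - 1) ≤ 2 / R := by
      calc _ ≤ 1 / R + 1 / R := add_le_add f1 h8
        _ = 2 / R := by ring
    have h2s : (0 : ℝ) < 2 ^ s := by positivity
    calc _ ≤ 40 * (A : ℝ) ^ 2 * 2 ^ s * (2 / R) := by gcongr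
      _ ≤ 1 / 2 ^ s * (1 / t) := by
        rw [← mul_div_assoc, one_div_mul_one_div, div_le_div_iff₀ hR0 (by positivity)]
        have h10 : (2 : ℝ) ^ s * 2 ^ s ≤ 4 * n ^ 2 := by
          calc (2 : ℝ) ^ s * 2 ^ s ≤ (2 * n) * (2 * n) := by gcongr
            _ = 4 * n ^ 2 := by ring
        calc 40 * (A : ℝ) ^ 2 * 2 ^ s * 2 * (2 ^ s * t) =
            80 * (A : ℝ) ^ 2 * (2 ^ s * 2 ^ s) * t := by ring
          _ ≤ 80 * (A : ℝ) ^ 2 * (4 * n ^ 2) * (t : ℝ) ^ 2 := by gcongr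
          _ ≤ 400 * (A : ℝ) ^ 2 * n ^ 2 * (t : ℝ) ^ 2 := by
            have : 0 ≤ (A : ℝ) ^ 2 * n ^ 2 * (t : ℝ) ^ 2 := by positivity
            linarith
          _ ≤ 1 * R := by linarith

/-- The contribution of one level. -/
theorem level (h : PS p d A) (hN : Lc N lam) {Cg κ : ℝ} (hCg : 0 ≤ Cg) (hκ : 1 / 2 ≤ κ)
    (hG : ∀ (s : ℕ) (r θ : ℝ) (a : ℤ) (q : ℕ), Fr s r θ a q → ‖GS p q a‖ ≤ Cg * κ ^ s)
    {C m : ℕ} {t₀ : ℕ} (ht₀ : 1 ≤ t₀) (hbig : ∀ t ≥ t₀, Big p N d A C m t) (t₁ s : ℕ)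
    {M : ℕ} [NeZero M] (f : ZMod M → ℂ) :
    Dom (Icc t₀ t₁ : Set ℕ) (fun t x => if s ≤ SL C m t then
        ml (fun k => tm p N d t s (th k)) f x else 0)
      ((2 * (Cg * κ ^ s) + (2 * (2 * κ ^ s) + √(8 * lam ^ d / (lam ^ d - 1)) *
        (8 * (2 ^ d * A) * (Cg * κ ^ s)) + Cg * κ ^ s * ((3 * s : ℕ) + 2))) * nrm f) := by
  classical
  have hκ0 : 0 < κ := by linarith
  have hnrm := nrm_nonneg f
  have hK0 : 0 ≤ Cg * κ ^ s := by positivity
  -- first kind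
  have h1 := dom_one (fun k => gam p s (rI s) (th k)) f hK0
    (fun k => gam_norm hCg hκ0.le hG s _ _) (QQ s) (fun t => p (N t) / QQ s) (Icc t₀ t₁)
  have h1' : Dom (Icc t₀ t₁ : Set ℕ) (fun t x => if s ≤ SL C m t ∧ 8 ^ s ≤ t then
      ml (fun k => gam p s (rI s) (th k) * DK (p (N t) / QQ s) (QQ s * th k)) f x else 0)
      (2 * (Cg * κ ^ s * nrm f)) := by
    have h2 : Dom (Icc t₀ t₁ : Set ℕ) (fun t => ml (fun k => gam p s (rI s) (th k) *
        DK (p (N t) / QQ s) (QQ s * th k)) f) (2 * (Cg * κ ^ s * nrm f)) := by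
      exact h1
    refine h2.of_le fun t _ x => ?_
    split_ifs
    · exact le_rfl
    · rw [norm_zero]
      exact norm_nonneg _
  -- second kind
  set T : Finset ℕ := (Icc t₀ t₁).filter fun t => s ≤ SL C m t ∧ ¬ 8 ^ s ≤ t with hT
  have hTm : ∀ t ∈ T, t₀ ≤ t ∧ s ≤ SL C m t ∧ ¬ 8 ^ s ≤ t := by
    intro t ht
    rw [hT, mem_filter, mem_Icc] at ht
    exact ⟨ht.1.1, ht.2.1, ht.2.2⟩
  have h3 := dom_two (M := M) h hN hCg hκ0.le hG f s (3 * s) T (fun t ht => by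
      have h4 := (hTm t ht).2.2
      rw [pow_mul]
      norm_num
      omega) (fun t => 1 / 2 ^ s * (1 / t)) (rho N d) (fun t => by positivity)
    (fun t ht => ((hbig t (hTm t ht).1).facts3 h hN (hTm t ht).2.1).2)
    (fun t ht => ((hbig t (hTm t ht).1).facts4 h hN (hTm t ht).2.1).1)
    (fun t ht => ((hbig t (hTm t ht).1).facts4 h hN (hTm t ht).2.1).2)
    (E := 2 * κ ^ s) (by positivity) (by
      have h4 := sum_inv_sq ht₀ T fun t ht => (hTm t ht).1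
      have h5 : ∑ t ∈ T, (1 / (2 : ℝ) ^ s * (1 / t)) ^ 2 =
          (1 / (2 : ℝ) ^ s) ^ 2 * ∑ t ∈ T, (1 / (t : ℝ)) ^ 2 := by
        rw [mul_sum]
        refine sum_congr rfl fun t _ => by ring
      rw [h5, mul_pow]
      have h6 : (1 / (2 : ℝ) ^ s) ≤ κ ^ s := by
        rw [← one_div_pow]
        gcongr
      have h7 : (2 : ℝ) / t₀ ≤ 2 ^ 2 := by
        have : (1 : ℝ) ≤ t₀ := by exact_mod_cast ht₀
        rw [div_le_iff₀ (by linarith)]
        linarith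
      calc (1 / (2 : ℝ) ^ s) ^ 2 * ∑ t ∈ T, (1 / (t : ℝ)) ^ 2 ≤
          (κ ^ s) ^ 2 * 2 ^ 2 := by
            have := h4.trans h7
            gcongr
        _ = _ := by ring)
  have h3' : Dom (Icc t₀ t₁ : Set ℕ) (fun t x => if s ≤ SL C m t ∧ ¬ 8 ^ s ≤ t then
      ml (fun k => if ∃ x : ℤ × ℕ, Fr s (rho N d t) (th k) x.1 x.2 then wa p (N t) (th k)
        else 0) f x else 0) ((2 * (2 * κ ^ s) + √(8 * lam ^ d / (lam ^ d - 1)) *
        (8 * (2 ^ d * A) * (Cg * κ ^ s)) + Cg * κ ^ s * ((3 * s : ℕ) + 2)) * nrm f) := by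
    refine h3.extend (fun t ht hT' x => ?_) (fun t ht hT' x => ?_)
    · rw [if_pos (hTm t hT').2]
    · rw [if_neg]
      intro hc
      apply hT'
      rw [hT]
      exact mem_coe.2 (mem_filter.2 ⟨mem_coe.1 ht, hc⟩)
  have h8 := h1'.add h3' (by positivity) (by positivity)
  have e1 : 2 * (Cg * κ ^ s * nrm f) + (2 * (2 * κ ^ s) + √(8 * lam ^ d / (lam ^ d - 1)) *
        (8 * (2 ^ d * A) * (Cg * κ ^ s)) + Cg * κ ^ s * ((3 * s : ℕ) + 2)) * nrm f =
      (2 * (Cg * κ ^ s) + (2 * (2 * κ ^ s) + √(8 * lam ^ d / (lam ^ d - 1)) *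
        (8 * (2 ^ d * A) * (Cg * κ ^ s)) + Cg * κ ^ s * ((3 * s : ℕ) + 2))) * nrm f := by ring
  rw [e1] at h8
  refine h8.congr fun t _ x => ?_
  by_cases hs : s ≤ SL C m t
  · by_cases h9 : 8 ^ s ≤ t
    · simp only [hs, h9, and_self, if_true, not_true_eq_false, and_false, if_false, add_zero]
      congr 1
      funext k
      simp [tm, h9]
    · simp only [hs, h9, and_false, if_false, not_false_eq_true, and_self, if_true, zero_add]
      congr 1
      funext k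
      simp [tm, h9]
  · simp [hs]

/-- **The main inequality.** -/
theorem main_ineq (h : PS p d A) (hN : Lc N lam) {ε : ℝ} (hε : 0 < ε) :
    ∃ s₀ t₀ : ℕ, ∀ (t₁ M : ℕ) [NeZero M] (f : ZMod M → ℂ),
      Dom (Icc t₀ t₁ : Set ℕ) (fun t => ml (fun k => wa p (N t) (th k) -
        bm p (p (N t)) s₀ (th k)) f) (ε * nrm f) := by
  classical
  obtain ⟨Cg, κ, hCg, hκ, hκ1, hG⟩ := gauss_level h
  obtain ⟨C, m', hC, hmin'⟩ := minor h
  set m := m' + 1 with hm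
  have hmin : ∀ (N : ℕ) (u θ : ℝ), 1 ≤ N → 1 ≤ u → 1 ≤ u * ‖wa p N θ‖ →
      ∃ q : ℕ, 1 ≤ q ∧ (q : ℝ) ≤ C * u ^ m ∧ ∃ a : ℤ, |θ - a / q| ≤ C * u ^ m / (N : ℝ) ^ d := by
    intro N u θ hN hu hwa
    obtain ⟨q, h1, h2, a, ha⟩ := hmin' N u θ hN hu hwa
    have h3 : u ^ m' ≤ u ^ m := pow_le_pow_right₀ hu (Nat.le_succ m')
    refine ⟨q, h1, h2.trans (by gcongr), a, ha.trans (by gcongr)⟩
  obtain ⟨t₂, ht₂, hasym⟩ := asym hN (400 * (A : ℝ) ^ 2 * (C : ℝ) ^ 2) (2 * m + 2)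
  have hBig : ∀ t ≥ t₂, Big p N d A C m t := by
    intro t ht
    refine ⟨ht₂.trans ht, hC, fun s hs => ?_⟩
    refine le_trans (le_of_eq ?_) (hasym t ht s hs)
    push_cast
    ring
  -- the tail of the series
  set c : ℕ → ℝ := fun s => 2 * (Cg * κ ^ s) + (2 * (2 * κ ^ s) +
    √(8 * lam ^ d / (lam ^ d - 1)) * (8 * (2 ^ d * A) * (Cg * κ ^ s)) +
    Cg * κ ^ s * ((3 * s : ℕ) + 2)) with hc
  have hκ0 : 0 < κ := by linarith
  have hc0 : ∀ s, 0 ≤ c s := fun s => by rw [hc]; positivity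
  have hsum : Summable c := by
    have h1 : Summable fun s : ℕ => κ ^ s := summable_geometric_of_lt_one hκ0.le hκ1
    have h2 : Summable fun s : ℕ => (s : ℝ) ^ 1 * κ ^ s :=
      summable_pow_mul_geometric_of_norm_lt_one 1 (by
        rw [Real.norm_eq_abs, abs_of_pos hκ0]
        exact hκ1)
    have h3 := (h1.mul_left (2 * Cg + 4 + √(8 * lam ^ d / (lam ^ d - 1)) *
      (8 * (2 ^ d * A)) * Cg + 2 * Cg)).add (h2.mul_left (3 * Cg))
    refine h3.congr fun s => ?_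
    rw [hc]
    push_cast
    ring
  obtain ⟨J, hJ⟩ := summable_iff_vanishing_norm.1 hsum (ε / 3) (by positivity)
  set s₀ := J.sup id with hs₀
  obtain ⟨Cc, hCc, hcmp⟩ := cmp p s₀
  obtain ⟨K, hK⟩ := exists_nat_gt (162 / ε ^ 2 + 18 * Cc ^ 2 / ε ^ 2)
  set t₀ := max (max t₂ (8 ^ s₀)) (max K 1) with ht₀
  have e1 : t₂ ≤ t₀ := le_trans (le_max_left _ _) (le_max_left _ _)
  have e2 : 8 ^ s₀ ≤ t₀ := le_trans (le_max_right _ _) (le_max_left _ _)
  have e3 : K ≤ t₀ := le_trans (le_max_left _ _) (le_max_right _ _)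
  have e4 : 1 ≤ t₀ := le_trans (le_max_right _ _) (le_max_right _ _)
  have hKt : (162 / ε ^ 2 + 18 * Cc ^ 2 / ε ^ 2) ≤ t₀ := by
    have : (K : ℝ) ≤ t₀ := by exact_mod_cast e3
    linarith
  have ht₀0 : (0 : ℝ) < t₀ := by exact_mod_cast e4
  refine ⟨s₀, t₀, fun t₁ M _ f => ?_⟩
  have hnrm := nrm_nonneg f
  have hB : ∀ t ≥ t₀, Big p N d A C m t := fun t ht => hBig t (e1.trans ht)
  -- error terms
  have herr : Dom (Icc t₀ t₁ : Set ℕ) (fun t => ml (fun k => wa p (N t) (th k) -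
      ∑ s ∈ range (SL C m t + 1), tm p N d t s (th k)) f) (ε / 3 * nrm f) := by
    have h1 := dom_sq (Icc t₀ t₁) (fun t (k : ZMod M) => wa p (N t) (th k) -
      ∑ s ∈ range (SL C m t + 1), tm p N d t s (th k)) f (C := ε / 3) (fun k => by
        have h2 : ∀ t ∈ Icc t₀ t₁, ‖wa p (N t) (th k) -
            ∑ s ∈ range (SL C m t + 1), tm p N d t s (th k)‖ ^ 2 ≤ 9 * (1 / (t : ℝ)) ^ 2 := by
          intro t ht
          have h3 := err h hN (hB t (mem_Icc.1 ht).1) hmin (th k)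
          calc _ ≤ (3 / (t : ℝ)) ^ 2 := by gcongr
            _ = _ := by ring
        refine (sum_le_sum h2).trans ?_
        rw [← mul_sum]
        have h4 := sum_inv_sq e4 (Icc t₀ t₁) fun t ht => (mem_Icc.1 ht).1
        have h5 : 9 * (2 / (t₀ : ℝ)) ≤ (ε / 3) ^ 2 := by
          have h6 : 162 / ε ^ 2 ≤ t₀ := by
            have : 0 ≤ 18 * Cc ^ 2 / ε ^ 2 := by positivity
            linarith
          rw [div_le_iff₀ (by positivity)] at h6
          rw [← mul_div_assoc, div_le_iff₀ ht₀0]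
          nlinarith
        linarith)
    exact h1
  have hcm : Dom (Icc t₀ t₁ : Set ℕ) (fun t => ml (fun k => bm p (p (N t)) s₀ (th k) -
      ∑ s ∈ range (s₀ + 1), gam p s (rI s) (th k) * DK (p (N t) / QQ s) (QQ s * th k)) f)
      (ε / 3 * nrm f) := by
    have h1 := dom_sq (Icc t₀ t₁) (fun t (k : ZMod M) => bm p (p (N t)) s₀ (th k) -
      ∑ s ∈ range (s₀ + 1), gam p s (rI s) (th k) * DK (p (N t) / QQ s) (QQ s * th k)) f
      (C := ε / 3) (fun k => by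
        have h2 : ∀ t ∈ Icc t₀ t₁, ‖bm p (p (N t)) s₀ (th k) - ∑ s ∈ range (s₀ + 1),
            gam p s (rI s) (th k) * DK (p (N t) / QQ s) (QQ s * th k)‖ ^ 2 ≤
            Cc ^ 2 * (1 / (t : ℝ)) ^ 2 := by
          intro t ht
          have ht' := (mem_Icc.1 ht).1
          have hb := hB t ht'
          obtain ⟨g1, -, -⟩ := hb.facts2 h hN (e2.trans ht')
          have h3 := hcmp (p (N t)) (th k) g1
          obtain ⟨hR0, -, -, -, -, f5, -⟩ := hb.facts h hN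
          have ht1 : (1 : ℝ) ≤ t := by exact_mod_cast hb.t_pos
          have h4 : (t : ℝ) ^ 2 ≤ p (N t) := by
            refine le_trans ?_ f5
            refine le_trans ?_ hb.big0
            have hA : (1 : ℝ) ≤ A := by exact_mod_cast h.A_pos
            have hn : (1 : ℝ) ≤ ((C * t ^ m : ℕ) : ℝ) := by exact_mod_cast hb.n_pos
            have q1 : (1 : ℝ) ≤ (A : ℝ) ^ 2 := one_le_pow₀ hA
            have q2 : (1 : ℝ) ≤ ((C * t ^ m : ℕ) : ℝ) ^ 2 := one_le_pow₀ hn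
            calc (t : ℝ) ^ 2 ≤ 400 * 1 * 1 * (t : ℝ) ^ 2 := by nlinarith [sq_nonneg (t : ℝ)]
              _ ≤ 400 * (A : ℝ) ^ 2 * ((C * t ^ m : ℕ) : ℝ) ^ 2 * (t : ℝ) ^ 2 := by gcongr
          have h5 : (t : ℝ) ≤ √(p (N t) : ℝ) := Real.le_sqrt_of_sq_le h4
          have ht0 : (0 : ℝ) < t := by linarith
          calc _ ≤ (Cc / √(p (N t) : ℝ)) ^ 2 := by gcongr
            _ ≤ (Cc / t) ^ 2 := by gcongr
            _ = _ := by ring
        refine (sum_le_sum h2).trans ?_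
        rw [← mul_sum]
        have h4 := sum_inv_sq e4 (Icc t₀ t₁) fun t ht => (mem_Icc.1 ht).1
        have h5 : Cc ^ 2 * (2 / (t₀ : ℝ)) ≤ (ε / 3) ^ 2 := by
          have h6 : 18 * Cc ^ 2 / ε ^ 2 ≤ t₀ := by
            have : 0 ≤ 162 / ε ^ 2 := by positivity
            linarith
          rw [div_le_iff₀ (by positivity)] at h6
          rw [← mul_div_assoc, div_le_iff₀ ht₀0]
          nlinarith
        calc Cc ^ 2 * ∑ t ∈ Icc t₀ t₁, (1 / (t : ℝ)) ^ 2 ≤ Cc ^ 2 * (2 / t₀) := by gcongr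
          _ ≤ _ := h5)
    exact h1
  have hlev : Dom (Icc t₀ t₁ : Set ℕ) (fun t x => ∑ s ∈ Ioc s₀ (SL C m t₁),
      if s ≤ SL C m t then ml (fun k => tm p N d t s (th k)) f x else 0) (ε / 3 * nrm f) := by
    have h1 := Dom.sum (X := ZMod M) (S := (Icc t₀ t₁ : Set ℕ)) (Ioc s₀ (SL C m t₁))
      (fun s t x => if s ≤ SL C m t then ml (fun k => tm p N d t s (th k)) f x else 0)
      (fun s => c s * nrm f) (fun s _ => level h hN (by linarith) hκ hG e4 hB t₁ s f)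
      (fun s _ => mul_nonneg (hc0 s) hnrm)
    refine h1.mono (sum_nonneg fun s _ => mul_nonneg (hc0 s) hnrm) ?_
    rw [← sum_mul]
    have h2 := hJ (Ioc s₀ (SL C m t₁)) (by
      rw [Finset.disjoint_left]
      intro s hs hsJ
      have h3 : s ≤ s₀ := le_sup (f := id) hsJ
      have h4 := (mem_Ioc.1 hs).1
      omega)
    rw [Real.norm_eq_abs, abs_of_nonneg (sum_nonneg fun s _ => hc0 s)] at h2
    exact mul_le_mul_of_nonneg_right h2.le hnrm
  have htot := (herr.sub hcm (by positivity) (by positivity)).add hlev (by positivity)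
    (by positivity)
  have e5 : ε / 3 * nrm f + ε / 3 * nrm f + ε / 3 * nrm f = ε * nrm f := by ring
  rw [e5] at htot
  refine htot.congr fun t ht x => ?_
  have ht' : t₀ ≤ t ∧ t ≤ t₁ := mem_Icc.1 (mem_coe.1 ht)
  have hb := hB t ht'.1
  have hSLmono : SL C m t ≤ SL C m t₁ := by
    unfold SL
    exact Nat.clog_mono_right 2 (Nat.mul_le_mul_left _ (Nat.pow_le_pow_left ht'.2 _))
  have hs₀SL : s₀ ≤ SL C m t := by
    unfold SL
    refine le_clog_of_pow_le ?_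
    calc 2 ^ s₀ ≤ 8 ^ s₀ := Nat.pow_le_pow_left (by norm_num) _
      _ ≤ t := e2.trans ht'.1
      _ ≤ t ^ m := Nat.le_self_pow (by omega) t
      _ ≤ C * t ^ m := Nat.le_mul_of_pos_left _ hC
  have hsum2 : ∑ s ∈ Ioc s₀ (SL C m t₁), (if s ≤ SL C m t then
      ml (fun k => tm p N d t s (th k)) f x else 0) =
      ml (fun k => ∑ s ∈ Ioc s₀ (SL C m t), tm p N d t s (th k)) f x := by
    rw [ml_sum, ← sum_filter]
    refine sum_congr ?_ fun _ _ => rfl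
    ext s
    rw [mem_filter, mem_Ioc, mem_Ioc]
    constructor
    · rintro ⟨⟨h1, h2⟩, h3⟩
      exact ⟨h1, h3⟩
    · rintro ⟨h1, h3⟩
      exact ⟨⟨h1, h3.trans hSLmono⟩, h3⟩
  rw [hsum2, ← ml_sub, ← ml_add]
  congr 1
  funext k
  have h1 : ∑ s ∈ range (SL C m t + 1), tm p N d t s (th k) =
      ∑ s ∈ range (s₀ + 1), gam p s (rI s) (th k) * DK (p (N t) / QQ s) (QQ s * th k) +
      ∑ s ∈ Ioc s₀ (SL C m t), tm p N d t s (th k) := by
    rw [← sum_range_add_sum_Ico (fun s => tm p N d t s (th k))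
      (show s₀ + 1 ≤ SL C m t + 1 by omega)]
    congr 1
    · refine sum_congr rfl fun s hs => ?_
      have h2 : 8 ^ s ≤ t := by
        refine le_trans (Nat.pow_le_pow_right (by norm_num) ?_) (e2.trans ht'.1)
        have := mem_range.1 hs
        omega
      simp [tm, h2]
    · refine sum_congr ?_ fun _ _ => rfl
      ext s
      rw [mem_Ico, mem_Ioc]
      omega
  rw [h1]
  ring

end Pool.Agent.Zk89.BT
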