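import Pool.Agent.Zk89.BT.Four

/-!
# The Dirichlet kernel
-/

set_option autoImplicit false
set_option linter.unusedSectionVars false

open Finset

noncomputable section

namespace Pool.Agent.Zk89.BT

open Pool.Agent.Helper602.MK (ee)
open Pool.Agent.Helper602.MK.N_J5b (ee_add ee_zero ee_conj norm_ee ee_int ee_nat_mul KD KD_far
  norm_one_sub_ee ee_add_int)

theorem norm_ee_sub_one (t : ℝ) : ‖ee t - 1‖ ≤ 2 * Real.pi * |t| := by
  rw [norm_sub_rev, norm_one_sub_ee]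
  have h1 : |Real.sin (Real.pi * t)| ≤ |Real.pi * t| := by
    exact Real.abs_sin_le_abs
  rw [abs_mul, abs_of_pos Real.pi_pos] at h1
  linarith

theorem norm_ee_sub (s t : ℝ) : ‖ee s - ee t‖ ≤ 2 * Real.pi * |s - t| := by
  have h1 : ee s - ee t = ee t * (ee (s - t) - 1) := by
    rw [mul_sub, ← ee_add, mul_one]
    congr 2
    ring
  rw [h1, norm_mul, norm_ee, one_mul]
  exact norm_ee_sub_one _

/-- the normalized Dirichlet kernel -/
def DK (X : ℕ) (β : ℝ) : ℂ := (X : ℂ)⁻¹ * ∑ y ∈ range X, ee (y * β)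

theorem DK_norm_le (X : ℕ) (β : ℝ) : ‖DK X β‖ ≤ 1 := by
  unfold DK
  rcases Nat.eq_zero_or_pos X with h | h
  · subst h; simp
  have hX : (0 : ℝ) < X := by exact_mod_cast h
  rw [norm_mul, norm_inv, Complex.norm_natCast, inv_mul_le_iff₀ hX, mul_one]
  refine (norm_sum_le _ _).trans ?_
  simp [norm_ee]

theorem DK_add_int (X : ℕ) (β : ℝ) (n : ℤ) : DK X (β + n) = DK X β := by
  unfold DK
  congr 1
  refine sum_congr rfl fun y _ => ?_
  have h1 : (y : ℝ) * (β + n) = y * β + ((y * n : ℤ) : ℝ) := by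
    push_cast
    ring
  rw [h1, ee_add_int]

theorem DK_near {X : ℕ} (hX : 0 < X) (β : ℝ) : ‖DK X β - 1‖ ≤ 2 * Real.pi * (X * |β|) := by
  have hX' : (0 : ℝ) < X := by exact_mod_cast hX
  have hXc : (X : ℂ) ≠ 0 := by exact_mod_cast hX.ne'
  have h1 : DK X β - 1 = (X : ℂ)⁻¹ * ∑ y ∈ range X, (ee (y * β) - 1) := by
    unfold DK
    rw [sum_sub_distrib, sum_const, card_range, nsmul_eq_mul, mul_one, mul_sub,
      inv_mul_cancel₀ hXc]
  rw [h1, norm_mul, norm_inv, Complex.norm_natCast, inv_mul_le_iff₀ hX']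
  refine (norm_sum_le _ _).trans ?_
  have h2 : ∀ y ∈ range X, ‖ee (y * β) - 1‖ ≤ 2 * Real.pi * (X * |β|) := by
    intro y hy
    refine (norm_ee_sub_one _).trans ?_
    rw [abs_mul, Nat.abs_cast]
    have h3 : (y : ℝ) ≤ X := by exact_mod_cast (mem_range.1 hy).le
    have := Real.pi_pos
    gcongr
  refine (sum_le_sum h2).trans ?_
  rw [sum_const, card_range, nsmul_eq_mul]

theorem DK_far {X : ℕ} (hX : 0 < X) (β δ : ℝ) (hδ : 0 < δ) (h : ∀ n : ℤ, δ ≤ |β - n|) :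
    ‖DK X β‖ ≤ 1 / (X * δ) := by
  have hX' : (0 : ℝ) < X := by exact_mod_cast hX
  have h1 := KD_far X β δ hδ h
  have h2 : ‖∑ j ∈ range X, ee (j * β)‖ ≤ 1 / (2 * δ) := by
    apply le_of_sq_le_sq _ (by positivity)
    rw [div_pow, mul_pow, one_pow]
    norm_num
    unfold KD at h1
    norm_num at h1
    exact h1
  unfold DK
  rw [norm_mul, norm_inv, Complex.norm_natCast, inv_mul_le_iff₀ hX']
  refine h2.trans ?_
  have e : (X : ℝ) * (1 / (X * δ)) = 1 / δ := by field_simp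
  rw [e]
  exact one_div_le_one_div_of_le hδ (by linarith)

/-- far from the integers, when `|β| ≤ 1/2` -/
theorem DK_far' {X : ℕ} (hX : 0 < X) {β : ℝ} (h0 : β ≠ 0) (h : |β| ≤ 1 / 2) :
    ‖DK X β‖ ≤ 1 / (X * |β|) := by
  refine DK_far hX β |β| (abs_pos.2 h0) fun n => ?_
  rcases eq_or_ne n 0 with h1 | h1
  · subst h1
    simp
  · have h2 : (1 : ℝ) ≤ |(n : ℝ)| := by
      have := Int.one_le_abs h1
      exact_mod_cast this
    have h3 : |(n : ℝ)| ≤ |β - n| + |β| := by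
      have := abs_sub_abs_le_abs_sub (n : ℝ) β
      rw [abs_sub_comm (n : ℝ) β] at this
      linarith
    linarith

theorem sum_blocks (L Q : ℕ) (F : ℕ → ℂ) :
    ∑ y ∈ range (L * Q), F y = ∑ k ∈ range L, ∑ j ∈ range Q, F (k * Q + j) := by
  induction L with
  | zero => simp
  | succ L ih =>
    rw [sum_range_succ, ← ih, Nat.succ_mul, sum_range_add]

theorem DK_cmp {X Q : ℕ} (hQ : 0 < Q) (hQX : Q ≤ X) (β : ℝ) :
    ‖DK X β - DK (X / Q) (Q * β)‖ ≤ 2 * Real.pi * (Q * |β|) + 2 * (Q / X) := by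
  set L := X / Q with hL
  have hX0 : 0 < X := by omega
  have hX : (0 : ℝ) < X := by exact_mod_cast hX0
  have hXc : (X : ℂ) ≠ 0 := by exact_mod_cast hX0.ne'
  have hL0 : 0 < L := Nat.div_pos hQX hQ
  have hLc : (L : ℂ) ≠ 0 := by exact_mod_cast hL0.ne'
  have hdm : L * Q + X % Q = X := by rw [hL, mul_comm]; exact Nat.div_add_mod X Q
  have hr : X % Q < Q := Nat.mod_lt _ hQ
  have h1 : (X : ℂ) * DK X β = ∑ y ∈ range X, ee (y * β) := by
    unfold DK
    rw [mul_inv_cancel_left₀ hXc]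
  have h2 : (L : ℂ) * DK L (Q * β) = ∑ k ∈ range L, ee (k * (Q * β)) := by
    unfold DK
    rw [mul_inv_cancel_left₀ hLc]
  have h3 : ∑ y ∈ range X, ee (y * β) = ∑ k ∈ range L, ∑ j ∈ range Q, ee ((k * Q + j : ℕ) * β) +
      ∑ j ∈ range (X % Q), ee ((L * Q + j : ℕ) * β) := by
    conv_lhs => rw [← hdm]
    rw [sum_range_add, sum_blocks]
  have h4 : (X : ℂ) * (DK X β - DK L (Q * β)) =
      (∑ k ∈ range L, ∑ j ∈ range Q, (ee ((k * Q + j : ℕ) * β) - ee (k * (Q * β)))) +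
      (∑ j ∈ range (X % Q), ee ((L * Q + j : ℕ) * β)) - (X % Q : ℕ) * DK L (Q * β) := by
    have h5 : (X : ℂ) * DK L (Q * β) = (L * Q : ℕ) * DK L (Q * β) +
        (X % Q : ℕ) * DK L (Q * β) := by
      rw [← add_mul, ← Nat.cast_add, hdm]
    have h6 : ((L * Q : ℕ) : ℂ) * DK L (Q * β) = ∑ k ∈ range L, ∑ j ∈ range Q,
        ee (k * (Q * β)) := by
      simp only [sum_const, card_range, nsmul_eq_mul]
      rw [← mul_sum, ← h2]
      push_cast
      ring
    rw [mul_sub, h1, h3, h5, h6]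
    simp only [sum_sub_distrib]
    ring
  have h5 : ‖∑ k ∈ range L, ∑ j ∈ range Q, (ee ((k * Q + j : ℕ) * β) - ee (k * (Q * β)))‖ ≤
      X * (2 * Real.pi * (Q * |β|)) := by
    have h6 : ∀ k ∈ range L, ‖∑ j ∈ range Q, (ee ((k * Q + j : ℕ) * β) - ee (k * (Q * β)))‖ ≤
        Q * (2 * Real.pi * (Q * |β|)) := by
      intro k _
      refine (norm_sum_le _ _).trans ?_
      have h7 : ∀ j ∈ range Q, ‖ee ((k * Q + j : ℕ) * β) - ee (k * (Q * β))‖ ≤
          2 * Real.pi * (Q * |β|) := by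
        intro j hj
        refine (norm_ee_sub _ _).trans ?_
        have e : ((k * Q + j : ℕ) : ℝ) * β - k * (Q * β) = j * β := by push_cast; ring
        rw [e, abs_mul, Nat.abs_cast]
        have h8 : (j : ℝ) ≤ Q := by exact_mod_cast (mem_range.1 hj).le
        have := Real.pi_pos
        gcongr
      refine (sum_le_sum h7).trans ?_
      rw [sum_const, card_range, nsmul_eq_mul]
    refine (norm_sum_le _ _).trans ((sum_le_sum h6).trans ?_)
    rw [sum_const, card_range, nsmul_eq_mul, ← mul_assoc]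
    have h9 : (L : ℝ) * Q ≤ X := by
      have : L * Q ≤ X := by omega
      exact_mod_cast this
    have := Real.pi_pos
    gcongr
  have h6 : ‖∑ j ∈ range (X % Q), ee ((L * Q + j : ℕ) * β)‖ ≤ Q := by
    refine (norm_sum_le _ _).trans ?_
    simp only [norm_ee, sum_const, card_range, nsmul_eq_mul, mul_one]
    exact_mod_cast hr.le
  have h7 : ‖((X % Q : ℕ) : ℂ) * DK L (Q * β)‖ ≤ Q := by
    rw [norm_mul, Complex.norm_natCast]
    have h8 : ((X % Q : ℕ) : ℝ) ≤ Q := by exact_mod_cast hr.le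
    have := DK_norm_le L (Q * β)
    calc _ ≤ ((X % Q : ℕ) : ℝ) * 1 := by gcongr
      _ ≤ Q := by rw [mul_one]; exact h8
  have h8 : (X : ℝ) * ‖DK X β - DK L (Q * β)‖ ≤ X * (2 * Real.pi * (Q * |β|)) + 2 * Q := by
    have h9 : (X : ℝ) * ‖DK X β - DK L (Q * β)‖ = ‖(X : ℂ) * (DK X β - DK L (Q * β))‖ := by
      rw [norm_mul, Complex.norm_natCast]
    rw [h9, h4]
    refine (norm_sub_le _ _).trans ?_
    have := norm_add_le (∑ k ∈ range L, ∑ j ∈ range Q, (ee ((k * Q + j : ℕ) * β) -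
      ee (k * (Q * β)))) (∑ j ∈ range (X % Q), ee ((L * Q + j : ℕ) * β))
    linarith
  have h9 : (X : ℝ) * (2 * Real.pi * (Q * |β|)) + 2 * Q =
      X * (2 * Real.pi * (Q * |β|) + 2 * (Q / X)) := by
    field_simp
  rw [h9] at h8
  exact le_of_mul_le_mul_left h8 hX

end Pool.Agent.Zk89.BT
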