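import Pool.Agent.Zk89.BT.Asym

/-!
# The maximal inequalities for one level
-/

set_option autoImplicit false
set_option linter.unusedSectionVars false

open Finset Filter Topology

noncomputable section

namespace Pool.Agent.Zk89.BT

open Pool.Agent.Helper602.MK (ee)
open Pool.Agent.Helper602.MK.N_J5b (ee_add ee_zero norm_ee)

variable {M : ℕ} [NeZero M]

theorem ml_DK (g f : ZMod M → ℂ) (L Q : ℕ) (x : ZMod M) :
    ml (fun k => g k * DK L (Q * th k)) f x =
      (L : ℂ)⁻¹ * ∑ j ∈ range L, ml g f (x + ((j * Q : ℕ) : ZMod M)) := by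
  have h1 : ∀ j : ℕ, ml g f (x + ((j * Q : ℕ) : ZMod M)) =
      ml (fun k => ee (j * (Q * th k)) * g k) f x := by
    intro j
    rw [ml_shift (ml g f) (j * Q) x, ml_mul]
    congr 1
    funext k
    congr 2
    push_cast
    ring
  simp only [h1]
  rw [← ml_sum, ← ml_smul]
  congr 1
  funext k
  unfold DK
  rw [← sum_mul]
  ring

theorem addRight_pow (a x : ZMod M) (j : ℕ) : ((Equiv.addRight a) ^ j) x = x + j * a := by
  induction j with
  | zero => simp
  | succ j ih =>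
    rw [pow_succ', Equiv.Perm.mul_apply, ih]
    simp only [Equiv.coe_addRight]
    push_cast
    ring

/-- **First maximal inequality.** -/
theorem dom_one (g f : ZMod M → ℂ) {C : ℝ} (hC : 0 ≤ C) (hg : ∀ k, ‖g k‖ ≤ C) (Q : ℕ)
    (L : ℕ → ℕ) (S : Finset ℕ) :
    Dom (S : Set ℕ) (fun t => ml (fun k => g k * DK (L t) (Q * th k)) f) (2 * (C * nrm f)) := by
  obtain ⟨h, h1, h2, h3⟩ := maximal (Equiv.addRight (Q : ZMod M)) (fun x => ‖ml g f x‖)
    (fun x => norm_nonneg _) (S.image L)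
  refine ⟨h, h1, ?_, ?_⟩
  · intro t ht x
    have h4 := h2 x (L t) (mem_image_of_mem L ht)
    refine le_trans ?_ h4
    show ‖ml (fun k => g k * DK (L t) (Q * th k)) f x‖ ≤ _
    rw [ml_DK, norm_mul, norm_inv, Complex.norm_natCast]
    refine mul_le_mul_of_nonneg_left ?_ (by positivity)
    refine (norm_sum_le _ _).trans (le_of_eq ?_)
    refine sum_congr rfl fun j _ => ?_
    rw [addRight_pow]
    push_cast
    rfl
  · refine h3.trans ?_
    have h5 := ml_bound g f hC hg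
    calc 4 * ∑ x, ‖ml g f x‖ ^ 2 ≤ 4 * (C * nrm f) ^ 2 := by gcongr
      _ = (2 * (C * nrm f)) ^ 2 := by ring

theorem prof_aux {x y c : ℝ} (hx : 0 ≤ x) (hy : 0 ≤ y) (hc : 1 ≤ c) (hxy : x ≤ c * y)
    (hyx : y ≤ c * x) : (x ≤ 1 → x ≤ c * psi y) ∧ (1 < x → 1 / x ≤ c * psi y) := by
  have hψ := psi_nonneg hy
  have hc0 : 0 < c := by linarith
  constructor
  · intro h1
    rcases le_total y 1 with h2 | h2
    · have := le_psi hy h2
      exact hxy.trans (by gcongr)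
    · have h3 := inv_le_psi h2
      have hy0 : 0 < y := by linarith
      have h4 : y ≤ c := by nlinarith
      have h5 : 1 ≤ c * (1 / y) := by
        rw [mul_one_div, le_div_iff₀ hy0]
        linarith
      calc x ≤ 1 := h1
        _ ≤ c * (1 / y) := h5
        _ ≤ c * psi y := by gcongr
  · intro h1
    have hx0 : 0 < x := by linarith
    rcases le_total y 1 with h2 | h2
    · have := le_psi hy h2
      have h3 : 1 / x ≤ x := by
        rw [div_le_iff₀ hx0]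
        nlinarith
      exact h3.trans (hxy.trans (by gcongr))
    · have h3 := inv_le_psi h2
      have hy0 : 0 < y := by linarith
      have h4 : 1 / x ≤ c * (1 / y) := by
        rw [mul_one_div, div_le_div_iff₀ hx0 hy0]
        linarith
      exact h4.trans (by gcongr)

variable {p : ℕ → ℕ} {d A : ℕ} {N : ℕ → ℕ} {lam : ℝ}

theorem prof (h : PS p d A) (hN : Lc N lam) (t : ℕ) {β : ℝ} (hβ : |β| ≤ 1 / 2) :
    ‖DK (p (N t)) β - (if (p (N t) : ℝ) * |β| ≤ 1 then 1 else 0)‖ ≤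
      8 * (2 ^ d * A) * psi ((lam ^ d) ^ t * |β|) := by
  have hX0 : 0 < p (N t) := h.pos (hN.pos t)
  have hX : (0 : ℝ) < p (N t) := by exact_mod_cast hX0
  have hA : (1 : ℝ) ≤ A := by exact_mod_cast h.A_pos
  have hlam := hN.one_lt
  have hlam0 : (0 : ℝ) < lam := by linarith
  have h2d : (1 : ℝ) ≤ 2 ^ d := one_le_pow₀ (by norm_num)
  set x := (p (N t) : ℝ) * |β| with hx
  set y := (lam ^ d) ^ t * |β| with hy
  have hx0 : 0 ≤ x := by positivity
  have hy0 : 0 ≤ y := by positivity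
  have hc : (1 : ℝ) ≤ 2 ^ d * A := by nlinarith
  have hcomm : (lam ^ d) ^ t = (lam ^ t) ^ d := by rw [← pow_mul, ← pow_mul, mul_comm]
  have hxy : x ≤ 2 ^ d * A * y := by
    have h1 : (p (N t) : ℝ) ≤ A * (lam ^ d) ^ t := by
      refine (h.upp' (N t)).trans ?_
      rw [hcomm]
      have := hN.le t
      gcongr
    have h2 : x ≤ A * y := by
      rw [hx, hy, ← mul_assoc]
      gcongr
    refine h2.trans ?_
    have : (A : ℝ) ≤ 2 ^ d * A := by nlinarith
    gcongr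
  have hyx : y ≤ 2 ^ d * A * x := by
    have h1 : (lam ^ d) ^ t ≤ 2 ^ d * A * p (N t) := by
      rw [hcomm]
      calc (lam ^ t) ^ d ≤ (2 * N t) ^ d := by
            have := hN.ge t
            gcongr
        _ = 2 ^ d * (N t : ℝ) ^ d := mul_pow _ _ _
        _ ≤ 2 ^ d * (A * p (N t)) := by
            have := h.low' (N t)
            gcongr
        _ = 2 ^ d * A * p (N t) := by ring
    rw [hx, hy, ← mul_assoc]
    gcongr
  obtain ⟨p1, p2⟩ := prof_aux hx0 hy0 hc hxy hyx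
  have hψ := psi_nonneg hy0
  split_ifs with h1
  · have h2 := DK_near hX0 β
    have h3 := p1 h1
    have := Real.pi_le_four
    calc _ ≤ 2 * Real.pi * (p (N t) * |β|) := h2
      _ ≤ 2 * 4 * (p (N t) * |β|) := by gcongr
      _ ≤ 2 * 4 * (2 ^ d * A * psi y) := by gcongr
      _ = _ := by ring
  · rw [sub_zero]
    have h0 : β ≠ 0 := by
      rintro rfl
      apply h1
      rw [hx]
      simp
    have h2 := DK_far' hX0 h0 hβ
    have h3 := p2 (not_le.1 h1)
    calc _ ≤ 1 / (p (N t) * |β|) := h2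
      _ ≤ 2 ^ d * A * psi y := h3
      _ ≤ 8 * (2 ^ d * A) * psi y := by
        have : 0 ≤ 2 ^ d * A * psi y := by positivity
        linarith

open Classical in
/-- **Second maximal inequality.** -/
theorem dom_two (h : PS p d A) (hN : Lc N lam) {Cg κ : ℝ} (hCg : 0 ≤ Cg) (hκ : 0 ≤ κ)
    (hG : ∀ (s : ℕ) (r θ : ℝ) (a : ℤ) (q : ℕ), Fr s r θ a q → ‖GS p q a‖ ≤ Cg * κ ^ s)
    (f : ZMod M → ℂ) (s u : ℕ) (T : Finset ℕ) (hT : ∀ t ∈ T, t ≤ 2 ^ u) (e ρ : ℕ → ℝ)
    (he0 : ∀ t, 0 ≤ e t)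
    (hρ1 : ∀ t ∈ T, ρ t ≤ 1 / (4 * 4 ^ s)) (hρ2 : ∀ t ∈ T, 1 / (p (N t) : ℝ) ≤ ρ t)
    (hmaj : ∀ t ∈ T, ∀ (θ : ℝ) (a : ℤ) (q : ℕ), Fr s (ρ t) θ a q →
      ‖wa p (N t) θ - GS p q a * DK (p (N t)) (θ - a / q)‖ ≤ e t)
    {E : ℝ} (hE0 : 0 ≤ E) (hE : ∑ t ∈ T, e t ^ 2 ≤ E ^ 2) :
    Dom (T : Set ℕ) (fun t => ml (fun k => if ∃ x : ℤ × ℕ, Fr s (ρ t) (th k) x.1 x.2 then
        wa p (N t) (th k) else 0) f)
      ((2 * E + √(8 * lam ^ d / (lam ^ d - 1)) * (8 * (2 ^ d * A) * (Cg * κ ^ s)) +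
        Cg * κ ^ s * (u + 2)) * nrm f) := by
  have hlam := hN.one_lt
  have hlamd : 1 < lam ^ d := one_lt_pow₀ hlam (by have := h.d_pos; omega)
  have hK0 : 0 ≤ Cg * κ ^ s := by positivity
  set K := 8 * (2 ^ d * A) * (Cg * κ ^ s) with hK
  have hK1 : 0 ≤ K := by positivity
  set c1 := √(8 * lam ^ d / (lam ^ d - 1)) with hc1
  have hc10 : 0 ≤ c1 := Real.sqrt_nonneg _
  have hc1sq : c1 ^ 2 = 8 * lam ^ d / (lam ^ d - 1) := by
    rw [hc1, Real.sq_sqrt]
    have : 0 < lam ^ d - 1 := by linarith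
    positivity
  set Ω : ℕ → ZMod M → Prop := fun t k => ∃ x : ℤ × ℕ, Fr s (1 / (p (N t) : ℝ)) (th k) x.1 x.2
    with hΩ
  have hΩn : ∀ t k, Ω (t + 1) k → Ω t k := by
    intro t k ⟨x, hx⟩
    refine ⟨x, hx.mono ?_⟩
    have h1 : (0 : ℝ) < p (N t) := by exact_mod_cast h.pos (hN.pos t)
    have h2 : (p (N t) : ℝ) ≤ p (N (t + 1)) := by
      exact_mod_cast h.strictMono.monotone (hN.mono (Nat.le_succ t))
    gcongr
  set G : ZMod M → ℂ := fun k => gam p s (1 / (4 * 4 ^ s)) (th k) with hGdef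
  have hGb : ∀ k, ‖G k‖ ≤ Cg * κ ^ s := fun k => gam_norm hCg hκ hG s _ _
  have hrm := dom_rm G f hK0 hGb Ω hΩn u
  have hrm' := hrm.subset (S' := (T : Set ℕ)) fun t ht => hT t ht
  -- the square function
  have hsq : ∀ k, ∑ t ∈ T, ‖(if ∃ x : ℤ × ℕ, Fr s (ρ t) (th k) x.1 x.2 then
      wa p (N t) (th k) else 0) - (if Ω t k then G k else 0)‖ ^ 2 ≤ (2 * E + c1 * K) ^ 2 := by
    intro k
    have hpos : 0 ≤ (2 * E + c1 * K) ^ 2 := sq_nonneg _
    by_cases hex : ∃ t ∈ T, ∃ x : ℤ × ℕ, Fr s (ρ t) (th k) x.1 x.2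
    swap
    · push Not at hex
      refine le_trans (le_of_eq ?_) hpos
      refine sum_eq_zero fun t ht => ?_
      have h1 : ¬ ∃ x : ℤ × ℕ, Fr s (ρ t) (th k) x.1 x.2 := fun ⟨x, hx⟩ => hex t ht x hx
      have h2 : ¬ Ω t k := fun ⟨x, hx⟩ => h1 ⟨x, hx.mono (hρ2 t ht)⟩
      rw [if_neg h1, if_neg h2]
      simp
    obtain ⟨t₁, ht₁, ⟨a, q⟩, hx₁⟩ := hex
    simp only at hx₁
    have hx₂ : Fr s (1 / (4 * 4 ^ s)) (th k) a q := hx₁.mono (hρ1 t₁ ht₁)
    set β := th k - a / q with hβ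
    have hβ2 : |β| ≤ 1 / 2 := by
      refine hx₂.2.2.2.trans ?_
      have h4 : (1 : ℝ) ≤ 4 ^ s := one_le_pow₀ (by norm_num)
      rw [div_le_div_iff₀ (by positivity) (by norm_num)]
      linarith
    have hterm : ∀ t ∈ T, ‖(if ∃ x : ℤ × ℕ, Fr s (ρ t) (th k) x.1 x.2 then
        wa p (N t) (th k) else 0) - (if Ω t k then G k else 0)‖ ≤
        e t + K * psi ((lam ^ d) ^ t * |β|) := by
      intro t ht
      have hψ : 0 ≤ psi ((lam ^ d) ^ t * |β|) := psi_nonneg (by positivity)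
      have hr : 0 ≤ e t + K * psi ((lam ^ d) ^ t * |β|) :=
        add_nonneg (he0 t) (mul_nonneg hK1 hψ)
      by_cases h1 : |β| ≤ ρ t
      · have h2 : Fr s (ρ t) (th k) a q := ⟨hx₂.1, hx₂.2.1, hx₂.2.2.1, h1⟩
        rw [if_pos ⟨(a, q), h2⟩]
        have h3 : G k = GS p q a := gam_eq hx₂ le_rfl
        have hX : (0 : ℝ) < p (N t) := by exact_mod_cast h.pos (hN.pos t)
        have h4 : Ω t k ↔ (p (N t) : ℝ) * |β| ≤ 1 := by
          constructor
          · rintro ⟨⟨a', q'⟩, hx⟩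
            simp only at hx
            obtain ⟨h5, h6⟩ := (hx.mono ((hρ2 t ht).trans (hρ1 t ht))).unique' hx₂ le_rfl
            have h7 := hx.2.2.2
            rw [h5, h6, ← hβ, le_div_iff₀ hX] at h7
            linarith
          · intro h5
            refine ⟨(a, q), hx₂.1, hx₂.2.1, hx₂.2.2.1, ?_⟩
            rw [← hβ, le_div_iff₀ hX]
            linarith
        have h5 : (if Ω t k then G k else 0) = GS p q a *
            (if (p (N t) : ℝ) * |β| ≤ 1 then 1 else 0) := by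
          by_cases h6 : Ω t k
          · rw [if_pos h6, if_pos (h4.1 h6), h3, mul_one]
          · rw [if_neg h6, if_neg (fun h7 => h6 (h4.2 h7)), mul_zero]
        rw [h5]
        have e1 : wa p (N t) (th k) - GS p q a * (if (p (N t) : ℝ) * |β| ≤ 1 then 1 else 0) =
            (wa p (N t) (th k) - GS p q a * DK (p (N t)) β) +
            GS p q a * (DK (p (N t)) β - (if (p (N t) : ℝ) * |β| ≤ 1 then 1 else 0)) := by ring
        rw [e1]
        refine (norm_add_le _ _).trans (add_le_add (hmaj t ht _ a q h2) ?_)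
        rw [norm_mul]
        have h6 := prof h hN t hβ2
        have h7 := hG s _ _ _ _ h2
        calc ‖GS p q a‖ * ‖DK (p (N t)) β - (if (p (N t) : ℝ) * |β| ≤ 1 then 1 else 0)‖ ≤
            (Cg * κ ^ s) * (8 * (2 ^ d * A) * psi ((lam ^ d) ^ t * |β|)) := by gcongr
          _ = K * psi ((lam ^ d) ^ t * |β|) := by rw [hK]; ring
      · have h2 : ¬ ∃ x : ℤ × ℕ, Fr s (ρ t) (th k) x.1 x.2 := by
          rintro ⟨⟨a', q'⟩, hx⟩
          simp only at hx
          obtain ⟨h5, h6⟩ := (hx.mono (hρ1 t ht)).unique' hx₂ le_rfl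
          apply h1
          have := hx.2.2.2
          rwa [h5, h6] at this
        have h3 : ¬ Ω t k := fun ⟨x, hx⟩ => h2 ⟨x, hx.mono (hρ2 t ht)⟩
        rw [if_neg h2, if_neg h3, sub_zero, norm_zero]
        exact hr
    have h5 : ∑ t ∈ T, psi ((lam ^ d) ^ t * |β|) ^ 2 ≤ 4 * lam ^ d / (lam ^ d - 1) := by
      have h6 : ∑ t ∈ T, psi ((lam ^ d) ^ t * |β|) ^ 2 ≤
          ∑ t ∈ range (2 ^ u + 1), psi ((lam ^ d) ^ t * |β|) := by
        refine le_trans (sum_le_sum fun t _ => ?_) (sum_le_sum_of_subset_of_nonneg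
          (fun t ht => mem_range.2 (Nat.lt_succ_of_le (hT t ht))) fun t _ _ =>
            psi_nonneg (by positivity))
        have h7 := psi_nonneg (x := (lam ^ d) ^ t * |β|) (by positivity)
        have h8 := psi_le_one ((lam ^ d) ^ t * |β|)
        nlinarith
      exact h6.trans (psi_sum hlamd (abs_nonneg β) _)
    calc ∑ t ∈ T, ‖(if ∃ x : ℤ × ℕ, Fr s (ρ t) (th k) x.1 x.2 then
        wa p (N t) (th k) else 0) - (if Ω t k then G k else 0)‖ ^ 2 ≤
        ∑ t ∈ T, (2 * e t ^ 2 + 2 * K ^ 2 * psi ((lam ^ d) ^ t * |β|) ^ 2) := by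
          refine sum_le_sum fun t ht => ?_
          have h7 := pow_le_pow_left₀ (norm_nonneg _) (hterm t ht) 2
          refine h7.trans ?_
          nlinarith [sq_nonneg (e t - K * psi ((lam ^ d) ^ t * |β|))]
      _ = 2 * ∑ t ∈ T, e t ^ 2 + 2 * K ^ 2 * ∑ t ∈ T, psi ((lam ^ d) ^ t * |β|) ^ 2 := by
          rw [sum_add_distrib, ← mul_sum, ← mul_sum]
      _ ≤ 2 * E ^ 2 + 2 * K ^ 2 * (4 * lam ^ d / (lam ^ d - 1)) := by gcongr
      _ = 2 * E ^ 2 + (c1 * K) ^ 2 := by rw [mul_pow c1 K 2, hc1sq]; ring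
      _ ≤ (2 * E + c1 * K) ^ 2 := by
          have : 0 ≤ E * (c1 * K) := by positivity
          nlinarith [sq_nonneg E]
  have hd := dom_sq T (fun t k => (if ∃ x : ℤ × ℕ, Fr s (ρ t) (th k) x.1 x.2 then
      wa p (N t) (th k) else 0) - (if Ω t k then G k else 0)) f hsq
  have hsum := hd.add hrm' (by have := nrm_nonneg f; positivity)
    (by have := nrm_nonneg f; positivity)
  have e2 : (2 * E + c1 * K) * nrm f + Cg * κ ^ s * (u + 2) * nrm f =
      (2 * E + c1 * K + Cg * κ ^ s * (u + 2)) * nrm f := by ring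
  rw [e2] at hsum
  refine hsum.congr fun t _ x => ?_
  rw [ml_sub]
  ring

end Pool.Agent.Zk89.BT
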