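import Mathlib

/-!
# The maximal inequality in `L²` for a permutation of a finite set
-/

set_option autoImplicit false
set_option linter.unusedSectionVars false

open Finset

noncomputable section

namespace Pool.Agent.Zk89.BT

variable {X : Type*} [Fintype X] [DecidableEq X]

/-- number of visits -/
def cnt (τ : Equiv.Perm X) (n : ℕ) (x z : X) : ℝ :=
  (((range n).filter fun j => (τ ^ j) x = z).card : ℝ)

theorem cnt_nonneg (τ : Equiv.Perm X) (n : ℕ) (x z : X) : 0 ≤ cnt τ n x z := Nat.cast_nonneg _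

theorem cnt_eq (τ : Equiv.Perm X) (n : ℕ) (x z : X) :
    cnt τ n x z = ∑ j ∈ range n, if (τ ^ j) x = z then (1 : ℝ) else 0 := by
  unfold cnt
  rw [card_filter]
  push_cast
  rfl

theorem sum_cnt (τ : Equiv.Perm X) (n : ℕ) (x : X) (g : X → ℝ) :
    ∑ y, cnt τ n x y * g y = ∑ j ∈ range n, g ((τ ^ j) x) := by
  simp only [cnt_eq, sum_mul]
  rw [sum_comm]
  refine sum_congr rfl fun j _ => ?_
  simp

theorem cnt_aux (τ : Equiv.Perm X) (n l : ℕ) (x z : X) :
    ∑ k ∈ range n, (if l ≤ k ∧ (τ ^ (k - l)) x = z then (1 : ℝ) else 0) ≤ cnt τ n x z := by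
  unfold cnt
  have h1 : ∑ k ∈ range n, (if l ≤ k ∧ (τ ^ (k - l)) x = z then (1 : ℝ) else 0) =
      (((range n).filter fun k => l ≤ k ∧ (τ ^ (k - l)) x = z).card : ℝ) := by
    rw [card_filter]
    push_cast
    rfl
  rw [h1]
  have h2 : ((range n).filter fun k => l ≤ k ∧ (τ ^ (k - l)) x = z).card ≤
      ((range n).filter fun j => (τ ^ j) x = z).card := by
    refine card_le_card_of_injOn (fun k => k - l) ?_ ?_
    · intro k hk
      simp only [coe_filter, Set.mem_ofPred_eq, mem_range] at hk ⊢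
      exact ⟨by omega, hk.2.2⟩
    · intro k hk k' hk' h
      simp only [coe_filter, Set.mem_ofPred_eq, mem_range] at hk hk'
      simp only at h
      omega
  exact_mod_cast h2

theorem cnt_mul (τ : Equiv.Perm X) (n m : ℕ) (x z : X) :
    ∑ y, cnt τ n x y * cnt τ m z y ≤ m * cnt τ n x z + n * cnt τ m z x := by
  rw [sum_cnt]
  have h1 : ∀ k ∈ range n, cnt τ m z ((τ ^ k) x) ≤
      ∑ l ∈ range m, ((if l ≤ k ∧ (τ ^ (k - l)) x = z then (1 : ℝ) else 0) +
        (if k ≤ l ∧ (τ ^ (l - k)) z = x then (1 : ℝ) else 0)) := by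
    intro k _
    rw [cnt_eq]
    refine sum_le_sum fun l _ => ?_
    have h0 : ∀ p : Prop, ∀ [Decidable p], (0 : ℝ) ≤ if p then (1 : ℝ) else 0 := by
      intro p _
      split_ifs <;> norm_num
    split_ifs with h2 h3 h4 h4 h3 h4 h4
    · norm_num
    · norm_num
    · norm_num
    · exfalso
      rcases le_total l k with h5 | h5
      · apply h3
        refine ⟨h5, ?_⟩
        have h6 : τ ^ k = τ ^ l * τ ^ (k - l) := by rw [← pow_add]; congr 1; omega
        rw [h6, Equiv.Perm.mul_apply] at h2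
        exact ((τ ^ l).injective h2).symm
      · apply h4
        refine ⟨h5, ?_⟩
        have h6 : τ ^ l = τ ^ k * τ ^ (l - k) := by rw [← pow_add]; congr 1; omega
        rw [h6, Equiv.Perm.mul_apply] at h2
        exact (τ ^ k).injective h2
    · norm_num
    · norm_num
    · norm_num
    · norm_num
  refine (sum_le_sum h1).trans ?_
  simp only [sum_add_distrib]
  refine add_le_add ?_ ?_
  · rw [sum_comm]
    refine (sum_le_sum fun l _ => cnt_aux τ n l x z).trans ?_
    rw [sum_const, card_range, nsmul_eq_mul]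
  · refine (sum_le_sum fun k _ => cnt_aux τ m k z x).trans ?_
    rw [sum_const, card_range, nsmul_eq_mul]

/-- The dual form of the maximal inequality. -/
theorem max_dual (τ : Equiv.Perm X) (n : X → ℕ) (hn : ∀ x, 0 < n x) (h : X → ℝ)
    (hh : ∀ x, 0 ≤ h x) :
    ∑ y, (∑ x, h x / n x * cnt τ (n x) x y) ^ 2 ≤ 4 * ∑ x, h x ^ 2 := by
  set T : X → ℝ := fun y => ∑ x, h x / n x * cnt τ (n x) x y with hT
  have hn' : ∀ x, (0 : ℝ) < n x := fun x => by exact_mod_cast hn x
  have h1 : ∑ y, T y ^ 2 ≤ 2 * ∑ z, h z * T z := by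
    have e1 : ∑ y, T y ^ 2 = ∑ x, ∑ z, (h x / n x) * (h z / n z) *
        ∑ y, cnt τ (n x) x y * cnt τ (n z) z y := by
      have e0 : ∀ y, T y ^ 2 = ∑ x, ∑ z, (h x / n x) * (h z / n z) *
          (cnt τ (n x) x y * cnt τ (n z) z y) := by
        intro y
        rw [hT, sq, sum_mul_sum]
        refine sum_congr rfl fun x _ => sum_congr rfl fun z _ => ?_
        ring
      simp only [e0]
      rw [sum_comm]
      refine sum_congr rfl fun x _ => ?_
      rw [sum_comm]
      refine sum_congr rfl fun z _ => ?_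
      rw [mul_sum]
    have e2 : ∑ x, ∑ z, (h x / n x) * (h z / n z) *
        ∑ y, cnt τ (n x) x y * cnt τ (n z) z y ≤
        ∑ x, ∑ z, ((h x / n x) * h z * cnt τ (n x) x z + h x * (h z / n z) *
          cnt τ (n z) z x) := by
      refine sum_le_sum fun x _ => sum_le_sum fun z _ => ?_
      have h2 := mul_le_mul_of_nonneg_left (cnt_mul τ (n x) (n z) x z)
        (mul_nonneg (div_nonneg (hh x) (hn' x).le) (div_nonneg (hh z) (hn' z).le))
      refine h2.trans (le_of_eq ?_)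
      have := (hn' x).ne'
      have := (hn' z).ne'
      field_simp
    have e3 : ∑ x, ∑ z, ((h x / n x) * h z * cnt τ (n x) x z + h x * (h z / n z) *
          cnt τ (n z) z x) = 2 * ∑ z, h z * T z := by
      simp only [sum_add_distrib]
      have e4 : ∑ x, ∑ z, (h x / n x) * h z * cnt τ (n x) x z = ∑ z, h z * T z := by
        rw [sum_comm]
        refine sum_congr rfl fun z _ => ?_
        rw [hT, mul_sum]
        refine sum_congr rfl fun x _ => ?_
        ring
      have e5 : ∑ x, ∑ z, h x * (h z / n z) * cnt τ (n z) z x = ∑ z, h z * T z := by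
        refine sum_congr rfl fun z _ => ?_
        rw [hT, mul_sum]
        refine sum_congr rfl fun x _ => ?_
        ring
      rw [e4, e5]
      ring
    rw [e1]
    exact e2.trans (le_of_eq e3)
  set A := ∑ y, T y ^ 2 with hA
  set H := ∑ x, h x ^ 2 with hH
  have h2 : (∑ z, h z * T z) ^ 2 ≤ H * A := sum_mul_sq_le_sq_mul_sq univ h T
  have hA0 : 0 ≤ A := sum_nonneg fun _ _ => sq_nonneg _
  have hH0 : 0 ≤ H := sum_nonneg fun _ _ => sq_nonneg _
  have h3 : A ^ 2 ≤ 4 * H * A := by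
    have : A ^ 2 ≤ (2 * ∑ z, h z * T z) ^ 2 := pow_le_pow_left₀ hA0 h1 2
    nlinarith
  rcases hA0.eq_or_lt with h4 | h4
  · rw [← h4]; positivity
  · by_contra hcon
    push Not at hcon
    nlinarith

/-- The linearized maximal inequality. -/
theorem max_lin (τ : Equiv.Perm X) (n : X → ℕ) (hn : ∀ x, 0 < n x) (g : X → ℝ)
    (hg : ∀ x, 0 ≤ g x) :
    ∑ x, ((n x : ℝ)⁻¹ * ∑ k ∈ range (n x), g ((τ ^ k) x)) ^ 2 ≤ 4 * ∑ x, g x ^ 2 := by
  set T : X → ℝ := fun x => (n x : ℝ)⁻¹ * ∑ k ∈ range (n x), g ((τ ^ k) x) with hT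
  have hT0 : ∀ x, 0 ≤ T x := fun x => mul_nonneg (by positivity) (sum_nonneg fun _ _ => hg _)
  have h1 := max_dual τ n hn T hT0
  set U : X → ℝ := fun y => ∑ x, T x / n x * cnt τ (n x) x y with hU
  have h2 : ∑ x, T x ^ 2 = ∑ y, g y * U y := by
    simp only [hU, mul_sum]
    rw [sum_comm]
    refine sum_congr rfl fun x _ => ?_
    have e : ∑ y, g y * (T x / n x * cnt τ (n x) x y) =
        T x / n x * ∑ y, cnt τ (n x) x y * g y := by
      rw [mul_sum]
      refine sum_congr rfl fun y _ => by ring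
    rw [e, sum_cnt, sq]
    conv_lhs => rw [hT]
    simp only [hT]
    ring
  set A := ∑ x, T x ^ 2 with hA
  set H := ∑ x, g x ^ 2 with hH
  have hA0 : 0 ≤ A := sum_nonneg fun _ _ => sq_nonneg _
  have hH0 : 0 ≤ H := sum_nonneg fun _ _ => sq_nonneg _
  have h3 : (∑ y, g y * U y) ^ 2 ≤ H * ∑ y, U y ^ 2 := sum_mul_sq_le_sq_mul_sq univ g U
  rw [← h2] at h3
  have h4 : A ^ 2 ≤ H * (4 * A) := h3.trans (mul_le_mul_of_nonneg_left h1 hH0)
  rcases hA0.eq_or_lt with h5 | h5
  · rw [← h5]; positivity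
  · by_contra hcon
    push Not at hcon
    nlinarith

/-- **The maximal inequality.** -/
theorem maximal (τ : Equiv.Perm X) (g : X → ℝ) (hg : ∀ x, 0 ≤ g x) (S : Finset ℕ) :
    ∃ h : X → ℝ, (∀ x, 0 ≤ h x) ∧
      (∀ x, ∀ L ∈ S, (L : ℝ)⁻¹ * ∑ k ∈ range L, g ((τ ^ k) x) ≤ h x) ∧
      ∑ x, h x ^ 2 ≤ 4 * ∑ x, g x ^ 2 := by
  by_cases hS : (S.filter (0 < ·)).Nonempty
  · have h1 : ∀ x, ∃ n ∈ S.filter (0 < ·), ∀ L ∈ S.filter (0 < ·),
        (L : ℝ)⁻¹ * ∑ k ∈ range L, g ((τ ^ k) x) ≤ (n : ℝ)⁻¹ * ∑ k ∈ range n, g ((τ ^ k) x) :=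
      fun x => exists_max_image _ (fun L : ℕ => (L : ℝ)⁻¹ * ∑ k ∈ range L, g ((τ ^ k) x)) hS
    choose n hn hmax using h1
    have hn0 : ∀ x, 0 < n x := fun x => (mem_filter.1 (hn x)).2
    have hnn : ∀ x, 0 ≤ (n x : ℝ)⁻¹ * ∑ k ∈ range (n x), g ((τ ^ k) x) := fun x =>
      mul_nonneg (by positivity) (sum_nonneg fun _ _ => hg _)
    refine ⟨fun x => (n x : ℝ)⁻¹ * ∑ k ∈ range (n x), g ((τ ^ k) x), hnn, ?_,
      max_lin τ n hn0 g hg⟩
    intro x L hL
    rcases Nat.eq_zero_or_pos L with h0 | h0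
    · subst h0
      simpa using hnn x
    · exact hmax x L (mem_filter.2 ⟨hL, h0⟩)
  · refine ⟨fun _ => 0, fun _ => le_rfl, ?_, ?_⟩
    · intro x L hL
      rcases Nat.eq_zero_or_pos L with h0 | h0
      · subst h0
        simp
      · exact absurd ⟨L, mem_filter.2 ⟨hL, h0⟩⟩ hS
    · have : 0 ≤ ∑ x, g x ^ 2 := sum_nonneg fun _ _ => sq_nonneg _
      simp only [ne_eq, OfNat.ofNat_ne_zero, not_false_eq_true, zero_pow, sum_const_zero]
      linarith

end Pool.Agent.Zk89.BT
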