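import Pool.Agent.Zk89.BT.Det

/-!
# Integer polynomials
-/

set_option autoImplicit false
set_option linter.unusedSectionVars false

open Finset Filter Topology MeasureTheory Polynomial
open scoped ENNReal

noncomputable section

namespace Pool.Agent.Zk89.BT

open Pool.Agent.Helper602.MK (ee)

/-- degree at most `k` and positive coefficient of degree `k` -/
def LP (k : ℕ) (Q : ℤ[X]) : Prop := Q.natDegree ≤ k ∧ 0 < Q.coeff k

theorem LP.pos {k : ℕ} {Q : ℤ[X]} (h : LP k Q) : ∀ᶠ n : ℕ in atTop, 0 < Q.eval (n : ℤ) := by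
  have hdeg : Q.natDegree = k := le_antisymm h.1 (Polynomial.le_natDegree_of_ne_zero h.2.ne')
  have hlead : 0 < Q.leadingCoeff := by
    rw [Polynomial.leadingCoeff, hdeg]
    exact h.2
  rcases Nat.eq_zero_or_pos k with h0 | h0
  · subst h0
    have h1 : Q = C (Q.coeff 0) := eq_C_of_natDegree_le_zero h.1
    refine Eventually.of_forall fun n => ?_
    rw [h1, eval_C]
    exact h.2
  · set Q' : ℝ[X] := Q.map (Int.castRingHom ℝ) with hQ'
    have hinj : Function.Injective (Int.castRingHom ℝ) := Int.cast_injective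
    have hd' : 0 < Q'.degree := by
      rw [hQ', Polynomial.degree_map_eq_of_injective hinj]
      exact Polynomial.natDegree_pos_iff_degree_pos.1 (by omega)
    have hl' : 0 ≤ Q'.leadingCoeff := by
      rw [hQ', Polynomial.leadingCoeff_map_of_injective hinj]
      show (0 : ℝ) ≤ ((Q.leadingCoeff : ℤ) : ℝ)
      exact_mod_cast hlead.le
    have h1 := Q'.tendsto_atTop_of_leadingCoeff_nonneg hd' hl'
    have h2 := h1.comp (tendsto_natCast_atTop_atTop (R := ℝ))
    filter_upwards [h2.eventually_gt_atTop 0] with n hn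
    have h3 : Q'.eval (n : ℝ) = ((Q.eval (n : ℤ) : ℤ) : ℝ) := by
      rw [hQ']
      rw [← Int.cast_natCast (R := ℝ) n, Polynomial.eval_intCast_map]
      rfl
    simp only [Function.comp_apply, h3] at hn
    exact_mod_cast hn

/-- differences -/
def dl (Q : ℤ[X]) : ℤ[X] := taylor 1 Q - Q

theorem dl_eval (Q : ℤ[X]) (n : ℤ) : (dl Q).eval n = Q.eval (n + 1) - Q.eval n := by
  unfold dl
  rw [eval_sub, taylor_eval]

theorem LP.dl {k : ℕ} {Q : ℤ[X]} (h : LP (k + 1) Q) : LP k (dl Q) := by
  have hcoef : ∀ j, k ≤ j → (taylor (1 : ℤ) Q).coeff j = Q.coeff j +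
      (if j = k then ((k : ℤ) + 1) * Q.coeff (k + 1) else 0) := by
    intro j hj
    rw [taylor_coeff]
    have h1 : (hasseDeriv j Q).natDegree < 2 := by
      have := natDegree_hasseDeriv_le Q j
      have := h.1
      omega
    rw [eval_eq_sum_range' h1, Finset.sum_range_succ, Finset.sum_range_succ,
      Finset.sum_range_zero, hasseDeriv_coeff, hasseDeriv_coeff]
    rcases eq_or_ne j k with h2 | h2
    · subst h2
      rw [if_pos rfl, zero_add, zero_add, Nat.choose_self, add_comm 1 j,
        Nat.choose_succ_self_right]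
      push_cast
      ring
    · rw [if_neg h2]
      have h3 : Q.coeff (1 + j) = 0 := coeff_eq_zero_of_natDegree_lt (by
        have := h.1
        omega)
      rw [h3, zero_add, zero_add, Nat.choose_self]
      push_cast
      ring
  constructor
  · rw [natDegree_le_iff_coeff_eq_zero]
    intro j hj
    unfold BT.dl
    rw [coeff_sub, hcoef j (by omega), if_neg (by omega)]
    ring
  · unfold BT.dl
    rw [coeff_sub, hcoef k le_rfl, if_pos rfl]
    have := h.2
    have h1 : Q.coeff k + ((k : ℤ) + 1) * Q.coeff (k + 1) - Q.coeff k =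
        ((k : ℤ) + 1) * Q.coeff (k + 1) := by ring
    rw [h1]
    positivity

theorem poly_bound (Q : ℤ[X]) (k : ℕ) (hk : Q.natDegree ≤ k) :
    ∃ B : ℕ, ∀ n : ℕ, |Q.eval (n : ℤ)| ≤ B * ((n : ℤ) + 1) ^ k := by
  refine ⟨(∑ i ∈ range (k + 1), |Q.coeff i|).toNat, fun n => ?_⟩
  have h0 : 0 ≤ ∑ i ∈ range (k + 1), |Q.coeff i| := sum_nonneg fun _ _ => abs_nonneg _
  rw [Int.toNat_of_nonneg h0, eval_eq_sum_range' (n := k + 1) (by omega)]
  refine (abs_sum_le_sum_abs _ _).trans ?_
  rw [sum_mul]
  refine sum_le_sum fun i hi => ?_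
  rw [abs_mul]
  refine mul_le_mul_of_nonneg_left ?_ (abs_nonneg _)
  rw [abs_pow, abs_of_nonneg (by positivity : (0 : ℤ) ≤ (n : ℤ))]
  calc (n : ℤ) ^ i ≤ ((n : ℤ) + 1) ^ i := by gcongr; omega
    _ ≤ ((n : ℤ) + 1) ^ k := by
      refine pow_le_pow_right₀ (by omega) ?_
      have := mem_range.1 hi
      omega

/-- **Integer polynomials give polynomial sequences.** -/
theorem exists_PS (P : ℤ[X]) (d : ℕ) (hd : 1 ≤ d) (hP : LP d P) :
    ∃ c A : ℕ, PS (fun n => (P.eval ((n + c : ℕ) : ℤ) - P.eval (c : ℤ)).toNat) d A := by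
  obtain ⟨d', rfl⟩ : ∃ d', d = d' + 1 := ⟨d - 1, by omega⟩
  have hΔ : LP d' (dl P) := hP.dl
  -- differences are positive, second differences nonnegative
  have h1 : ∀ᶠ n : ℕ in atTop, 0 < (dl P).eval (n : ℤ) := hΔ.pos
  have h2 : ∀ᶠ n : ℕ in atTop, 0 ≤ (dl (dl P)).eval (n : ℤ) := by
    rcases Nat.eq_zero_or_pos d' with h0 | h0
    · subst h0
      have h3 : dl P = C ((dl P).coeff 0) := eq_C_of_natDegree_le_zero hΔ.1
      refine Eventually.of_forall fun n => ?_
      rw [dl_eval, h3, eval_C, eval_C, sub_self]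
    · obtain ⟨e, rfl⟩ : ∃ e, d' = e + 1 := ⟨d' - 1, by omega⟩
      filter_upwards [hΔ.dl.pos] with n hn
      exact hn.le
  obtain ⟨c, hc⟩ := eventually_atTop.1 (h1.and h2)
  have hpos : ∀ n : ℕ, 0 < (dl P).eval ((n + c : ℕ) : ℤ) := fun n => (hc (n + c) (by omega)).1
  have hinc : ∀ n : ℕ, (dl P).eval ((n + c : ℕ) : ℤ) ≤ (dl P).eval ((n + 1 + c : ℕ) : ℤ) := by
    intro n
    have h3 := (hc (n + c) (by omega)).2
    rw [dl_eval] at h3
    have e : ((n + 1 + c : ℕ) : ℤ) = ((n + c : ℕ) : ℤ) + 1 := by push_cast; ring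
    rw [e]
    linarith
  -- the shifted polynomial
  set R : ℤ[X] := taylor (c : ℤ) P - C (P.eval (c : ℤ)) with hR
  have hRe : ∀ n : ℕ, R.eval (n : ℤ) = P.eval ((n + c : ℕ) : ℤ) - P.eval (c : ℤ) := by
    intro n
    rw [hR, eval_sub, taylor_eval, eval_C]
    push_cast
    ring_nf
  have hRd : R.natDegree ≤ d' + 1 := by
    rw [hR]
    refine (natDegree_sub_le _ _).trans ?_
    rw [natDegree_taylor, natDegree_C]
    exact max_le hP.1 (Nat.zero_le _)
  have hRc : R.coeff (d' + 1) = P.coeff (d' + 1) := by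
    rw [hR, coeff_sub, coeff_C, if_neg (by omega), sub_zero]
    have hdeg : P.natDegree = d' + 1 :=
      le_antisymm hP.1 (Polynomial.le_natDegree_of_ne_zero hP.2.ne')
    have h3 := Polynomial.coeff_taylor_natDegree (r := (c : ℤ)) (f := P)
    rw [hdeg] at h3
    rw [h3, leadingCoeff, hdeg]
  set p : ℕ → ℕ := fun n => (P.eval ((n + c : ℕ) : ℤ) - P.eval (c : ℤ)).toNat with hp
  have hmonoP : ∀ n : ℕ, P.eval (c : ℤ) ≤ P.eval ((n + c : ℕ) : ℤ) := by
    intro n
    induction n with
    | zero => simp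
    | succ n ih =>
      have h3 := hpos n
      rw [dl_eval] at h3
      have e : ((n + 1 + c : ℕ) : ℤ) = ((n + c : ℕ) : ℤ) + 1 := by push_cast; ring
      rw [e]
      linarith
  have hpz : ∀ n : ℕ, (p n : ℤ) = R.eval (n : ℤ) := by
    intro n
    rw [hp, hRe]
    exact Int.toNat_of_nonneg (by linarith [hmonoP n])
  have hpz' : ∀ n : ℕ, (p n : ℤ) = P.eval ((n + c : ℕ) : ℤ) - P.eval (c : ℤ) := by
    intro n
    rw [hpz, hRe]
  have hdiff : ∀ n : ℕ, (p (n + 1) : ℤ) - p n = (dl P).eval ((n + c : ℕ) : ℤ) := by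
    intro n
    rw [hpz', hpz', dl_eval]
    have e : ((n + 1 + c : ℕ) : ℤ) = ((n + c : ℕ) : ℤ) + 1 := by push_cast; ring
    rw [e]
    ring
  have hlt : ∀ n, p n < p (n + 1) := by
    intro n
    have h3 := hdiff n
    have h4 := hpos n
    have h5 : (p n : ℤ) < p (n + 1) := by linarith
    exact_mod_cast h5
  have hwt : ∀ n, (wt p n : ℤ) = (dl P).eval ((n + c : ℕ) : ℤ) := by
    intro n
    rw [← hdiff]
    unfold wt
    have := hlt n
    omega
  have hp0 : p 0 = 0 := by
    have : (p 0 : ℤ) = 0 := by rw [hpz']; simp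
    exact_mod_cast this
  have hsm : StrictMono p := strictMono_nat_of_lt_succ hlt
  -- upper bound
  obtain ⟨B, hB⟩ := poly_bound (taylor (c : ℤ) (dl P)) d' (by
    rw [natDegree_taylor]
    exact hΔ.1)
  -- lower bound
  have hlow : ∃ n₀ : ℕ, ∀ n ≥ n₀, n ^ (d' + 1) ≤ 2 * p n := by
    have h3 : LP (d' + 1) (C 2 * R - X ^ (d' + 1)) := by
      constructor
      · refine (natDegree_sub_le _ _).trans (max_le ?_ ?_)
        · refine (natDegree_C_mul_le _ _).trans hRd
        · rw [natDegree_X_pow]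
      · rw [coeff_sub, coeff_C_mul, hRc, coeff_X_pow, if_pos rfl]
        have := hP.2
        linarith
    obtain ⟨n₀, hn₀⟩ := eventually_atTop.1 h3.pos
    refine ⟨n₀, fun n hn => ?_⟩
    have h4 := hn₀ n hn
    rw [eval_sub, eval_mul, eval_C, eval_pow, eval_X, ← hpz] at h4
    have h5 : ((n : ℤ)) ^ (d' + 1) ≤ 2 * p n := by linarith
    exact_mod_cast h5
  obtain ⟨n₀, hn₀⟩ := hlow
  refine ⟨c, B + 2 + n₀ ^ (d' + 1), ?_⟩
  exact
    { d_pos := hd
      A_pos := by omega
      zero := hp0
      lt := hlt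
      mono := by
        refine monotone_nat_of_le_succ fun n => ?_
        have h3 := hinc n
        have h4 := hwt n
        have h5 := hwt (n + 1)
        have h6 : (wt p n : ℤ) ≤ wt p (n + 1) := by rw [h4, h5]; exact h3
        exact_mod_cast h6
      up := by
        intro n
        have h3 := hB n
        rw [taylor_eval, ← Nat.cast_add, ← hwt, abs_of_nonneg (by positivity)] at h3
        have h4 : wt p n ≤ B * (n + 1) ^ d' := by exact_mod_cast h3
        have h5 : d' + 1 - 1 = d' := by omega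
        rw [h5]
        refine h4.trans (Nat.mul_le_mul_right _ ?_)
        omega
      low := by
        intro n
        rcases Nat.eq_zero_or_pos n with h0 | h0
        · subst h0
          simp
        have hpn : 1 ≤ p n := by
          have := hsm h0
          omega
        rcases le_total n₀ n with h3 | h3
        · refine (hn₀ n h3).trans (Nat.mul_le_mul_right _ ?_)
          omega
        · have h4 : n ^ (d' + 1) ≤ n₀ ^ (d' + 1) := Nat.pow_le_pow_left h3 _
          calc n ^ (d' + 1) ≤ n₀ ^ (d' + 1) * 1 := by omega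
            _ ≤ (B + 2 + n₀ ^ (d' + 1)) * p n := Nat.mul_le_mul (by omega) hpn
      per := by
        intro q n
        have h3 := Polynomial.sub_dvd_eval_sub ((n + q : ℕ) : ℤ) (n : ℤ) R
        rw [← hpz, ← hpz] at h3
        have e : ((n + q : ℕ) : ℤ) - (n : ℤ) = q := by push_cast; ring
        rwa [e] at h3
      weyl := by
        obtain ⟨C₀, m, hC₀, hI⟩ := Pool.Agent.H373R2.NB.IW_all (d' + 1) hd
        have hlc : 0 < P.coeff (d' + 1) := hP.2
        set a : ℕ := (P.coeff (d' + 1)).toNat with ha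
        have haz : (a : ℤ) = P.coeff (d' + 1) := Int.toNat_of_nonneg hlc.le
        have ha1 : 1 ≤ a := by
          have : (0 : ℤ) < a := by rw [haz]; exact hlc
          exact_mod_cast this
        set D : ℕ := (d' + 1).factorial * a with hD
        have hD1 : 1 ≤ D := Nat.one_le_iff_ne_zero.2 (by
          have := Nat.factorial_pos (d' + 1)
          positivity)
        refine ⟨C₀ * D, m, Nat.one_le_iff_ne_zero.2 (by positivity), ?_⟩
        intro N u θ hN hu hS
        have hPh := Pool.Agent.H373R2.NB.Ph_poly (d' + 1) R hRd θ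
        have hcf : θ * (((d' + 1).factorial : ℝ) * (R.coeff (d' + 1) : ℤ)) = θ * D := by
          rw [hRc, ← haz, hD]
          push_cast
          ring
        rw [hcf] at hPh
        have hS' : (N : ℝ) ≤ u * ‖∑ n ∈ range N, ee ((fun n : ℕ => θ *
            ((R.eval (n : ℤ) : ℤ) : ℝ)) n)‖ := by
          refine hS.trans (le_of_eq ?_)
          congr 2
          refine sum_congr rfl fun n _ => ?_
          show ee ((p n : ℝ) * θ) = ee (θ * ((R.eval (n : ℤ) : ℤ) : ℝ))
          rw [← hpz, mul_comm, Int.cast_natCast]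
        obtain ⟨q, hq1, hq2, b, hb⟩ := hI N u (θ * D) _ hN hu hPh hS'
        have hq0 : (0 : ℝ) < q := by exact_mod_cast hq1
        have hq1' : (1 : ℝ) ≤ q := by exact_mod_cast hq1
        have hD0 : (0 : ℝ) < D := by exact_mod_cast hD1
        have hD1' : (1 : ℝ) ≤ D := by exact_mod_cast hD1
        have hN0 : (0 : ℝ) < N := by exact_mod_cast hN
        refine ⟨q * D, Nat.one_le_iff_ne_zero.2 (by positivity), ?_, b, ?_⟩
        · push_cast
          calc (q : ℝ) * D ≤ (C₀ * u ^ m) * D := by gcongr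
            _ = C₀ * D * u ^ m := by ring
        · have e1 : θ - b / ((q * D : ℕ) : ℝ) = (q * (θ * D) - b) / (q * D) := by
            push_cast
            field_simp
          rw [e1, abs_div, abs_of_pos (mul_pos hq0 hD0)]
          have h6 : (1 : ℝ) ≤ q * D := by nlinarith
          have h7 : |(q : ℝ) * (θ * D) - b| / (q * D) ≤ |(q : ℝ) * (θ * D) - b| :=
            div_le_self (abs_nonneg _) h6
          refine h7.trans (hb.trans ?_)
          push_cast
          have h8 : (0 : ℝ) ≤ C₀ * u ^ m := by positivity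
          have h9 : (C₀ : ℝ) * u ^ m ≤ C₀ * D * u ^ m := by nlinarith
          gcongr }

end Pool.Agent.Zk89.BT
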