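import Pool.Agent.Zk89.BT.Ker

/-!
# Polynomial sequences: exponential sums on the major and minor arcs
-/

set_option autoImplicit false
set_option linter.unusedSectionVars false

open Finset

noncomputable section

namespace Pool.Agent.Zk89.BT

open Pool.Agent.Helper602.MK (ee)
open Pool.Agent.Helper602.MK.N_J5b (ee_add ee_zero ee_conj norm_ee ee_int ee_nat_mul KD KD_far
  norm_one_sub_ee ee_add_int)

/-- the increments -/
def wt (p : ℕ → ℕ) (n : ℕ) : ℕ := p (n + 1) - p n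

/-- A polynomial sequence of degree `d` with nondecreasing positive increments. -/
structure PS (p : ℕ → ℕ) (d A : ℕ) : Prop where
  d_pos : 1 ≤ d
  A_pos : 1 ≤ A
  zero : p 0 = 0
  lt : ∀ n, p n < p (n + 1)
  mono : Monotone (wt p)
  up : ∀ n, wt p n ≤ A * (n + 1) ^ (d - 1)
  low : ∀ n, n ^ d ≤ A * p n
  per : ∀ q n : ℕ, (q : ℤ) ∣ (p (n + q) : ℤ) - p n
  weyl : ∃ C m : ℕ, 1 ≤ C ∧ ∀ (N : ℕ) (u θ : ℝ), 1 ≤ N → 1 ≤ u →
    (N : ℝ) ≤ u * ‖∑ n ∈ range N, ee (p n * θ)‖ →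
    ∃ q : ℕ, 1 ≤ q ∧ (q : ℝ) ≤ C * u ^ m ∧ ∃ a : ℤ, |θ - a / q| ≤ C * u ^ m / (N : ℝ) ^ d

variable {p : ℕ → ℕ} {d A : ℕ}

namespace PS

theorem succ (h : PS p d A) (n : ℕ) : p (n + 1) = p n + wt p n := by
  unfold wt
  have := h.lt n
  omega

theorem sum_wt (h : PS p d A) (N : ℕ) : ∑ n ∈ range N, wt p n = p N := by
  induction N with
  | zero => simp [h.zero]
  | succ N ih => rw [sum_range_succ, ih, h.succ]

theorem wt_pos (h : PS p d A) (n : ℕ) : 1 ≤ wt p n := by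
  unfold wt
  have := h.lt n
  omega

theorem strictMono (h : PS p d A) : StrictMono p := strictMono_nat_of_lt_succ h.lt

theorem pos (h : PS p d A) {N : ℕ} (hN : 1 ≤ N) : 0 < p N := by
  have := h.strictMono (show 0 < N by omega)
  rw [h.zero] at this
  exact this

theorem low' (h : PS p d A) (N : ℕ) : (N : ℝ) ^ d ≤ A * p N := by exact_mod_cast h.low N

theorem up' (h : PS p d A) {N : ℕ} (hN : 1 ≤ N) : (wt p (N - 1) : ℝ) ≤ A * (N : ℝ) ^ (d - 1) := by
  have h1 := h.up (N - 1)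
  rw [Nat.sub_add_cancel hN] at h1
  exact_mod_cast h1

theorem upp (h : PS p d A) (N : ℕ) : p N ≤ A * N ^ d := by
  rcases Nat.eq_zero_or_pos N with h0 | h0
  · subst h0
    rw [h.zero]
    exact Nat.zero_le _
  rw [← h.sum_wt]
  have h1 : ∀ n ∈ range N, wt p n ≤ A * N ^ (d - 1) := by
    intro n hn
    refine (h.up n).trans (Nat.mul_le_mul_left _ (Nat.pow_le_pow_left ?_ _))
    have := mem_range.1 hn
    omega
  refine (sum_le_sum h1).trans ?_
  rw [sum_const, card_range, smul_eq_mul]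
  have h2 : N ^ d = N * N ^ (d - 1) := by
    rw [← pow_succ', Nat.sub_add_cancel h.d_pos]
  rw [h2]
  exact le_of_eq (by ring)

theorem upp' (h : PS p d A) (N : ℕ) : (p N : ℝ) ≤ A * (N : ℝ) ^ d := by
  exact_mod_cast h.upp N

end PS

/-- The weighted exponential sum. -/
def wa (p : ℕ → ℕ) (N : ℕ) (θ : ℝ) : ℂ :=
  (p N : ℂ)⁻¹ * ∑ n ∈ range N, (wt p n : ℂ) * ee (p n * θ)

theorem wa_norm_le (h : PS p d A) (N : ℕ) (θ : ℝ) : ‖wa p N θ‖ ≤ 1 := by
  unfold wa
  rcases Nat.eq_zero_or_pos (p N) with h0 | h0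
  · rw [h0]; simp
  have hX : (0 : ℝ) < p N := by exact_mod_cast h0
  rw [norm_mul, norm_inv, Complex.norm_natCast, inv_mul_le_iff₀ hX, mul_one]
  refine (norm_sum_le _ _).trans ?_
  simp only [norm_mul, norm_ee, mul_one, Complex.norm_natCast]
  rw [← Nat.cast_sum, h.sum_wt]

/-- Summation by parts. -/
theorem abel_bound (N : ℕ) (hN : 1 ≤ N) (f : ℕ → ℂ) (g : ℕ → ℂ) (Z : ℝ)
    (hZ : ∀ M ≤ N, ‖∑ n ∈ range M, g n‖ ≤ Z) :
    ‖∑ n ∈ range N, f n * g n‖ ≤
      Z * (‖f (N - 1)‖ + ∑ n ∈ range (N - 1), ‖f (n + 1) - f n‖) := by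
  have h1 := Finset.sum_range_by_parts f g N
  simp only [smul_eq_mul] at h1
  rw [h1]
  refine (norm_sub_le _ _).trans ?_
  rw [mul_add]
  refine add_le_add ?_ ?_
  · rw [norm_mul, mul_comm]
    exact mul_le_mul_of_nonneg_right (hZ N le_rfl) (norm_nonneg _)
  · rw [mul_sum]
    refine (norm_sum_le _ _).trans (sum_le_sum fun n hn => ?_)
    rw [norm_mul, mul_comm]
    refine mul_le_mul_of_nonneg_right (hZ (n + 1) ?_) (norm_nonneg _)
    have := mem_range.1 hn
    omega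

theorem PS.sum_incr (h : PS p d A) (N : ℕ) :
    ∑ n ∈ range N, ((wt p (n + 1) : ℝ) - wt p n) = wt p N - wt p 0 := by
  exact Finset.sum_range_sub (fun n => (wt p n : ℝ)) N

/-- **Minor arcs**, weighted sums. -/
theorem minor (h : PS p d A) : ∃ C m : ℕ, 1 ≤ C ∧ ∀ (N : ℕ) (u θ : ℝ), 1 ≤ N → 1 ≤ u →
    1 ≤ u * ‖wa p N θ‖ →
    ∃ q : ℕ, 1 ≤ q ∧ (q : ℝ) ≤ C * u ^ m ∧ ∃ a : ℤ, |θ - a / q| ≤ C * u ^ m / (N : ℝ) ^ d := by
  obtain ⟨C, m, hC, hW⟩ := h.weyl
  refine ⟨C * (2 * A ^ 2) ^ (m + d), m + d, ?_, ?_⟩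
  · have : 0 < A := h.A_pos
    exact Nat.one_le_iff_ne_zero.2 (by positivity)
  intro N u θ hN hu hwa
  have hA : (1 : ℝ) ≤ A := by exact_mod_cast h.A_pos
  have hN0 : (0 : ℝ) < N := by exact_mod_cast hN
  have hp0 : (0 : ℝ) < p N := by exact_mod_cast h.pos hN
  -- the maximal partial sum
  obtain ⟨M, hM, hmax⟩ := exists_max_image (range (N + 1))
    (fun M => ‖∑ n ∈ range M, ee (p n * θ)‖) ⟨0, by simp⟩
  set Z := ‖∑ n ∈ range M, ee (p n * θ)‖ with hZ
  have hMN : M ≤ N := by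
    have := mem_range.1 hM
    omega
  have hZle : ∀ K ≤ N, ‖∑ n ∈ range K, ee (p n * θ)‖ ≤ Z := fun K hK =>
    hmax K (mem_range.2 (by omega))
  have hZ0 : 0 ≤ Z := norm_nonneg _
  have hZM : Z ≤ M := by
    rw [hZ]
    refine (norm_sum_le _ _).trans ?_
    simp [norm_ee]
  have h1 := abel_bound N hN (fun n => (wt p n : ℂ)) (fun n => ee (p n * θ)) Z hZle
  have h2 : ‖((wt p (N - 1) : ℕ) : ℂ)‖ + ∑ n ∈ range (N - 1),
      ‖((wt p (n + 1) : ℕ) : ℂ) - (wt p n : ℕ)‖ ≤ 2 * (A * (N : ℝ) ^ (d - 1)) := by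
    have h3 : ∀ n ∈ range (N - 1), ‖((wt p (n + 1) : ℕ) : ℂ) - (wt p n : ℕ)‖ =
        (wt p (n + 1) : ℝ) - wt p n := by
      intro n _
      have h4 : (wt p n : ℝ) ≤ wt p (n + 1) := by exact_mod_cast h.mono (Nat.le_succ n)
      rw [← Complex.ofReal_natCast, ← Complex.ofReal_natCast, ← Complex.ofReal_sub,
        Complex.norm_real, Real.norm_eq_abs, abs_of_nonneg (by linarith)]
    rw [sum_congr rfl h3, h.sum_incr, Complex.norm_natCast]
    have h5 := h.up' hN
    have h6 : (0 : ℝ) ≤ wt p 0 := Nat.cast_nonneg _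
    linarith
  have h3 : (p N : ℝ) * ‖wa p N θ‖ ≤ Z * (2 * (A * (N : ℝ) ^ (d - 1))) := by
    have e : (p N : ℝ) * ‖wa p N θ‖ = ‖∑ n ∈ range N, (wt p n : ℂ) * ee (p n * θ)‖ := by
      unfold wa
      rw [norm_mul, norm_inv, Complex.norm_natCast, mul_inv_cancel_left₀ hp0.ne']
    rw [e]
    exact h1.trans (mul_le_mul_of_nonneg_left h2 hZ0)
  -- lower bound for Z
  set v := 2 * (A : ℝ) ^ 2 * u with hv
  have hv1 : 1 ≤ v := by
    rw [hv]
    have : 1 ≤ (A : ℝ) ^ 2 := one_le_pow₀ hA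
    nlinarith
  have hv0 : 0 < v := by linarith
  have h4 : (N : ℝ) ≤ v * Z := by
    have h5 := h.low' N
    have h6 : (N : ℝ) ^ d = N * (N : ℝ) ^ (d - 1) := by
      rw [← pow_succ', Nat.sub_add_cancel h.d_pos]
    have h7 : (0 : ℝ) < (N : ℝ) ^ (d - 1) := by positivity
    have hu0 : 0 < u := by linarith
    have h8 : (N : ℝ) ^ d ≤ A * (u * (Z * (2 * (A * (N : ℝ) ^ (d - 1))))) := by
      calc (N : ℝ) ^ d ≤ A * p N := h5
        _ ≤ A * (u * (p N * ‖wa p N θ‖)) := by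
          have : (p N : ℝ) ≤ u * (p N * ‖wa p N θ‖) := by nlinarith
          gcongr
        _ ≤ A * (u * (Z * (2 * (A * (N : ℝ) ^ (d - 1))))) := by gcongr
    rw [h6] at h8
    have h9 : (A : ℝ) * (u * (Z * (2 * (A * (N : ℝ) ^ (d - 1))))) =
        (v * Z) * (N : ℝ) ^ (d - 1) := by
      rw [hv]; ring
    rw [h9] at h8
    exact le_of_mul_le_mul_right h8 h7
  have hZpos : 0 < Z := by
    by_contra hcon
    have : Z = 0 := le_antisymm (not_lt.1 hcon) hZ0
    rw [this, mul_zero] at h4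
    linarith
  have hM1 : 1 ≤ M := by
    by_contra hcon
    have : M = 0 := by omega
    rw [this] at hZM
    norm_num at hZM
    linarith
  have hM0 : (0 : ℝ) < M := by exact_mod_cast hM1
  have hMN' : (M : ℝ) ≤ N := by exact_mod_cast hMN
  obtain ⟨q, hq1, hq2, a, ha⟩ := hW M v θ hM1 hv1 (hMN'.trans h4)
  have hvm : v ^ m ≤ v ^ (m + d) := pow_le_pow_right₀ hv1 (Nat.le_add_right _ _)
  have hcoef : ((C * (2 * A ^ 2) ^ (m + d) : ℕ) : ℝ) * u ^ (m + d) = C * v ^ (m + d) := by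
    rw [hv, mul_pow]
    push_cast
    ring
  refine ⟨q, hq1, ?_, a, ha.trans ?_⟩
  · rw [hcoef]
    refine hq2.trans ?_
    gcongr
  · rw [hcoef]
    rw [div_le_div_iff₀ (by positivity) (by positivity)]
    have h5 : (N : ℝ) ≤ v * M := h4.trans (mul_le_mul_of_nonneg_left hZM hv0.le)
    have h6 : (N : ℝ) ^ d ≤ v ^ d * (M : ℝ) ^ d := by
      rw [← mul_pow]
      exact pow_le_pow_left₀ hN0.le h5 d
    calc (C : ℝ) * v ^ m * (N : ℝ) ^ d ≤ C * v ^ m * (v ^ d * (M : ℝ) ^ d) := by gcongr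
      _ = C * v ^ (m + d) * (M : ℝ) ^ d := by rw [pow_add]; ring

/-- The Gauss sum. -/
def GS (p : ℕ → ℕ) (q : ℕ) (a : ℤ) : ℂ :=
  (q : ℂ)⁻¹ * ∑ r ∈ range q, ee (p r * ((a : ℝ) / q))

theorem GS_norm_le (q : ℕ) (a : ℤ) : ‖GS p q a‖ ≤ 1 := by
  unfold GS
  rcases Nat.eq_zero_or_pos q with h | h
  · subst h; simp
  have hX : (0 : ℝ) < q := by exact_mod_cast h
  rw [norm_mul, norm_inv, Complex.norm_natCast, inv_mul_le_iff₀ hX, mul_one]
  refine (norm_sum_le _ _).trans ?_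
  simp [norm_ee]

theorem ee_per (h : PS p d A) {q : ℕ} (hq : 1 ≤ q) (a : ℤ) (n : ℕ) :
    ee (p (n + q) * ((a : ℝ) / q)) = ee (p n * ((a : ℝ) / q)) := by
  obtain ⟨c, hc⟩ := h.per q n
  have hq0 : (q : ℝ) ≠ 0 := by
    have : 0 < q := hq
    exact_mod_cast this.ne'
  have h1 : (p (n + q) : ℝ) = p n + q * c := by
    have : (p (n + q) : ℤ) = p n + q * c := by linarith
    exact_mod_cast this
  have h2 : (p (n + q) : ℝ) * ((a : ℝ) / q) = p n * ((a : ℝ) / q) + ((c * a : ℤ) : ℝ) := by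
    rw [h1]
    push_cast
    field_simp
  rw [h2, ee_add_int]

/-- partial sums of a periodic function of mean zero -/
theorem per_sum {q : ℕ} (hq : 1 ≤ q) (g : ℕ → ℂ) (hg : ∀ n, g (n + q) = g n)
    (hb : ∀ n, ‖g n‖ ≤ 1) (N : ℕ) :
    ‖∑ n ∈ range N, (g n - (q : ℂ)⁻¹ * ∑ r ∈ range q, g r)‖ ≤ 2 * q := by
  have hq0 : (0 : ℝ) < q := by exact_mod_cast hq
  have hqc : (q : ℂ) ≠ 0 := by exact_mod_cast (show q ≠ 0 by omega)
  set S := (q : ℂ)⁻¹ * ∑ r ∈ range q, g r with hS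
  have hS1 : ‖S‖ ≤ 1 := by
    rw [hS, norm_mul, norm_inv, Complex.norm_natCast, inv_mul_le_iff₀ hq0, mul_one]
    refine (norm_sum_le _ _).trans ((sum_le_sum fun n _ => hb n).trans ?_)
    simp
  have hfull : ∑ n ∈ range q, (g n - S) = 0 := by
    rw [sum_sub_distrib, sum_const, card_range, nsmul_eq_mul, hS, mul_inv_cancel_left₀ hqc,
      sub_self]
  induction N using Nat.strong_induction_on with
  | _ N ih =>
    rcases lt_or_ge N q with h1 | h1
    · refine (norm_sum_le _ _).trans ?_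
      have h2 : ∀ n ∈ range N, ‖g n - S‖ ≤ 2 := by
        intro n _
        refine (norm_sub_le _ _).trans ?_
        linarith [hb n]
      refine (sum_le_sum h2).trans ?_
      rw [sum_const, card_range, nsmul_eq_mul]
      have : (N : ℝ) ≤ q := by exact_mod_cast h1.le
      linarith
    · obtain ⟨K, rfl⟩ := Nat.exists_eq_add_of_le h1
      rw [sum_range_add, hfull, zero_add]
      have h2 : ∑ n ∈ range K, (g (q + n) - S) = ∑ n ∈ range K, (g n - S) := by
        refine sum_congr rfl fun n _ => ?_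
        rw [add_comm q n, hg]
      rw [h2]
      exact ih K (by omega)

/-- **Bound for the Gauss sums.** -/
theorem gauss (h : PS p d A) : ∃ C m : ℕ, 1 ≤ C ∧ 1 ≤ m ∧ ∀ (q : ℕ) (a : ℤ), 1 ≤ q →
    IsCoprime a (q : ℤ) → (q : ℝ) * ‖GS p q a‖ ^ m ≤ C := by
  obtain ⟨C, m, hC, hW⟩ := h.weyl
  refine ⟨C, m + 1, hC, by omega, fun q a hq hcop => ?_⟩
  have hq0 : (0 : ℝ) < q := by exact_mod_cast hq
  have hqc : (q : ℂ) ≠ 0 := by exact_mod_cast (show q ≠ 0 by omega)
  have hC1 : (1 : ℝ) ≤ C := by exact_mod_cast hC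
  set s := ‖GS p q a‖ with hs
  have hs1 : s ≤ 1 := GS_norm_le q a
  rcases (norm_nonneg (GS p q a)).eq_or_lt with h0 | h0
  · rw [← hs] at h0
    rw [← h0, zero_pow (by omega), mul_zero]
    linarith
  rw [← hs] at h0
  set u := s⁻¹ with hu
  have hu1 : 1 ≤ u := by rw [hu]; exact (one_le_inv₀ h0).2 hs1
  have hu0 : 0 < u := by linarith
  -- complete sums
  have hfull : ∀ K : ℕ, ∑ n ∈ range (K * q), ee (p n * ((a : ℝ) / q)) = (K * q : ℕ) * GS p q a := by
    intro K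
    rw [sum_blocks]
    have h1 : ∀ k j : ℕ, ee (p (k * q + j) * ((a : ℝ) / q)) = ee (p j * ((a : ℝ) / q)) := by
      intro k j
      induction k with
      | zero => simp
      | succ k ih =>
        rw [show (k + 1) * q + j = (k * q + j) + q by ring, ee_per h hq, ih]
    simp only [h1, sum_const, card_range, nsmul_eq_mul]
    unfold GS
    push_cast
    rw [mul_assoc, mul_inv_cancel_left₀ hqc]
  -- a large K
  obtain ⟨K, hK⟩ := exists_nat_gt (q * (C * u ^ m) * (C * u ^ m) + 1)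
  have hB : 0 < (C : ℝ) * u ^ m := by positivity
  have hK1 : 1 ≤ K := by
    have h2 : (1 : ℝ) < K := by
      refine lt_of_le_of_lt ?_ hK
      have : 0 ≤ q * (C * u ^ m) * (C * u ^ m) := by positivity
      linarith
    exact_mod_cast h2.le
  have hK0 : (0 : ℝ) < K := by exact_mod_cast hK1
  obtain ⟨q', hq'1, hq'2, a', ha'⟩ := hW (K * q) u ((a : ℝ) / q)
    (Nat.one_le_iff_ne_zero.2 (by positivity)) hu1 (by
      rw [hfull, norm_mul, Complex.norm_natCast, ← hs, hu, mul_comm ((K * q : ℕ) : ℝ) s,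
        inv_mul_cancel_left₀ h0.ne'])
  have hq'0 : (0 : ℝ) < q' := by exact_mod_cast hq'1
  have hKq : (K : ℝ) ≤ ((K * q : ℕ) : ℝ) ^ d := by
    have h3 : K ≤ (K * q) ^ d := by
      calc K ≤ K * q := Nat.le_mul_of_pos_right _ hq
        _ ≤ (K * q) ^ d := Nat.le_self_pow (by have := h.d_pos; omega) _
    exact_mod_cast h3
  have heq : a * q' = a' * q := by
    by_contra hne
    have h3 : (1 : ℝ) ≤ |(a : ℝ) * q' - a' * q| := by
      have h4 : a * q' - a' * q ≠ 0 := sub_ne_zero.2 hne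
      have h5 := Int.one_le_abs h4
      exact_mod_cast h5
    have h4 : |(a : ℝ) / q - a' / q'| = |(a : ℝ) * q' - a' * q| / (q * q') := by
      rw [div_sub_div _ _ hq0.ne' hq'0.ne', abs_div, abs_of_pos (mul_pos hq0 hq'0), mul_comm (q : ℝ) (a' : ℝ)]
    rw [h4] at ha'
    have h5 : 1 / (q * q' : ℝ) ≤ C * u ^ m / K := by
      calc 1 / (q * q' : ℝ) ≤ |(a : ℝ) * q' - a' * q| / (q * q') := by gcongr
        _ ≤ C * u ^ m / ((K * q : ℕ) : ℝ) ^ d := ha'
        _ ≤ C * u ^ m / K := by gcongr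
    rw [div_le_div_iff₀ (by positivity) hK0, one_mul] at h5
    have h6 : C * u ^ m * (q * q') ≤ q * (C * u ^ m) * (C * u ^ m) := by
      calc C * u ^ m * (q * q') ≤ C * u ^ m * (q * (C * u ^ m)) := by gcongr
        _ = q * (C * u ^ m) * (C * u ^ m) := by ring
    linarith
  have hdvd : (q : ℤ) ∣ q' := by
    have h3 : (q : ℤ) ∣ a * q' := ⟨a', by rw [heq]; ring⟩
    exact (hcop.symm).dvd_of_dvd_mul_left h3
  have hle : q ≤ q' := Nat.le_of_dvd hq'1 (by exact_mod_cast hdvd)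
  have hle' : (q : ℝ) ≤ C * u ^ m := by
    refine le_trans ?_ hq'2
    exact_mod_cast hle
  have h3 : (q : ℝ) * s ^ m ≤ C := by
    have h4 : u ^ m * s ^ m = 1 := by
      rw [← mul_pow, hu, inv_mul_cancel₀ h0.ne', one_pow]
    calc (q : ℝ) * s ^ m ≤ (C * u ^ m) * s ^ m := by gcongr
      _ = C := by rw [mul_assoc, h4, mul_one]
  calc (q : ℝ) * s ^ (m + 1) = (q * s ^ m) * s := by rw [pow_succ]; ring
    _ ≤ C * 1 := by gcongr
    _ = C := mul_one _

/-- **Major arcs.** -/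
theorem major (h : PS p d A) {N q : ℕ} (hN : 1 ≤ N) (hq : 1 ≤ q) (a : ℤ) (β : ℝ) :
    ‖wa p N ((a : ℝ) / q + β) - GS p q a * DK (p N) β‖ ≤
      40 * A ^ 2 * q * (1 / N + |β| * (N : ℝ) ^ (d - 1)) := by
  have hpi := Real.pi_pos
  have hpi4 := Real.pi_le_four
  have hA : (1 : ℝ) ≤ A := by exact_mod_cast h.A_pos
  have hA0 : (0 : ℝ) < A := by linarith
  have hN0 : (0 : ℝ) < N := by exact_mod_cast hN
  have hq0 : (0 : ℝ) < q := by exact_mod_cast hq
  have hq1 : (1 : ℝ) ≤ q := by exact_mod_cast hq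
  have hp0 : (0 : ℝ) < p N := by exact_mod_cast h.pos hN
  have hpc : (p N : ℂ) ≠ 0 := by exact_mod_cast (h.pos hN).ne'
  set W : ℝ := (wt p (N - 1) : ℝ) with hW
  have hW0 : 0 ≤ W := Nat.cast_nonneg _
  have hWle : W ≤ A * (N : ℝ) ^ (d - 1) := h.up' hN
  have hwW : ∀ n ∈ range N, (wt p n : ℝ) ≤ W := by
    intro n hn
    have := mem_range.1 hn
    rw [hW]
    exact_mod_cast h.mono (show n ≤ N - 1 by omega)
  set g : ℕ → ℂ := fun n => ee (p n * ((a : ℝ) / q)) with hg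
  set f : ℕ → ℂ := fun n => (wt p n : ℂ) * ee (p n * β) with hf
  have hfn : ∀ n, ‖f n‖ = wt p n := by
    intro n
    rw [hf]; simp only [norm_mul, norm_ee, mul_one, Complex.norm_natCast]
  -- first step
  have h1 := abel_bound N hN f (fun n => g n - GS p q a) (2 * q) fun M _ => by
    have := per_sum hq g (fun n => ee_per h hq a n) (fun n => (norm_ee _).le) M
    exact this
  have hvar : ∑ n ∈ range (N - 1), ‖f (n + 1) - f n‖ ≤ W + 8 * (|β| * (W * p N)) := by
    have h2 : ∀ n ∈ range (N - 1), ‖f (n + 1) - f n‖ ≤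
        ((wt p (n + 1) : ℝ) - wt p n) + 8 * (|β| * (W * wt p n)) := by
      intro n hn
      have h3 : f (n + 1) - f n = ((wt p (n + 1) : ℂ) - wt p n) * ee (p (n + 1) * β) +
          (wt p n : ℂ) * (ee (p (n + 1) * β) - ee (p n * β)) := by
        simp only [hf]; ring
      rw [h3]
      refine (norm_add_le _ _).trans (add_le_add ?_ ?_)
      · have h4 : (wt p n : ℝ) ≤ wt p (n + 1) := by exact_mod_cast h.mono (Nat.le_succ n)
        rw [norm_mul, norm_ee, mul_one, ← Complex.ofReal_natCast, ← Complex.ofReal_natCast,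
          ← Complex.ofReal_sub, Complex.norm_real, Real.norm_eq_abs, abs_of_nonneg (by linarith)]
      · rw [norm_mul, Complex.norm_natCast]
        have h4 := norm_ee_sub (p (n + 1) * β) (p n * β)
        have h5 : (p (n + 1) : ℝ) * β - p n * β = wt p n * β := by
          rw [h.succ n]; push_cast; ring
        rw [h5, abs_mul, Nat.abs_cast] at h4
        have h6 : (wt p n : ℝ) ≤ W := hwW n (mem_range.2 (by have := mem_range.1 hn; omega))
        have h7 : (0 : ℝ) ≤ wt p n := Nat.cast_nonneg _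
        calc (wt p n : ℝ) * ‖ee (p (n + 1) * β) - ee (p n * β)‖ ≤
            wt p n * (2 * Real.pi * (wt p n * |β|)) := by gcongr
          _ ≤ wt p n * (2 * 4 * (W * |β|)) := by gcongr
          _ = 8 * (|β| * (W * wt p n)) := by ring
    refine (sum_le_sum h2).trans ?_
    rw [sum_add_distrib, h.sum_incr, ← mul_sum, ← mul_sum, ← mul_sum]
    have h8 : ∑ n ∈ range (N - 1), (wt p n : ℝ) ≤ p N := by
      rw [← Nat.cast_sum, h.sum_wt]
      exact_mod_cast h.strictMono.monotone (Nat.sub_le N 1)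
    have h9 : (0 : ℝ) ≤ wt p 0 := Nat.cast_nonneg _
    have h10 : |β| * (W * ∑ n ∈ range (N - 1), (wt p n : ℝ)) ≤ |β| * (W * p N) := by gcongr
    linarith
  have hE1 : ‖∑ n ∈ range N, f n * (g n - GS p q a)‖ ≤
      2 * q * (2 * W + 8 * (|β| * (W * p N))) := by
    refine h1.trans (mul_le_mul_of_nonneg_left ?_ (by positivity))
    rw [hfn]
    linarith
  -- second step
  have hE2 : ‖∑ n ∈ range N, f n - ∑ y ∈ range (p N), ee (y * β)‖ ≤ 8 * (|β| * (W * p N)) := by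
    have h2 : ∀ K, ∑ y ∈ range (p K), ee (y * β) =
        ∑ n ∈ range K, ∑ j ∈ range (wt p n), ee ((p n + j : ℕ) * β) := by
      intro K
      induction K with
      | zero => simp [h.zero]
      | succ K ih => rw [sum_range_succ, ← ih, h.succ, sum_range_add]
    rw [h2, ← sum_sub_distrib]
    have h3 : ∀ n ∈ range N, ‖f n - ∑ j ∈ range (wt p n), ee ((p n + j : ℕ) * β)‖ ≤
        8 * (|β| * (W * wt p n)) := by
      intro n hn
      have h4 : f n - ∑ j ∈ range (wt p n), ee ((p n + j : ℕ) * β) =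
          ∑ j ∈ range (wt p n), (ee (p n * β) - ee ((p n + j : ℕ) * β)) := by
        rw [sum_sub_distrib, sum_const, card_range, nsmul_eq_mul]
      rw [h4]
      have h5 : ∀ j ∈ range (wt p n), ‖ee (p n * β) - ee ((p n + j : ℕ) * β)‖ ≤
          8 * (|β| * W) := by
        intro j hj
        refine (norm_ee_sub _ _).trans ?_
        have e : (p n : ℝ) * β - ((p n + j : ℕ) : ℝ) * β = -(j * β) := by push_cast; ring
        rw [e, abs_neg, abs_mul, Nat.abs_cast]
        have h6 : (j : ℝ) ≤ W := by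
          refine le_trans ?_ (hwW n hn)
          exact_mod_cast (mem_range.1 hj).le
        calc 2 * Real.pi * (j * |β|) ≤ 2 * 4 * (W * |β|) := by gcongr
          _ = 8 * (|β| * W) := by ring
      refine (norm_sum_le _ _).trans ((sum_le_sum h5).trans ?_)
      rw [sum_const, card_range, nsmul_eq_mul]
      exact le_of_eq (by ring)
    refine (norm_sum_le _ _).trans ((sum_le_sum h3).trans ?_)
    rw [← mul_sum, ← mul_sum, ← mul_sum, ← Nat.cast_sum, h.sum_wt]
  -- conclusion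
  have hmain : (p N : ℂ) * (wa p N ((a : ℝ) / q + β) - GS p q a * DK (p N) β) =
      ∑ n ∈ range N, f n * (g n - GS p q a) +
      GS p q a * (∑ n ∈ range N, f n - ∑ y ∈ range (p N), ee (y * β)) := by
    have h2 : (p N : ℂ) * wa p N ((a : ℝ) / q + β) = ∑ n ∈ range N, f n * g n := by
      unfold wa
      rw [mul_inv_cancel_left₀ hpc]
      refine sum_congr rfl fun n _ => ?_
      simp only [hf, hg]
      rw [mul_assoc, ← ee_add]
      congr 2
      ring
    have h3 : (p N : ℂ) * (GS p q a * DK (p N) β) = GS p q a * ∑ y ∈ range (p N), ee (y * β) := by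
      unfold DK
      rw [mul_left_comm, mul_inv_cancel_left₀ hpc]
    rw [mul_sub, h2, h3]
    simp only [mul_sub, sum_sub_distrib]
    rw [← sum_mul]
    ring
  have hnorm : (p N : ℝ) * ‖wa p N ((a : ℝ) / q + β) - GS p q a * DK (p N) β‖ ≤
      2 * q * (2 * W + 8 * (|β| * (W * p N))) + 8 * (|β| * (W * p N)) := by
    have h2 : (p N : ℝ) * ‖wa p N ((a : ℝ) / q + β) - GS p q a * DK (p N) β‖ =
        ‖(p N : ℂ) * (wa p N ((a : ℝ) / q + β) - GS p q a * DK (p N) β)‖ := by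
      rw [norm_mul, Complex.norm_natCast]
    rw [h2, hmain]
    refine (norm_add_le _ _).trans (add_le_add hE1 ?_)
    rw [norm_mul]
    have h3 := GS_norm_le (p := p) q a
    calc _ ≤ 1 * (8 * (|β| * (W * p N))) := by gcongr
      _ = _ := one_mul _
  have hfin : 2 * q * (2 * W + 8 * (|β| * (W * p N))) + 8 * (|β| * (W * p N)) ≤
      p N * (40 * A ^ 2 * q * (1 / N + |β| * (N : ℝ) ^ (d - 1))) := by
    have hlow := h.low' N
    have hNd : (N : ℝ) ^ d = N * (N : ℝ) ^ (d - 1) := by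
      rw [← pow_succ', Nat.sub_add_cancel h.d_pos]
    have h2 : W ≤ A ^ 2 * p N * (1 / N) := by
      have h3 : A * (N : ℝ) ^ (d - 1) ≤ A ^ 2 * p N * (1 / N) := by
        rw [mul_one_div, le_div_iff₀ hN0]
        rw [hNd] at hlow
        nlinarith
      exact hWle.trans h3
    have h4 : |β| * (W * p N) ≤ A ^ 2 * p N * (|β| * (N : ℝ) ^ (d - 1)) := by
      have h5 : |β| * (W * p N) ≤ |β| * ((A * (N : ℝ) ^ (d - 1)) * p N) := by gcongr
      refine h5.trans ?_
      have h6 : (A : ℝ) ≤ A ^ 2 := by nlinarith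
      calc |β| * ((A * (N : ℝ) ^ (d - 1)) * p N) = A * (p N * (|β| * (N : ℝ) ^ (d - 1))) := by ring
        _ ≤ A ^ 2 * (p N * (|β| * (N : ℝ) ^ (d - 1))) := by gcongr
        _ = _ := by ring
    have h7 : 0 ≤ |β| * (W * p N) := by positivity
    have h8 : 8 * (|β| * (W * p N)) ≤ q * (8 * (|β| * (W * p N))) := by
      have : 0 ≤ 8 * (|β| * (W * p N)) := by positivity
      nlinarith
    have h9 : 2 * q * (2 * W + 8 * (|β| * (W * p N))) + 8 * (|β| * (W * p N)) ≤
        q * (4 * W + 24 * (|β| * (W * p N))) := by nlinarith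
    refine h9.trans ?_
    have h10 : 4 * W + 24 * (|β| * (W * p N)) ≤
        40 * (A ^ 2 * p N * (1 / N) + A ^ 2 * p N * (|β| * (N : ℝ) ^ (d - 1))) := by
      linarith
    calc (q : ℝ) * (4 * W + 24 * (|β| * (W * p N))) ≤
        q * (40 * (A ^ 2 * p N * (1 / N) + A ^ 2 * p N * (|β| * (N : ℝ) ^ (d - 1)))) := by gcongr
      _ = _ := by ring
  exact le_of_mul_le_mul_left (hnorm.trans hfin) hp0

end Pool.Agent.Zk89.BT
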