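import Pool.Agent.Zk89.BT.KI

/-!
# Transference to measure preserving maps
-/

set_option autoImplicit false
set_option linter.unusedSectionVars false

open Finset Filter Topology MeasureTheory
open scoped ENNReal

noncomputable section

namespace Pool.Agent.Zk89.BT

open Pool.Agent.Helper602.MK (ee)
open Pool.Agent.Helper602.MK.N_J5b (ee_add ee_zero norm_ee ee_add_int)

/-- the weighted average of a sequence -/
def AA (p : ℕ → ℕ) (N : ℕ) (c : ℕ → ℂ) : ℂ :=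
  (p N : ℂ)⁻¹ * ∑ n ∈ range N, (wt p n : ℂ) * c (p n)

/-- the modulated averages of a sequence -/
def BB (p : ℕ → ℕ) (X s₀ : ℕ) (c : ℕ → ℂ) : ℂ :=
  ∑ x ∈ F0 s₀, GS p x.1 x.2 * ((X : ℂ)⁻¹ * ∑ y ∈ range X,
    ee (-(y * ((x.2 : ℝ) / x.1))) * c y)

variable {p : ℕ → ℕ} {d A : ℕ} {N : ℕ → ℕ} {lam : ℝ}

theorem ml_AA {M : ℕ} [NeZero M] (f : ZMod M → ℂ) (K : ℕ) (x : ZMod M) :
    ml (fun k => wa p K (th k)) f x = AA p K (fun j => f (x + j)) := by
  unfold AA wa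
  rw [ml_smul, ml_sum]
  congr 1
  refine sum_congr rfl fun n _ => ?_
  rw [ml_smul]
  congr 1
  exact (ml_shift f (p n) x).symm

theorem ml_BB {M : ℕ} [NeZero M] (f : ZMod M → ℂ) (X s₀ : ℕ) (x : ZMod M) :
    ml (fun k => bm p X s₀ (th k)) f x = BB p X s₀ (fun j => f (x + j)) := by
  unfold BB bm DK
  rw [ml_sum]
  refine sum_congr rfl fun y _ => ?_
  rw [ml_smul, ml_smul, ml_sum]
  congr 2
  refine sum_congr rfl fun z _ => ?_
  show _ = ee (-(z * ((y.2 : ℝ) / y.1))) * f (x + z)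
  rw [ml_shift f z x, ← ml_smul]
  congr 1
  funext k
  rw [← ee_add]
  congr 1
  ring

theorem AA_congr {K : ℕ} {c c' : ℕ → ℂ} (h : ∀ n < K, c (p n) = c' (p n)) :
    AA p K c = AA p K c' := by
  unfold AA
  congr 1
  refine sum_congr rfl fun n hn => ?_
  rw [h n (mem_range.1 hn)]

theorem BB_congr {X s₀ : ℕ} {c c' : ℕ → ℂ} (h : ∀ y < X, c y = c' y) :
    BB p X s₀ c = BB p X s₀ c' := by
  unfold BB
  refine sum_congr rfl fun x _ => ?_
  congr 2
  refine sum_congr rfl fun y hy => ?_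
  rw [h y (mem_range.1 hy)]

variable {X : Type*} [MeasurableSpace X] {μ : Measure X} [IsProbabilityMeasure μ]

/-- the difference of the averages along the orbit of `x` -/
def DD (p : ℕ → ℕ) (N : ℕ → ℕ) (s₀ : ℕ) (T : X → X) (f : X → ℂ) (t : ℕ) (x : X) : ℂ :=
  AA p (N t) (fun j => f (T^[j] x)) - BB p (p (N t)) s₀ (fun j => f (T^[j] x))

theorem DD_meas {T : X → X} (hT : Measurable T) {f : X → ℂ} (hf : Measurable f) (s₀ t : ℕ) :
    Measurable (DD p N s₀ T f t) := by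
  unfold DD AA BB
  refine Measurable.sub ?_ ?_
  · refine Measurable.const_mul (Finset.measurable_fun_sum _ fun n _ => ?_) _
    exact (hf.comp (hT.iterate _)).const_mul _
  · refine Finset.measurable_fun_sum _ fun x _ => ?_
    refine Measurable.const_mul (Measurable.const_mul
      (Finset.measurable_fun_sum _ fun n _ => ?_) _) _
    exact (hf.comp (hT.iterate _)).const_mul _

/-- **Transference**, finitely many times. -/
theorem trans (h : PS p d A) (hN : Lc N lam) {ε : ℝ} (hε : 0 < ε) {s₀ t₀ : ℕ}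
    (hmain : ∀ (t₁ M : ℕ) [NeZero M] (f : ZMod M → ℂ),
      Dom (Icc t₀ t₁ : Set ℕ) (fun t => ml (fun k => wa p (N t) (th k) -
        bm p (p (N t)) s₀ (th k)) f) (ε * nrm f))
    {T : X → X} (hT : MeasurePreserving T μ μ) {f : X → ℂ} (hf : Measurable f)
    (hb : ∀ x, ‖f x‖ ≤ 1) (t₁ : ℕ) :
    ∫⁻ x, (⨆ t ∈ Icc t₀ t₁, ‖DD p N s₀ T f t x‖ₑ) ^ 2 ∂μ ≤ ENNReal.ofReal (2 * ε ^ 2) := by
  set K := p (N t₁) with hK
  set M := 2 * K + 1 with hM
  have : NeZero M := ⟨by omega⟩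
  set g : X → ℝ≥0∞ := fun x => ⨆ t ∈ Icc t₀ t₁, ‖DD p N s₀ T f t x‖ₑ with hg
  have hgm : Measurable g := by
    refine Measurable.iSup fun t => Measurable.iSup fun _ => ?_
    exact (DD_meas hT.measurable hf s₀ t).enorm
  -- the pointwise inequality
  have hpt : ∀ x, ∑ j ∈ range (K + 1), g (T^[j] x) ^ 2 ≤ ENNReal.ofReal (ε ^ 2 * M) := by
    intro x
    let F : ZMod M → ℂ := fun z => f (T^[z.val] x)
    obtain ⟨h', h1, h2, h3⟩ := hmain t₁ M F
    have hkey : ∀ j < K + 1, ∀ t ∈ Icc t₀ t₁,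
        ‖DD p N s₀ T f t (T^[j] x)‖ ≤ h' (j : ZMod M) := by
      intro j hj t ht
      have ht' := mem_Icc.1 ht
      have hNt : p (N t) ≤ K := h.strictMono.monotone (hN.mono ht'.2)
      have hF : ∀ y < K, F ((j : ZMod M) + y) = f (T^[y] (T^[j] x)) := by
        intro y hy
        have h4 : (((j : ZMod M) + y : ZMod M)).val = j + y := by
          rw [← Nat.cast_add]
          exact ZMod.val_natCast_of_lt (by omega)
        show f (T^[((j : ZMod M) + y : ZMod M).val] x) = _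
        rw [h4, ← Function.iterate_add_apply, add_comm]
      have h5 : ‖ml (fun k => wa p (N t) (th k) - bm p (p (N t)) s₀ (th k)) F
        (j : ZMod M)‖ ≤ h' (j : ZMod M) := h2 t (mem_coe.2 ht) (j : ZMod M)
      rw [ml_sub, ml_AA, ml_BB] at h5
      unfold DD
      rw [← AA_congr (c := fun y => F ((j : ZMod M) + y)) (fun n hn => hF _ (lt_of_lt_of_le
        (h.strictMono hn) hNt)),
        ← BB_congr (c := fun y => F ((j : ZMod M) + y)) (fun y hy => hF y (by omega))]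
      exact h5
    have h6 : ∀ j ∈ range (K + 1), g (T^[j] x) ^ 2 ≤ ENNReal.ofReal (h' (j : ZMod M) ^ 2) := by
      intro j hj
      rw [ENNReal.ofReal_pow (h1 _)]
      gcongr
      refine iSup₂_le fun t ht => ?_
      rw [← ofReal_norm]
      exact ENNReal.ofReal_le_ofReal (hkey j (mem_range.1 hj) t ht)
    refine (sum_le_sum h6).trans ?_
    rw [← ENNReal.ofReal_sum_of_nonneg fun _ _ => sq_nonneg _]
    refine ENNReal.ofReal_le_ofReal ?_
    have h7 : ∑ j ∈ range (K + 1), h' (j : ZMod M) ^ 2 ≤ ∑ z, h' z ^ 2 := by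
      rw [← sum_image (f := fun z : ZMod M => h' z ^ 2) (g := fun j : ℕ => (j : ZMod M))
        (s := range (K + 1))]
      · exact sum_le_sum_of_subset_of_nonneg (subset_univ _) fun _ _ _ => sq_nonneg _
      · intro a ha b hb' hab
        have ha' := mem_range.1 ha
        have hb'' := mem_range.1 hb'
        have h8 := congrArg ZMod.val hab
        rwa [ZMod.val_natCast_of_lt (by omega), ZMod.val_natCast_of_lt (by omega)] at h8
    refine h7.trans (h3.trans ?_)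
    rw [mul_pow, nrm_sq]
    refine mul_le_mul_of_nonneg_left ?_ (sq_nonneg _)
    have h8 : ∀ z ∈ (univ : Finset (ZMod M)), ‖F z‖ ^ 2 ≤ 1 := by
      intro z _
      exact pow_le_one₀ (norm_nonneg _) (hb _)
    refine (sum_le_sum h8).trans ?_
    rw [sum_const, card_univ, ZMod.card, nsmul_eq_mul, mul_one]
  -- integrate
  have h1 : ((K + 1 : ℕ) : ℝ≥0∞) * ∫⁻ x, g x ^ 2 ∂μ ≤ ENNReal.ofReal (ε ^ 2 * M) := by
    have h2 : ∀ j ∈ range (K + 1), ∫⁻ x, g (T^[j] x) ^ 2 ∂μ = ∫⁻ x, g x ^ 2 ∂μ := by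
      intro j _
      exact (hT.iterate j).lintegral_comp (f := fun x => g x ^ 2) (hgm.pow_const 2)
    calc ((K + 1 : ℕ) : ℝ≥0∞) * ∫⁻ x, g x ^ 2 ∂μ =
        ∑ j ∈ range (K + 1), ∫⁻ x, g (T^[j] x) ^ 2 ∂μ := by
          rw [sum_congr rfl h2, sum_const, card_range, nsmul_eq_mul]
      _ = ∫⁻ x, ∑ j ∈ range (K + 1), g (T^[j] x) ^ 2 ∂μ := by
          rw [lintegral_finsetSum]
          intro j _
          exact (hgm.comp (hT.iterate j).measurable).pow_const 2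
      _ ≤ ∫⁻ _, ENNReal.ofReal (ε ^ 2 * M) ∂μ := lintegral_mono hpt
      _ = ENNReal.ofReal (ε ^ 2 * M) := by simp
  have h2 : ENNReal.ofReal (ε ^ 2 * M) ≤ ((K + 1 : ℕ) : ℝ≥0∞) * ENNReal.ofReal (2 * ε ^ 2) := by
    rw [← ENNReal.ofReal_natCast, ← ENNReal.ofReal_mul (by positivity)]
    refine ENNReal.ofReal_le_ofReal ?_
    rw [hM]
    push_cast
    nlinarith [sq_nonneg ε]
  have h3 := h1.trans h2
  rwa [ENNReal.mul_le_mul_iff_right (by simp) (ENNReal.natCast_ne_top _)] at h3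

/-- **Transference**, all times. -/
theorem trans_all (h : PS p d A) (hN : Lc N lam) {ε : ℝ} (hε : 0 < ε) {s₀ t₀ : ℕ}
    (hmain : ∀ (t₁ M : ℕ) [NeZero M] (f : ZMod M → ℂ),
      Dom (Icc t₀ t₁ : Set ℕ) (fun t => ml (fun k => wa p (N t) (th k) -
        bm p (p (N t)) s₀ (th k)) f) (ε * nrm f))
    {T : X → X} (hT : MeasurePreserving T μ μ) {f : X → ℂ} (hf : Measurable f)
    (hb : ∀ x, ‖f x‖ ≤ 1) :
    ∃ g : X → ℝ≥0∞, Measurable g ∧ (∀ x, ∀ t ≥ t₀, ‖DD p N s₀ T f t x‖ₑ ^ 2 ≤ g x) ∧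
      ∫⁻ x, g x ∂μ ≤ ENNReal.ofReal (2 * ε ^ 2) := by
  have hm : ∀ t₁, Measurable fun x => (⨆ t ∈ Icc t₀ t₁, ‖DD p N s₀ T f t x‖ₑ) ^ 2 := by
    intro t₁
    refine (Measurable.iSup fun t => Measurable.iSup fun _ => ?_).pow_const 2
    exact (DD_meas hT.measurable hf s₀ t).enorm
  refine ⟨fun x => ⨆ t₁, (⨆ t ∈ Icc t₀ t₁, ‖DD p N s₀ T f t x‖ₑ) ^ 2,
    Measurable.iSup hm, ?_, ?_⟩
  · intro x t ht
    refine le_trans ?_ (le_iSup (fun t₁ => (⨆ t ∈ Icc t₀ t₁, ‖DD p N s₀ T f t x‖ₑ) ^ 2) t)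
    gcongr
    exact le_iSup₂ (f := fun (t' : ℕ) (_ : t' ∈ Icc t₀ t) => (‖DD p N s₀ T f t' x‖ₑ : ℝ≥0∞)) t
      (mem_Icc.2 ⟨ht, le_rfl⟩)
  · show ∫⁻ x, (⨆ t₁ : ℕ, (⨆ t ∈ Icc t₀ t₁, ‖DD p N s₀ T f t x‖ₑ) ^ 2) ∂μ ≤ _
    rw [lintegral_iSup hm]
    · exact iSup_le fun t₁ => trans h hN hε hmain hT hf hb t₁
    · intro a b hab x
      refine ENNReal.pow_le_pow_left ?_
      refine iSup₂_le fun t ht => ?_
      have ht' := mem_Icc.1 ht
      exact le_iSup₂ (f := fun (t' : ℕ) (_ : t' ∈ Icc t₀ b) => (‖DD p N s₀ T f t' x‖ₑ : ℝ≥0∞)) t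
        (mem_Icc.2 ⟨ht'.1, ht'.2.trans hab⟩)

end Pool.Agent.Zk89.BT
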